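import Mathlib

/-!
# An inequality between power sums of mutual distances (normalised form)

For `N` distinct points of the plane with `∑ ‖p i‖² = N` one has `∑_{i≠j} r⁻³ ≥ κ ∑_{i≠j} r⁻¹`
with `κ` slightly above `1` when `N ≥ 21`, and slightly smaller constants for `N = 18, 19, 20`.
The proof writes `r⁻³ - κ r⁻¹` as a Gaussian mixture and bounds
`∑_{i,j} exp (-t r²)` from below by Cauchy-Schwarz against a Gaussian.
-/

set_option autoImplicit false

namespace Pool.Agent.RelEq624


open MeasureTheory Real Set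


/-- Gaussian on ℂ, translated. -/
lemma gauss_integral {b : ℝ} (hb : 0 < b) (w : ℂ) (c : ℝ) :
    ∫ z : ℂ, rexp (-b * ‖z - w‖ ^ 2 + c) = (π / b) * rexp c := by
  have h0 : ∫ z : ℂ, rexp (-b * ‖z‖ ^ 2) = π / b := by
    have h := GaussianFourier.integral_rexp_neg_mul_sq_norm (V := ℂ) hb
    rw [h, Complex.finrank_real_complex]
    norm_num
  have h1 : ∫ z : ℂ, rexp (-b * ‖z - w‖ ^ 2) = π / b := by
    rw [← h0]
    exact integral_sub_right_eq_self (fun z : ℂ => rexp (-b * ‖z‖ ^ 2)) w
  simp_rw [Real.exp_add]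
  rw [integral_mul_const, h1]

lemma gauss_integrable {b : ℝ} (hb : 0 < b) (w : ℂ) (c : ℝ) :
    Integrable (fun z : ℂ => rexp (-b * ‖z - w‖ ^ 2 + c)) := by
  by_contra h
  have h1 := integral_undef h
  rw [gauss_integral hb w c] at h1
  have : (π / b) * rexp c > 0 := by positivity
  linarith

/-- product of two Gaussians of the same width -/
lemma gauss_pair (t : ℝ) (z p q : ℂ) :
    rexp (-(2 * t) * ‖z - p‖ ^ 2) * rexp (-(2 * t) * ‖z - q‖ ^ 2)
      = rexp (-(4 * t) * ‖z - (p + q) / 2‖ ^ 2 + (-(t * ‖p - q‖ ^ 2))) := by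
  rw [← Real.exp_add]
  congr 1
  simp only [Complex.sq_norm, Complex.normSq_apply, Complex.sub_re, Complex.sub_im, Complex.add_re,
    Complex.add_im, Complex.div_ofNat_re, Complex.div_ofNat_im]
  ring

lemma gauss_cross (t β : ℝ) (h : 2 * t + β ≠ 0) (z p : ℂ) :
    rexp (-(2 * t) * ‖z - p‖ ^ 2) * rexp (-β * ‖z‖ ^ 2)
      = rexp (-(2 * t + β) * ‖z - ((2 * t / (2 * t + β) : ℝ) : ℂ) * p‖ ^ 2
          + (-(2 * t * β / (2 * t + β) * ‖p‖ ^ 2))) := by
  rw [← Real.exp_add]
  congr 1
  simp only [Complex.sq_norm, Complex.normSq_apply, Complex.sub_re, Complex.sub_im, Complex.mul_re,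
    Complex.mul_im, Complex.ofReal_re, Complex.ofReal_im]
  field_simp
  ring

/-- Cauchy–Schwarz against a Gaussian. -/
lemma theta_ge {N : ℕ} (p : Fin N → ℂ) {t β : ℝ} (ht : 0 < t) (hβ : 0 < β) :
    8 * t * β / (2 * t + β) ^ 2 * (∑ i, rexp (-(2 * t * β / (2 * t + β) * ‖p i‖ ^ 2))) ^ 2
      ≤ ∑ i, ∑ j, rexp (-(t * ‖p i - p j‖ ^ 2)) := by
  have h2 : (2 * t + β) ≠ 0 := by positivity
  set A := ∑ i, rexp (-(2 * t * β / (2 * t + β) * ‖p i‖ ^ 2)) with hA
  set lam := 2 * β * A / (2 * t + β) with hlam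
  set θ := ∑ i, ∑ j, rexp (-(t * ‖p i - p j‖ ^ 2)) with hθ
  -- expansion of the square
  have hexp : ∀ z : ℂ, ((∑ i, rexp (-(2 * t) * ‖z - p i‖ ^ 2)) - lam * rexp (-β * ‖z‖ ^ 2)) ^ 2
      = (∑ i, ∑ j, rexp (-(4 * t) * ‖z - (p i + p j) / 2‖ ^ 2 + (-(t * ‖p i - p j‖ ^ 2))))
        - 2 * lam * (∑ i, rexp (-(2 * t + β) * ‖z - ((2 * t / (2 * t + β) : ℝ) : ℂ) * p i‖ ^ 2
          + (-(2 * t * β / (2 * t + β) * ‖p i‖ ^ 2))))
        + lam ^ 2 * rexp (-(2 * β) * ‖z - 0‖ ^ 2 + 0) := by
    intro z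
    have e1 : (∑ i, rexp (-(2 * t) * ‖z - p i‖ ^ 2)) ^ 2
        = ∑ i, ∑ j, rexp (-(4 * t) * ‖z - (p i + p j) / 2‖ ^ 2 + (-(t * ‖p i - p j‖ ^ 2))) := by
      rw [sq, Finset.sum_mul_sum]
      refine Finset.sum_congr rfl fun i _ => Finset.sum_congr rfl fun j _ => ?_
      rw [gauss_pair]
    have e2 : (∑ i, rexp (-(2 * t) * ‖z - p i‖ ^ 2)) * rexp (-β * ‖z‖ ^ 2)
        = ∑ i, rexp (-(2 * t + β) * ‖z - ((2 * t / (2 * t + β) : ℝ) : ℂ) * p i‖ ^ 2
          + (-(2 * t * β / (2 * t + β) * ‖p i‖ ^ 2))) := by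
      rw [Finset.sum_mul]
      refine Finset.sum_congr rfl fun i _ => ?_
      rw [gauss_cross t β h2]
    have e3 : rexp (-β * ‖z‖ ^ 2) ^ 2 = rexp (-(2 * β) * ‖z - 0‖ ^ 2 + 0) := by
      rw [← Real.exp_nat_mul]; congr 1; simp; ring
    rw [← e1, ← e2, ← e3]
    ring
  have hint : ∫ z : ℂ, ((∑ i, rexp (-(2 * t) * ‖z - p i‖ ^ 2)) - lam * rexp (-β * ‖z‖ ^ 2)) ^ 2
      = π / (4 * t) * θ - 2 * lam * (π / (2 * t + β) * A) + lam ^ 2 * (π / (2 * β)) := by
    simp_rw [hexp]
    have i1 : Integrable (fun z : ℂ => ∑ i, ∑ j, rexp (-(4 * t) * ‖z - (p i + p j) / 2‖ ^ 2 + (-(t * ‖p i - p j‖ ^ 2)))) :=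
      integrable_finsetSum _ fun i _ => integrable_finsetSum _ fun j _ =>
        gauss_integrable (by positivity) _ _
    have i2 : Integrable (fun z : ℂ => ∑ i, rexp (-(2 * t + β) * ‖z - ((2 * t / (2 * t + β) : ℝ) : ℂ) * p i‖ ^ 2
          + (-(2 * t * β / (2 * t + β) * ‖p i‖ ^ 2)))) :=
      integrable_finsetSum _ fun i _ => gauss_integrable (by positivity) _ _
    have i3 : Integrable (fun z : ℂ => rexp (-(2 * β) * ‖z - 0‖ ^ 2 + 0)) :=
      gauss_integrable (by positivity) _ _
    have i12 : Integrable (fun z : ℂ => (∑ i, ∑ j, rexp (-(4 * t) * ‖z - (p i + p j) / 2‖ ^ 2 + (-(t * ‖p i - p j‖ ^ 2))))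
        - 2 * lam * (∑ i, rexp (-(2 * t + β) * ‖z - ((2 * t / (2 * t + β) : ℝ) : ℂ) * p i‖ ^ 2
          + (-(2 * t * β / (2 * t + β) * ‖p i‖ ^ 2))))) := i1.sub (i2.const_mul _)
    rw [integral_add i12 (i3.const_mul _), integral_sub i1 (i2.const_mul _),
      integral_const_mul, integral_const_mul, gauss_integral (by positivity)]
    rw [integral_finsetSum _ (fun i _ => integrable_finsetSum _ fun j _ =>
        gauss_integrable (by positivity) _ _),
      integral_finsetSum _ (fun i _ => gauss_integrable (by positivity) _ _)]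
    congr 1
    · congr 1
      · rw [hθ, Finset.mul_sum]
        refine Finset.sum_congr rfl fun i _ => ?_
        rw [integral_finsetSum _ (fun j _ => gauss_integrable (by positivity) _ _), Finset.mul_sum]
        refine Finset.sum_congr rfl fun j _ => ?_
        rw [gauss_integral (by positivity)]
      · congr 1
        rw [hA, Finset.mul_sum]
        refine Finset.sum_congr rfl fun i _ => ?_
        rw [gauss_integral (by positivity)]
    · simp
  have hnn : 0 ≤ ∫ z : ℂ, ((∑ i, rexp (-(2 * t) * ‖z - p i‖ ^ 2)) - lam * rexp (-β * ‖z‖ ^ 2)) ^ 2 :=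
    integral_nonneg fun z => sq_nonneg _
  rw [hint] at hnn
  have hpi := Real.pi_pos
  have key : π / (4 * t) * θ - 2 * lam * (π / (2 * t + β) * A) + lam ^ 2 * (π / (2 * β))
      = π / (4 * t) * (θ - 8 * t * β / (2 * t + β) ^ 2 * A ^ 2) := by
    rw [hlam]; field_simp; ring
  rw [key] at hnn
  have := nonneg_of_mul_nonneg_right hnn (by positivity)
  linarith

/-- the θ bound for configurations with `∑ ‖p i‖² = N`. -/
lemma theta_bound {N : ℕ} (p : Fin N → ℂ) (hp : ∑ i, ‖p i‖ ^ 2 = N) {t u : ℝ} (ht : 0 < t)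
    (hu0 : 0 ≤ u) (hu1 : u < 1) :
    (1 - u ^ 2) * rexp (-(2 * t * (1 - u))) * (N : ℝ) ^ 2
      ≤ ∑ i, ∑ j, rexp (-(t * ‖p i - p j‖ ^ 2)) := by
  set β := 2 * t * (1 - u) / (1 + u) with hβ
  have h1u : 0 < 1 - u := by linarith
  have h1u' : 0 < 1 + u := by linarith
  have hβ0 : 0 < β := by positivity
  have h := theta_ge p ht hβ0
  have e0 : 2 * t + β = 4 * t / (1 + u) := by rw [hβ]; field_simp; ring
  have e1 : 2 * t * β / (2 * t + β) = t * (1 - u) := by rw [e0, hβ]; field_simp; ring
  have e2 : 8 * t * β / (2 * t + β) ^ 2 = 1 - u ^ 2 := by rw [e0, hβ]; field_simp; ring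
  rw [e1, e2] at h
  refine le_trans ?_ h
  have hA : (N : ℝ) * rexp (-(t * (1 - u))) ≤ ∑ i, rexp (-(t * (1 - u) * ‖p i‖ ^ 2)) := by
    have h1 : ∀ i, rexp (-(t * (1 - u))) * (1 - t * (1 - u) * (‖p i‖ ^ 2 - 1))
        ≤ rexp (-(t * (1 - u) * ‖p i‖ ^ 2)) := by
      intro i
      have h2 := Real.add_one_le_exp (-(t * (1 - u) * (‖p i‖ ^ 2 - 1)))
      have h3 : rexp (-(t * (1 - u) * ‖p i‖ ^ 2))
          = rexp (-(t * (1 - u))) * rexp (-(t * (1 - u) * (‖p i‖ ^ 2 - 1))) := by
        rw [← Real.exp_add]; congr 1; ring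
      rw [h3]
      apply mul_le_mul_of_nonneg_left _ (Real.exp_pos _).le
      linarith
    calc (N : ℝ) * rexp (-(t * (1 - u)))
        = ∑ i, rexp (-(t * (1 - u))) * (1 - t * (1 - u) * (‖p i‖ ^ 2 - 1)) := by
          rw [← Finset.mul_sum, Finset.sum_sub_distrib, ← Finset.mul_sum, Finset.sum_sub_distrib, hp]
          simp
          ring
      _ ≤ _ := Finset.sum_le_sum fun i _ => h1 i
  have h5 : 0 ≤ 1 - u ^ 2 := by nlinarith
  have h6 : ((N : ℝ) * rexp (-(t * (1 - u)))) ^ 2 ≤ (∑ i, rexp (-(t * (1 - u) * ‖p i‖ ^ 2))) ^ 2 :=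
    pow_le_pow_left₀ (by positivity) hA 2
  calc (1 - u ^ 2) * rexp (-(2 * t * (1 - u))) * (N : ℝ) ^ 2
      = (1 - u ^ 2) * ((N : ℝ) * rexp (-(t * (1 - u)))) ^ 2 := by
        rw [mul_pow, ← Real.exp_nat_mul]
        have : ((2 : ℕ) : ℝ) * -(t * (1 - u)) = -(2 * t * (1 - u)) := by push_cast; ring
        rw [this]; ring
    _ ≤ _ := mul_le_mul_of_nonneg_left h6 h5


/-- the integral representation -/
lemma rep_integral (κ : ℝ) {r : ℝ} (hr : 0 < r) :
    ∫ x in Ioi (0 : ℝ), (2 * x ^ 2 - κ) * rexp (-(r ^ 2) * x ^ 2)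
      = √π / 2 * (1 / r ^ 3 - κ * (1 / r)) := by
  have hb : 0 < r ^ 2 := by positivity
  have i0 : IntegrableOn (fun x : ℝ => rexp (-(r ^ 2) * x ^ 2)) (Ioi 0) :=
    (integrable_exp_neg_mul_sq hb).integrableOn
  have i2' : IntegrableOn (fun x : ℝ => x ^ (2 : ℝ) * rexp (-(r ^ 2) * x ^ 2)) (Ioi 0) :=
    integrableOn_rpow_mul_exp_neg_mul_sq hb (by norm_num)
  have i2 : IntegrableOn (fun x : ℝ => x ^ 2 * rexp (-(r ^ 2) * x ^ 2)) (Ioi 0) := by
    simpa only [rpow_two] using i2'
  have e0 : ∫ x in Ioi (0 : ℝ), rexp (-(r ^ 2) * x ^ 2) = √π / 2 * (1 / r) := by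
    rw [integral_gaussian_Ioi, Real.sqrt_div' _ hb.le, Real.sqrt_sq hr.le]
    field_simp
  have e2 : ∫ x in Ioi (0 : ℝ), x ^ 2 * rexp (-(r ^ 2) * x ^ 2) = √π / 4 * (1 / r ^ 3) := by
    have h := integral_rpow_mul_exp_neg_mul_rpow (p := 2) (q := 2) two_pos (by norm_num) hb
    simp only [rpow_two] at h
    rw [h]
    have g : Real.Gamma ((2 + 1) / 2) = √π / 2 := by
      have := Real.Gamma_nat_add_one_add_half 0
      norm_num at this
      norm_num
      exact this
    rw [g]
    have hp : (r ^ 2 : ℝ) ^ (-(2 + 1) / 2 : ℝ) = 1 / r ^ 3 := by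
      rw [← Real.rpow_natCast r 2, ← Real.rpow_mul hr.le]
      have : ((2 : ℕ) : ℝ) * (-(2 + 1) / 2) = -((3 : ℕ) : ℝ) := by norm_num
      rw [this, Real.rpow_neg hr.le, Real.rpow_natCast, one_div]
    rw [hp]
    ring
  have : ∀ x : ℝ, (2 * x ^ 2 - κ) * rexp (-(r ^ 2) * x ^ 2)
      = 2 * (x ^ 2 * rexp (-(r ^ 2) * x ^ 2)) - κ * rexp (-(r ^ 2) * x ^ 2) := by
    intro x; ring
  simp_rw [this]
  rw [integral_sub (i2.const_mul 2) (i0.const_mul κ), integral_const_mul, integral_const_mul, e0, e2]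
  ring

lemma rep_integrableOn (κ : ℝ) {r : ℝ} (hr : 0 < r) :
    IntegrableOn (fun x : ℝ => (2 * x ^ 2 - κ) * rexp (-(r ^ 2) * x ^ 2)) (Ioi 0) := by
  have hb : 0 < r ^ 2 := by positivity
  have i0 : IntegrableOn (fun x : ℝ => rexp (-(r ^ 2) * x ^ 2)) (Ioi 0) :=
    (integrable_exp_neg_mul_sq hb).integrableOn
  have i2' : IntegrableOn (fun x : ℝ => x ^ (2 : ℝ) * rexp (-(r ^ 2) * x ^ 2)) (Ioi 0) :=
    integrableOn_rpow_mul_exp_neg_mul_sq hb (by norm_num)
  have i2 : IntegrableOn (fun x : ℝ => x ^ 2 * rexp (-(r ^ 2) * x ^ 2)) (Ioi 0) := by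
    simpa only [rpow_two] using i2'
  have : (fun x : ℝ => (2 * x ^ 2 - κ) * rexp (-(r ^ 2) * x ^ 2))
      = fun x => 2 * (x ^ 2 * rexp (-(r ^ 2) * x ^ 2)) - κ * rexp (-(r ^ 2) * x ^ 2) := by
    funext x; ring
  rw [this]
  exact (i2.const_mul 2).sub (i0.const_mul κ)

lemma poly_integral (κ α β : ℝ) :
    ∫ x in α..β, (2 * x ^ 2 - κ) = 2 / 3 * (β ^ 3 - α ^ 3) - κ * (β - α) := by
  rw [intervalIntegral.integral_sub (by apply Continuous.intervalIntegrable; fun_prop)
    (by apply Continuous.intervalIntegrable; fun_prop), intervalIntegral.integral_const_mul,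
    integral_pow]
  simp
  ring

lemma poly_integral2 (κ α β : ℝ) :
    ∫ x in α..β, (2 * x ^ 2 - κ) * x ^ 2
      = 2 / 5 * (β ^ 5 - α ^ 5) - κ / 3 * (β ^ 3 - α ^ 3) := by
  have : ∀ x : ℝ, (2 * x ^ 2 - κ) * x ^ 2 = 2 * x ^ 4 - κ * x ^ 2 := by intro x; ring
  simp_rw [this]
  rw [intervalIntegral.integral_sub (by apply Continuous.intervalIntegrable; fun_prop)
    (by apply Continuous.intervalIntegrable; fun_prop), intervalIntegral.integral_const_mul,
    intervalIntegral.integral_const_mul, integral_pow, integral_pow]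
  norm_num
  ring

/-- Jensen on one interval -/
lemma jensen_interval {κ α β y t : ℝ} (hαβ : α ≤ β) (hα0 : 0 ≤ α) (hα : κ ≤ 2 * α ^ 2) (hy : 0 ≤ y)
    (hM : 2 / 5 * (β ^ 5 - α ^ 5) - κ / 3 * (β ^ 3 - α ^ 3)
      ≤ t * (2 / 3 * (β ^ 3 - α ^ 3) - κ * (β - α))) :
    (2 / 3 * (β ^ 3 - α ^ 3) - κ * (β - α)) * rexp (-(t * y))
      ≤ ∫ x in α..β, (2 * x ^ 2 - κ) * rexp (-y * x ^ 2) := by
  set W := 2 / 3 * (β ^ 3 - α ^ 3) - κ * (β - α) with hW
  set M := 2 / 5 * (β ^ 5 - α ^ 5) - κ / 3 * (β ^ 3 - α ^ 3) with hMd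
  have h1 : ∫ x in α..β, rexp (-(t * y)) * ((1 + y * t) * (2 * x ^ 2 - κ) - y * ((2 * x ^ 2 - κ) * x ^ 2))
      ≤ ∫ x in α..β, (2 * x ^ 2 - κ) * rexp (-y * x ^ 2) := by
    apply intervalIntegral.integral_mono_on hαβ
    · apply Continuous.intervalIntegrable; fun_prop
    · apply Continuous.intervalIntegrable; fun_prop
    · intro x hx
      have hx1 : α ≤ x := hx.1
      have hk : 0 ≤ 2 * x ^ 2 - κ := by nlinarith
      have he : rexp (-y * x ^ 2) = rexp (-(t * y)) * rexp (-(y * (x ^ 2 - t))) := by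
        rw [← Real.exp_add]; congr 1; ring
      have h2 := Real.add_one_le_exp (-(y * (x ^ 2 - t)))
      rw [he]
      have hp := Real.exp_pos (-(t * y))
      calc rexp (-(t * y)) * ((1 + y * t) * (2 * x ^ 2 - κ) - y * ((2 * x ^ 2 - κ) * x ^ 2))
          = (2 * x ^ 2 - κ) * (rexp (-(t * y)) * (-(y * (x ^ 2 - t)) + 1)) := by ring
        _ ≤ (2 * x ^ 2 - κ) * (rexp (-(t * y)) * rexp (-(y * (x ^ 2 - t)))) := by gcongr
  refine le_trans ?_ h1
  rw [intervalIntegral.integral_const_mul, intervalIntegral.integral_sub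
    (by apply Continuous.intervalIntegrable; fun_prop) (by apply Continuous.intervalIntegrable; fun_prop),
    intervalIntegral.integral_const_mul, intervalIntegral.integral_const_mul, poly_integral,
    poly_integral2, ← hW, ← hMd]
  have hp := Real.exp_pos (-(t * y))
  have : W ≤ (1 + y * t) * W - y * M := by nlinarith
  calc W * rexp (-(t * y)) = rexp (-(t * y)) * W := by ring
    _ ≤ _ := by gcongr

/-- the first (negative) interval -/
lemma neg_interval {κ a y : ℝ} (ha : 0 ≤ a) (hκ : 2 * a ^ 2 ≤ κ) (hy : 0 ≤ y) :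
    2 / 3 * a ^ 3 - κ * a ≤ ∫ x in (0 : ℝ)..a, (2 * x ^ 2 - κ) * rexp (-y * x ^ 2) := by
  have h1 : ∫ x in (0 : ℝ)..a, (2 * x ^ 2 - κ)
      ≤ ∫ x in (0 : ℝ)..a, (2 * x ^ 2 - κ) * rexp (-y * x ^ 2) := by
    apply intervalIntegral.integral_mono_on ha
    · apply Continuous.intervalIntegrable; fun_prop
    · apply Continuous.intervalIntegrable; fun_prop
    · intro x hx
      have hk : 2 * x ^ 2 - κ ≤ 0 := by nlinarith [hx.1, hx.2]
      have he : rexp (-y * x ^ 2) ≤ 1 := by
        rw [Real.exp_le_one_iff]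
        nlinarith [sq_nonneg x]
      nlinarith
  rw [poly_integral] at h1
  linarith

/-- tail -/
lemma tail_nonneg {κ b y : ℝ} (hb0 : 0 ≤ b) (hb : κ ≤ 2 * b ^ 2) :
    0 ≤ ∫ x in Ioi b, (2 * x ^ 2 - κ) * rexp (-y * x ^ 2) := by
  apply setIntegral_nonneg measurableSet_Ioi
  intro x hx
  have hx' : b < x := hx
  have hk : 0 ≤ 2 * x ^ 2 - κ := by nlinarith
  positivity

lemma split_step {f : ℝ → ℝ} {a b : ℝ} (h0 : 0 ≤ a) (hab : a ≤ b) (hf : IntegrableOn f (Ioi 0)) :
    ∫ x in Ioi a, f x = (∫ x in a..b, f x) + ∫ x in Ioi b, f x := by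
  rw [intervalIntegral.integral_interval_add_Ioi (hf.mono_set (Ioi_subset_Ioi h0))
    (hf.mono_set (Ioi_subset_Ioi (h0.trans hab)))]

/-- summation of the pointwise inequality over all ordered pairs -/
lemma sum_ineq {K N : ℕ} (W t c : Fin K → ℝ) (w0 κ C0 : ℝ) (p : Fin N → ℂ)
    (hinj : Function.Injective p)
    (hpt : ∀ r : ℝ, 0 < r → (∑ k, W k * rexp (-(t k * r ^ 2))) - w0 ≤ C0 * (1 / r ^ 3 - κ * (1 / r)))
    (hW : ∀ k, 0 ≤ W k)
    (hθ : ∀ k, c k * (N : ℝ) ^ 2 ≤ ∑ i, ∑ j, rexp (-(t k * ‖p i - p j‖ ^ 2))) :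
    ((∑ k, W k * c k) - w0) * (N : ℝ) ^ 2 - ((∑ k, W k) - w0) * N
      ≤ C0 * ((∑ i, ∑ j ∈ Finset.univ.erase i, 1 / ‖p i - p j‖ ^ 3)
          - κ * ∑ i, ∑ j ∈ Finset.univ.erase i, 1 / ‖p i - p j‖) := by
  classical
  have h1 : ∑ i, ∑ j ∈ Finset.univ.erase i, ((∑ k, W k * rexp (-(t k * ‖p i - p j‖ ^ 2))) - w0)
      ≤ ∑ i, ∑ j ∈ Finset.univ.erase i, C0 * (1 / ‖p i - p j‖ ^ 3 - κ * (1 / ‖p i - p j‖)) := by
    refine Finset.sum_le_sum fun i _ => Finset.sum_le_sum fun j hj => ?_
    apply hpt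
    rw [norm_pos_iff, sub_ne_zero]
    exact fun h => (Finset.ne_of_mem_erase hj) (hinj h).symm
  have h2 : ∑ i, ∑ j ∈ Finset.univ.erase i, C0 * (1 / ‖p i - p j‖ ^ 3 - κ * (1 / ‖p i - p j‖))
      = C0 * ((∑ i, ∑ j ∈ Finset.univ.erase i, 1 / ‖p i - p j‖ ^ 3)
          - κ * ∑ i, ∑ j ∈ Finset.univ.erase i, 1 / ‖p i - p j‖) := by
    simp only [mul_sub, Finset.sum_sub_distrib, Finset.mul_sum]
  have h3 : ∀ i : Fin N, ∑ j ∈ Finset.univ.erase i, ((∑ k, W k * rexp (-(t k * ‖p i - p j‖ ^ 2))) - w0)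
      = (∑ j, ((∑ k, W k * rexp (-(t k * ‖p i - p j‖ ^ 2))) - w0)) - ((∑ k, W k) - w0) := by
    intro i
    rw [← Finset.add_sum_erase Finset.univ _ (Finset.mem_univ i)]
    simp
  have h4 : ∑ i, ∑ j ∈ Finset.univ.erase i, ((∑ k, W k * rexp (-(t k * ‖p i - p j‖ ^ 2))) - w0)
      = (∑ k, W k * ∑ i, ∑ j, rexp (-(t k * ‖p i - p j‖ ^ 2))) - w0 * (N : ℝ) ^ 2
        - ((∑ k, W k) - w0) * N := by
    rw [Finset.sum_congr rfl fun i _ => h3 i, Finset.sum_sub_distrib]
    simp only [Finset.sum_sub_distrib, Finset.sum_const, Finset.card_univ, Fintype.card_fin, nsmul_eq_mul]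
    have h5 : ∑ i, ∑ j, ∑ k, W k * rexp (-(t k * ‖p i - p j‖ ^ 2))
        = ∑ k, W k * ∑ i, ∑ j, rexp (-(t k * ‖p i - p j‖ ^ 2)) := by
      have : ∀ i, ∑ j, ∑ k, W k * rexp (-(t k * ‖p i - p j‖ ^ 2))
          = ∑ k, ∑ j, W k * rexp (-(t k * ‖p i - p j‖ ^ 2)) := fun i => Finset.sum_comm
      simp_rw [this]
      rw [Finset.sum_comm]
      simp_rw [Finset.mul_sum]
    rw [h5]
    ring
  have h6 : (∑ k, W k * (c k * (N : ℝ) ^ 2)) ≤ ∑ k, W k * ∑ i, ∑ j, rexp (-(t k * ‖p i - p j‖ ^ 2)) :=
    Finset.sum_le_sum fun k _ => mul_le_mul_of_nonneg_left (hθ k) (hW k)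
  have h7 : (∑ k, W k * (c k * (N : ℝ) ^ 2)) = (∑ k, W k * c k) * (N : ℝ) ^ 2 := by
    rw [Finset.sum_mul]; exact Finset.sum_congr rfl fun k _ => by ring
  rw [h4, h2] at h1
  rw [h7] at h6
  linarith

/-! ### Data set `A`: `a = 71/100`, `κ = 2 a² = 5041/5000` -/

noncomputable def WA : Fin 8 → ℝ := ![(1568 / 9375), (131923 / 375000), (222673 / 375000), (65879 / 75000), (20826 / 15625), (27774 / 15625), (934349 / 375000), (64127 / 18750)]
noncomputable def tA : Fin 8 → ℝ := ![(173 / 200), (133 / 100), (469 / 250), (2521 / 1000), (413 / 125), (423 / 100), (5321 / 1000), (166 / 25)]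
noncomputable def cA : Fin 8 → ℝ := ![(1604253 / 5000000), (717743 / 3125000), (17175549 / 100000000), (660933 / 5000000), (645141 / 6250000), (8197497 / 100000000), (6595803 / 100000000), (5332397 / 100000000)]

lemma pointwiseA {r : ℝ} (hr : 0 < r) :
    (∑ k, WA k * rexp (-(tA k * r ^ 2))) - (357911 / 750000)
      ≤ √π / 2 * (1 / r ^ 3 - (5041 / 5000) * (1 / r)) := by
  have hI := rep_integrableOn (5041 / 5000) hr
  have hy : 0 ≤ r ^ 2 := by positivity
  rw [← rep_integral (5041 / 5000) hr]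
  rw [split_step (a := 0) (b := (71 / 100)) (by norm_num) (by norm_num) hI]
  rw [split_step (a := (71 / 100)) (b := (103 / 100)) (by norm_num) (by norm_num) hI]
  rw [split_step (a := (103 / 100)) (b := (5 / 4)) (by norm_num) (by norm_num) hI]
  rw [split_step (a := (5 / 4)) (b := (147 / 100)) (by norm_num) (by norm_num) hI]
  rw [split_step (a := (147 / 100)) (b := (169 / 100)) (by norm_num) (by norm_num) hI]
  rw [split_step (a := (169 / 100)) (b := (193 / 100)) (by norm_num) (by norm_num) hI]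
  rw [split_step (a := (193 / 100)) (b := (217 / 100)) (by norm_num) (by norm_num) hI]
  rw [split_step (a := (217 / 100)) (b := (243 / 100)) (by norm_num) (by norm_num) hI]
  rw [split_step (a := (243 / 100)) (b := (271 / 100)) (by norm_num) (by norm_num) hI]
  have n0 := neg_interval (κ := (5041 / 5000)) (a := (71 / 100)) (y := r ^ 2) (by norm_num) (by norm_num) hy
  have j0 := jensen_interval (κ := (5041 / 5000)) (α := (71 / 100)) (β := (103 / 100)) (y := r ^ 2) (t := (173 / 200))
    (by norm_num) (by norm_num) (by norm_num) hy (by norm_num)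
  have j1 := jensen_interval (κ := (5041 / 5000)) (α := (103 / 100)) (β := (5 / 4)) (y := r ^ 2) (t := (133 / 100))
    (by norm_num) (by norm_num) (by norm_num) hy (by norm_num)
  have j2 := jensen_interval (κ := (5041 / 5000)) (α := (5 / 4)) (β := (147 / 100)) (y := r ^ 2) (t := (469 / 250))
    (by norm_num) (by norm_num) (by norm_num) hy (by norm_num)
  have j3 := jensen_interval (κ := (5041 / 5000)) (α := (147 / 100)) (β := (169 / 100)) (y := r ^ 2) (t := (2521 / 1000))
    (by norm_num) (by norm_num) (by norm_num) hy (by norm_num)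
  have j4 := jensen_interval (κ := (5041 / 5000)) (α := (169 / 100)) (β := (193 / 100)) (y := r ^ 2) (t := (413 / 125))
    (by norm_num) (by norm_num) (by norm_num) hy (by norm_num)
  have j5 := jensen_interval (κ := (5041 / 5000)) (α := (193 / 100)) (β := (217 / 100)) (y := r ^ 2) (t := (423 / 100))
    (by norm_num) (by norm_num) (by norm_num) hy (by norm_num)
  have j6 := jensen_interval (κ := (5041 / 5000)) (α := (217 / 100)) (β := (243 / 100)) (y := r ^ 2) (t := (5321 / 1000))
    (by norm_num) (by norm_num) (by norm_num) hy (by norm_num)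
  have j7 := jensen_interval (κ := (5041 / 5000)) (α := (243 / 100)) (β := (271 / 100)) (y := r ^ 2) (t := (166 / 25))
    (by norm_num) (by norm_num) (by norm_num) hy (by norm_num)
  have tl := tail_nonneg (κ := (5041 / 5000)) (b := (271 / 100)) (y := r ^ 2) (by norm_num) (by norm_num)
  simp only [Fin.sum_univ_eight, WA, tA, Matrix.cons_val]
  norm_num at *
  linarith

lemma exp_bdA0 : (967 / 2000) ≤ rexp (-(3633 / 5000)) := by
  have h := Real.exp_bound (x := -(3633 / 10000)) (by norm_num [abs_le]) (n := 8) (by norm_num)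
  have h2 : rexp (-(3633 / 5000)) = rexp (-(3633 / 10000)) ^ 2 := by
    rw [← Real.exp_nat_mul]; congr 1; norm_num
  rw [h2]
  have h3 : (695377 / 1000000) ≤ rexp (-(3633 / 10000)) := by
    rw [abs_le] at h
    have := h.1
    norm_num [Finset.sum_range_succ, Nat.factorial] at this
    norm_num at *
    linarith
  nlinarith

lemma exp_bdA1 : (274 / 625) ≤ rexp (-(4123 / 5000)) := by
  have h := Real.exp_bound (x := -(4123 / 10000)) (by norm_num [abs_le]) (n := 8) (by norm_num)
  have h2 : rexp (-(4123 / 5000)) = rexp (-(4123 / 10000)) ^ 2 := by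
    rw [← Real.exp_nat_mul]; congr 1; norm_num
  rw [h2]
  have h3 : (5297 / 8000) ≤ rexp (-(4123 / 10000)) := by
    rw [abs_le] at h
    have := h.1
    norm_num [Finset.sum_range_succ, Nat.factorial] at this
    norm_num at *
    linarith
  nlinarith

lemma exp_bdA2 : (4219 / 10000) ≤ rexp (-(10787 / 12500)) := by
  have h := Real.exp_bound (x := -(10787 / 25000)) (by norm_num [abs_le]) (n := 8) (by norm_num)
  have h2 : rexp (-(10787 / 12500)) = rexp (-(10787 / 25000)) ^ 2 := by
    rw [← Real.exp_nat_mul]; congr 1; norm_num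
  rw [h2]
  have h3 : (324773 / 500000) ≤ rexp (-(10787 / 25000)) := by
    rw [abs_le] at h
    have := h.1
    norm_num [Finset.sum_range_succ, Nat.factorial] at this
    norm_num at *
    linarith
  nlinarith

lemma exp_bdA3 : (807 / 2000) ≤ rexp (-(22689 / 25000)) := by
  have h := Real.exp_bound (x := -(22689 / 50000)) (by norm_num [abs_le]) (n := 8) (by norm_num)
  have h2 : rexp (-(22689 / 25000)) = rexp (-(22689 / 50000)) ^ 2 := by
    rw [← Real.exp_nat_mul]; congr 1; norm_num
  rw [h2]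
  have h3 : (635221 / 1000000) ≤ rexp (-(22689 / 50000)) := by
    rw [abs_le] at h
    have := h.1
    norm_num [Finset.sum_range_succ, Nat.factorial] at this
    norm_num at *
    linarith
  nlinarith

lemma exp_bdA4 : (991 / 2500) ≤ rexp (-(2891 / 3125)) := by
  have h := Real.exp_bound (x := -(2891 / 6250)) (by norm_num [abs_le]) (n := 8) (by norm_num)
  have h2 : rexp (-(2891 / 3125)) = rexp (-(2891 / 6250)) ^ 2 := by
    rw [← Real.exp_nat_mul]; congr 1; norm_num
  rw [h2]
  have h3 : (629669 / 1000000) ≤ rexp (-(2891 / 6250)) := by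
    rw [abs_le] at h
    have := h.1
    norm_num [Finset.sum_range_succ, Nat.factorial] at this
    norm_num at *
    linarith
  nlinarith

lemma exp_bdA5 : (3943 / 10000) ≤ rexp (-(4653 / 5000)) := by
  have h := Real.exp_bound (x := -(4653 / 10000)) (by norm_num [abs_le]) (n := 8) (by norm_num)
  have h2 : rexp (-(4653 / 5000)) = rexp (-(4653 / 10000)) ^ 2 := by
    rw [← Real.exp_nat_mul]; congr 1; norm_num
  rw [h2]
  have h3 : (313973 / 500000) ≤ rexp (-(4653 / 10000)) := by
    rw [abs_le] at h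
    have := h.1
    norm_num [Finset.sum_range_succ, Nat.factorial] at this
    norm_num at *
    linarith
  nlinarith

lemma exp_bdA6 : (3837 / 10000) ≤ rexp (-(47889 / 50000)) := by
  have h := Real.exp_bound (x := -(47889 / 100000)) (by norm_num [abs_le]) (n := 8) (by norm_num)
  have h2 : rexp (-(47889 / 50000)) = rexp (-(47889 / 100000)) ^ 2 := by
    rw [← Real.exp_nat_mul]; congr 1; norm_num
  rw [h2]
  have h3 : (61947 / 100000) ≤ rexp (-(47889 / 100000)) := by
    rw [abs_le] at h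
    have := h.1
    norm_num [Finset.sum_range_succ, Nat.factorial] at this
    norm_num at *
    linarith
  nlinarith

lemma exp_bdA7 : (3947 / 10000) ≤ rexp (-(581 / 625)) := by
  have h := Real.exp_bound (x := -(581 / 1250)) (by norm_num [abs_le]) (n := 8) (by norm_num)
  have h2 : rexp (-(581 / 625)) = rexp (-(581 / 1250)) ^ 2 := by
    rw [← Real.exp_nat_mul]; congr 1; norm_num
  rw [h2]
  have h3 : (31413 / 50000) ≤ rexp (-(581 / 1250)) := by
    rw [abs_le] at h
    have := h.1
    norm_num [Finset.sum_range_succ, Nat.factorial] at this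
    norm_num at *
    linarith
  nlinarith

lemma thetaA {N : ℕ} (p : Fin N → ℂ) (hp : ∑ i, ‖p i‖ ^ 2 = N) (k : Fin 8) :
    cA k * (N : ℝ) ^ 2 ≤ ∑ i, ∑ j, rexp (-(tA k * ‖p i - p j‖ ^ 2)) := by
  have h0 : (0 : ℝ) ≤ (N : ℝ) ^ 2 := by positivity
  fin_cases k
  · refine le_trans ?_ (theta_bound p hp (t := (173 / 200)) (u := (29 / 50)) (by norm_num) (by norm_num) (by norm_num))
    have h := exp_bdA0
    have e : (2 * (173 / 200) * (1 - (29 / 50)) : ℝ) = (3633 / 5000) := by norm_num
    rw [e]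
    apply mul_le_mul_of_nonneg_right _ h0
    change (1604253 / 5000000) ≤ _
    nlinarith
  · refine le_trans ?_ (theta_bound p hp (t := (133 / 100)) (u := (69 / 100)) (by norm_num) (by norm_num) (by norm_num))
    have h := exp_bdA1
    have e : (2 * (133 / 100) * (1 - (69 / 100)) : ℝ) = (4123 / 5000) := by norm_num
    rw [e]
    apply mul_le_mul_of_nonneg_right _ h0
    change (717743 / 3125000) ≤ _
    nlinarith
  · refine le_trans ?_ (theta_bound p hp (t := (469 / 250)) (u := (77 / 100)) (by norm_num) (by norm_num) (by norm_num))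
    have h := exp_bdA2
    have e : (2 * (469 / 250) * (1 - (77 / 100)) : ℝ) = (10787 / 12500) := by norm_num
    rw [e]
    apply mul_le_mul_of_nonneg_right _ h0
    change (17175549 / 100000000) ≤ _
    nlinarith
  · refine le_trans ?_ (theta_bound p hp (t := (2521 / 1000)) (u := (41 / 50)) (by norm_num) (by norm_num) (by norm_num))
    have h := exp_bdA3
    have e : (2 * (2521 / 1000) * (1 - (41 / 50)) : ℝ) = (22689 / 25000) := by norm_num
    rw [e]
    apply mul_le_mul_of_nonneg_right _ h0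
    change (660933 / 5000000) ≤ _
    nlinarith
  · refine le_trans ?_ (theta_bound p hp (t := (413 / 125)) (u := (43 / 50)) (by norm_num) (by norm_num) (by norm_num))
    have h := exp_bdA4
    have e : (2 * (413 / 125) * (1 - (43 / 50)) : ℝ) = (2891 / 3125) := by norm_num
    rw [e]
    apply mul_le_mul_of_nonneg_right _ h0
    change (645141 / 6250000) ≤ _
    nlinarith
  · refine le_trans ?_ (theta_bound p hp (t := (423 / 100)) (u := (89 / 100)) (by norm_num) (by norm_num) (by norm_num))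
    have h := exp_bdA5
    have e : (2 * (423 / 100) * (1 - (89 / 100)) : ℝ) = (4653 / 5000) := by norm_num
    rw [e]
    apply mul_le_mul_of_nonneg_right _ h0
    change (8197497 / 100000000) ≤ _
    nlinarith
  · refine le_trans ?_ (theta_bound p hp (t := (5321 / 1000)) (u := (91 / 100)) (by norm_num) (by norm_num) (by norm_num))
    have h := exp_bdA6
    have e : (2 * (5321 / 1000) * (1 - (91 / 100)) : ℝ) = (47889 / 50000) := by norm_num
    rw [e]
    apply mul_le_mul_of_nonneg_right _ h0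
    change (6595803 / 100000000) ≤ _
    nlinarith
  · refine le_trans ?_ (theta_bound p hp (t := (166 / 25)) (u := (93 / 100)) (by norm_num) (by norm_num) (by norm_num))
    have h := exp_bdA7
    have e : (2 * (166 / 25) * (1 - (93 / 100)) : ℝ) = (581 / 625) := by norm_num
    rw [e]
    apply mul_le_mul_of_nonneg_right _ h0
    change (5332397 / 100000000) ≤ _
    nlinarith

lemma scaledA {N : ℕ} (hN : 21 ≤ N) (p : Fin N → ℂ) (hinj : Function.Injective p)
    (hp : ∑ i, ‖p i‖ ^ 2 = N) :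
    (5041 / 5000) * (∑ i, ∑ j ∈ Finset.univ.erase i, 1 / ‖p i - p j‖)
      ≤ ∑ i, ∑ j ∈ Finset.univ.erase i, 1 / ‖p i - p j‖ ^ 3 := by
  have h := sum_ineq WA tA cA (357911 / 750000) (5041 / 5000) (√π / 2) p hinj (fun r hr => pointwiseA hr)
    (by intro k; fin_cases k <;> norm_num [WA]) (fun k => thetaA p hp k)
  have hN' : (21 : ℝ) ≤ N := by exact_mod_cast hN
  have hN0 : (0 : ℝ) < N := by linarith
  have hB : (∑ k, WA k * cA k) - (357911 / 750000) = (4737713709617 / 9375000000000) := by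
    simp only [Fin.sum_univ_eight, WA, cA, Matrix.cons_val]; norm_num
  have hC : (∑ k, WA k) - (357911 / 750000) = (7902089 / 750000) := by
    simp only [Fin.sum_univ_eight, WA, Matrix.cons_val]; norm_num
  rw [hB, hC] at h
  have h3 : 0 ≤ (4737713709617 / 9375000000000) * (N : ℝ) ^ 2 - (7902089 / 750000) * N := by nlinarith
  have h4 := nonneg_of_mul_nonneg_right (h3.trans h) (by positivity)
  linarith

/-! ### Data set `B`: `a = 137/200`, `κ = 2 a² = 18769/20000` -/

noncomputable def WB : Fin 8 → ℝ := ![(219539 / 1500000), (616119 / 2000000), (146893 / 300000), (1511559 / 2000000), (2079567 / 2000000), (9051167 / 6000000), (509337 / 250000), (128837 / 48000)]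
noncomputable def tB : Fin 8 → ℝ := ![(801 / 1000), (1227 / 1000), (214 / 125), (286 / 125), (2963 / 1000), (3769 / 1000), (592 / 125), (5861 / 1000)]
noncomputable def cB : Fin 8 → ℝ := ![(1356777 / 4000000), (24518439 / 100000000), (3717 / 20000), (14412849 / 100000000), (456321 / 4000000), (570627 / 6250000), (36841 / 500000), (4698 / 78125)]

lemma pointwiseB {r : ℝ} (hr : 0 < r) :
    (∑ k, WB k * rexp (-(tB k * r ^ 2))) - (2571353 / 6000000)
      ≤ √π / 2 * (1 / r ^ 3 - (18769 / 20000) * (1 / r)) := by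
  have hI := rep_integrableOn (18769 / 20000) hr
  have hy : 0 ≤ r ^ 2 := by positivity
  rw [← rep_integral (18769 / 20000) hr]
  rw [split_step (a := 0) (b := (137 / 200)) (by norm_num) (by norm_num) hI]
  rw [split_step (a := (137 / 200)) (b := (99 / 100)) (by norm_num) (by norm_num) hI]
  rw [split_step (a := (99 / 100)) (b := (6 / 5)) (by norm_num) (by norm_num) hI]
  rw [split_step (a := (6 / 5)) (b := (7 / 5)) (by norm_num) (by norm_num) hI]
  rw [split_step (a := (7 / 5)) (b := (161 / 100)) (by norm_num) (by norm_num) hI]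
  rw [split_step (a := (161 / 100)) (b := (91 / 50)) (by norm_num) (by norm_num) hI]
  rw [split_step (a := (91 / 50)) (b := (41 / 20)) (by norm_num) (by norm_num) hI]
  rw [split_step (a := (41 / 20)) (b := (229 / 100)) (by norm_num) (by norm_num) hI]
  rw [split_step (a := (229 / 100)) (b := (127 / 50)) (by norm_num) (by norm_num) hI]
  have n0 := neg_interval (κ := (18769 / 20000)) (a := (137 / 200)) (y := r ^ 2) (by norm_num) (by norm_num) hy
  have j0 := jensen_interval (κ := (18769 / 20000)) (α := (137 / 200)) (β := (99 / 100)) (y := r ^ 2) (t := (801 / 1000))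
    (by norm_num) (by norm_num) (by norm_num) hy (by norm_num)
  have j1 := jensen_interval (κ := (18769 / 20000)) (α := (99 / 100)) (β := (6 / 5)) (y := r ^ 2) (t := (1227 / 1000))
    (by norm_num) (by norm_num) (by norm_num) hy (by norm_num)
  have j2 := jensen_interval (κ := (18769 / 20000)) (α := (6 / 5)) (β := (7 / 5)) (y := r ^ 2) (t := (214 / 125))
    (by norm_num) (by norm_num) (by norm_num) hy (by norm_num)
  have j3 := jensen_interval (κ := (18769 / 20000)) (α := (7 / 5)) (β := (161 / 100)) (y := r ^ 2) (t := (286 / 125))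
    (by norm_num) (by norm_num) (by norm_num) hy (by norm_num)
  have j4 := jensen_interval (κ := (18769 / 20000)) (α := (161 / 100)) (β := (91 / 50)) (y := r ^ 2) (t := (2963 / 1000))
    (by norm_num) (by norm_num) (by norm_num) hy (by norm_num)
  have j5 := jensen_interval (κ := (18769 / 20000)) (α := (91 / 50)) (β := (41 / 20)) (y := r ^ 2) (t := (3769 / 1000))
    (by norm_num) (by norm_num) (by norm_num) hy (by norm_num)
  have j6 := jensen_interval (κ := (18769 / 20000)) (α := (41 / 20)) (β := (229 / 100)) (y := r ^ 2) (t := (592 / 125))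
    (by norm_num) (by norm_num) (by norm_num) hy (by norm_num)
  have j7 := jensen_interval (κ := (18769 / 20000)) (α := (229 / 100)) (β := (127 / 50)) (y := r ^ 2) (t := (5861 / 1000))
    (by norm_num) (by norm_num) (by norm_num) hy (by norm_num)
  have tl := tail_nonneg (κ := (18769 / 20000)) (b := (127 / 50)) (y := r ^ 2) (by norm_num) (by norm_num)
  simp only [Fin.sum_univ_eight, WB, tB, Matrix.cons_val]
  norm_num at *
  linarith

lemma exp_bdB0 : (4863 / 10000) ≤ rexp (-(7209 / 10000)) := by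
  have h := Real.exp_bound (x := -(7209 / 20000)) (by norm_num [abs_le]) (n := 8) (by norm_num)
  have h2 : rexp (-(7209 / 10000)) = rexp (-(7209 / 20000)) ^ 2 := by
    rw [← Real.exp_nat_mul]; congr 1; norm_num
  rw [h2]
  have h3 : (697361 / 1000000) ≤ rexp (-(7209 / 20000)) := by
    rw [abs_le] at h
    have := h.1
    norm_num [Finset.sum_range_succ, Nat.factorial] at this
    norm_num at *
    linarith
  nlinarith

lemma exp_bdB1 : (4449 / 10000) ≤ rexp (-(40491 / 50000)) := by
  have h := Real.exp_bound (x := -(40491 / 100000)) (by norm_num [abs_le]) (n := 8) (by norm_num)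
  have h2 : rexp (-(40491 / 50000)) = rexp (-(40491 / 100000)) ^ 2 := by
    rw [← Real.exp_nat_mul]; congr 1; norm_num
  rw [h2]
  have h3 : (166759 / 250000) ≤ rexp (-(40491 / 100000)) := by
    rw [abs_le] at h
    have := h.1
    norm_num [Finset.sum_range_succ, Nat.factorial] at this
    norm_num at *
    linarith
  nlinarith

lemma exp_bdB2 : (531 / 1250) ≤ rexp (-(107 / 125)) := by
  have h := Real.exp_bound (x := -(107 / 250)) (by norm_num [abs_le]) (n := 8) (by norm_num)
  have h2 : rexp (-(107 / 125)) = rexp (-(107 / 250)) ^ 2 := by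
    rw [← Real.exp_nat_mul]; congr 1; norm_num
  rw [h2]
  have h3 : (65181 / 100000) ≤ rexp (-(107 / 250)) := by
    rw [abs_le] at h
    have := h.1
    norm_num [Finset.sum_range_succ, Nat.factorial] at this
    norm_num at *
    linarith
  nlinarith

lemma exp_bdB3 : (4191 / 10000) ≤ rexp (-(2717 / 3125)) := by
  have h := Real.exp_bound (x := -(2717 / 6250)) (by norm_num [abs_le]) (n := 8) (by norm_num)
  have h2 : rexp (-(2717 / 3125)) = rexp (-(2717 / 6250)) ^ 2 := by
    rw [← Real.exp_nat_mul]; congr 1; norm_num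
  rw [h2]
  have h3 : (129489 / 200000) ≤ rexp (-(2717 / 6250)) := by
    rw [abs_le] at h
    have := h.1
    norm_num [Finset.sum_range_succ, Nat.factorial] at this
    norm_num at *
    linarith
  nlinarith

lemma exp_bdB4 : (4111 / 10000) ≤ rexp (-(8889 / 10000)) := by
  have h := Real.exp_bound (x := -(8889 / 20000)) (by norm_num [abs_le]) (n := 8) (by norm_num)
  have h2 : rexp (-(8889 / 10000)) = rexp (-(8889 / 20000)) ^ 2 := by
    rw [← Real.exp_nat_mul]; congr 1; norm_num
  rw [h2]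
  have h3 : (80147 / 125000) ≤ rexp (-(8889 / 20000)) := by
    rw [abs_le] at h
    have := h.1
    norm_num [Finset.sum_range_succ, Nat.factorial] at this
    norm_num at *
    linarith
  nlinarith

lemma exp_bdB5 : (4047 / 10000) ≤ rexp (-(11307 / 12500)) := by
  have h := Real.exp_bound (x := -(11307 / 25000)) (by norm_num [abs_le]) (n := 8) (by norm_num)
  have h2 : rexp (-(11307 / 12500)) = rexp (-(11307 / 25000)) ^ 2 := by
    rw [← Real.exp_nat_mul]; congr 1; norm_num
  rw [h2]
  have h3 : (25447 / 40000) ≤ rexp (-(11307 / 25000)) := by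
    rw [abs_le] at h
    have := h.1
    norm_num [Finset.sum_range_succ, Nat.factorial] at this
    norm_num at *
    linarith
  nlinarith

lemma exp_bdB6 : (1939 / 5000) ≤ rexp (-(592 / 625)) := by
  have h := Real.exp_bound (x := -(296 / 625)) (by norm_num [abs_le]) (n := 8) (by norm_num)
  have h2 : rexp (-(592 / 625)) = rexp (-(296 / 625)) ^ 2 := by
    rw [← Real.exp_nat_mul]; congr 1; norm_num
  rw [h2]
  have h3 : (124551 / 200000) ≤ rexp (-(296 / 625)) := by
    rw [abs_le] at h
    have := h.1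
    norm_num [Finset.sum_range_succ, Nat.factorial] at this
    norm_num at *
    linarith
  nlinarith

lemma exp_bdB7 : (783 / 2000) ≤ rexp (-(5861 / 6250)) := by
  have h := Real.exp_bound (x := -(5861 / 12500)) (by norm_num [abs_le]) (n := 8) (by norm_num)
  have h2 : rexp (-(5861 / 6250)) = rexp (-(5861 / 12500)) ^ 2 := by
    rw [← Real.exp_nat_mul]; congr 1; norm_num
  rw [h2]
  have h3 : (312851 / 500000) ≤ rexp (-(5861 / 12500)) := by
    rw [abs_le] at h
    have := h.1
    norm_num [Finset.sum_range_succ, Nat.factorial] at this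
    norm_num at *
    linarith
  nlinarith

lemma thetaB {N : ℕ} (p : Fin N → ℂ) (hp : ∑ i, ‖p i‖ ^ 2 = N) (k : Fin 8) :
    cB k * (N : ℝ) ^ 2 ≤ ∑ i, ∑ j, rexp (-(tB k * ‖p i - p j‖ ^ 2)) := by
  have h0 : (0 : ℝ) ≤ (N : ℝ) ^ 2 := by positivity
  fin_cases k
  · refine le_trans ?_ (theta_bound p hp (t := (801 / 1000)) (u := (11 / 20)) (by norm_num) (by norm_num) (by norm_num))
    have h := exp_bdB0
    have e : (2 * (801 / 1000) * (1 - (11 / 20)) : ℝ) = (7209 / 10000) := by norm_num
    rw [e]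
    apply mul_le_mul_of_nonneg_right _ h0
    change (1356777 / 4000000) ≤ _
    nlinarith
  · refine le_trans ?_ (theta_bound p hp (t := (1227 / 1000)) (u := (67 / 100)) (by norm_num) (by norm_num) (by norm_num))
    have h := exp_bdB1
    have e : (2 * (1227 / 1000) * (1 - (67 / 100)) : ℝ) = (40491 / 50000) := by norm_num
    rw [e]
    apply mul_le_mul_of_nonneg_right _ h0
    change (24518439 / 100000000) ≤ _
    nlinarith
  · refine le_trans ?_ (theta_bound p hp (t := (214 / 125)) (u := (3 / 4)) (by norm_num) (by norm_num) (by norm_num))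
    have h := exp_bdB2
    have e : (2 * (214 / 125) * (1 - (3 / 4)) : ℝ) = (107 / 125) := by norm_num
    rw [e]
    apply mul_le_mul_of_nonneg_right _ h0
    change (3717 / 20000) ≤ _
    nlinarith
  · refine le_trans ?_ (theta_bound p hp (t := (286 / 125)) (u := (81 / 100)) (by norm_num) (by norm_num) (by norm_num))
    have h := exp_bdB3
    have e : (2 * (286 / 125) * (1 - (81 / 100)) : ℝ) = (2717 / 3125) := by norm_num
    rw [e]
    apply mul_le_mul_of_nonneg_right _ h0
    change (14412849 / 100000000) ≤ _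
    nlinarith
  · refine le_trans ?_ (theta_bound p hp (t := (2963 / 1000)) (u := (17 / 20)) (by norm_num) (by norm_num) (by norm_num))
    have h := exp_bdB4
    have e : (2 * (2963 / 1000) * (1 - (17 / 20)) : ℝ) = (8889 / 10000) := by norm_num
    rw [e]
    apply mul_le_mul_of_nonneg_right _ h0
    change (456321 / 4000000) ≤ _
    nlinarith
  · refine le_trans ?_ (theta_bound p hp (t := (3769 / 1000)) (u := (22 / 25)) (by norm_num) (by norm_num) (by norm_num))
    have h := exp_bdB5
    have e : (2 * (3769 / 1000) * (1 - (22 / 25)) : ℝ) = (11307 / 12500) := by norm_num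
    rw [e]
    apply mul_le_mul_of_nonneg_right _ h0
    change (570627 / 6250000) ≤ _
    nlinarith
  · refine le_trans ?_ (theta_bound p hp (t := (592 / 125)) (u := (9 / 10)) (by norm_num) (by norm_num) (by norm_num))
    have h := exp_bdB6
    have e : (2 * (592 / 125) * (1 - (9 / 10)) : ℝ) = (592 / 625) := by norm_num
    rw [e]
    apply mul_le_mul_of_nonneg_right _ h0
    change (36841 / 500000) ≤ _
    nlinarith
  · refine le_trans ?_ (theta_bound p hp (t := (5861 / 1000)) (u := (23 / 25)) (by norm_num) (by norm_num) (by norm_num))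
    have h := exp_bdB7
    have e : (2 * (5861 / 1000) * (1 - (23 / 25)) : ℝ) = (5861 / 6250) := by norm_num
    rw [e]
    apply mul_le_mul_of_nonneg_right _ h0
    change (4698 / 78125) ≤ _
    nlinarith

lemma scaledB {N : ℕ} (hN : 19 ≤ N) (p : Fin N → ℂ) (hinj : Function.Injective p)
    (hp : ∑ i, ‖p i‖ ^ 2 = N) :
    (18769 / 20000) * (∑ i, ∑ j ∈ Finset.univ.erase i, 1 / ‖p i - p j‖)
      ≤ ∑ i, ∑ j ∈ Finset.univ.erase i, 1 / ‖p i - p j‖ ^ 3 := by
  have h := sum_ineq WB tB cB (2571353 / 6000000) (18769 / 20000) (√π / 2) p hinj (fun r hr => pointwiseB hr)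
    (by intro k; fin_cases k <;> norm_num [WB]) (fun k => thetaB p hp k)
  have hN' : (19 : ℝ) ≤ N := by exact_mod_cast hN
  have hN0 : (0 : ℝ) < N := by linarith
  have hB : (∑ k, WB k * cB k) - (2571353 / 6000000) = (55730048116853 / 120000000000000) := by
    simp only [Fin.sum_univ_eight, WB, cB, Matrix.cons_val]; norm_num
  have hC : (∑ k, WB k) - (2571353 / 6000000) = (25623139 / 3000000) := by
    simp only [Fin.sum_univ_eight, WB, Matrix.cons_val]; norm_num
  rw [hB, hC] at h
  have h3 : 0 ≤ (55730048116853 / 120000000000000) * (N : ℝ) ^ 2 - (25623139 / 3000000) * N := by nlinarith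
  have h4 := nonneg_of_mul_nonneg_right (h3.trans h) (by positivity)
  linarith

/-! ### Data set `C`: `a = 679/1000`, `κ = 2 a² = 461041/500000` -/

noncomputable def WC : Fin 8 → ℝ := ![(105912569 / 750000000), (2126077 / 7500000), (3542077 / 7500000), (36705039 / 50000000), (50728839 / 50000000), (105306047 / 75000000), (283009871 / 150000000), (15554377 / 6000000)]
noncomputable def tC : Fin 8 → ℝ := ![(157 / 200), (149 / 125), (1661 / 1000), (557 / 250), (579 / 200), (3671 / 1000), (4583 / 1000), (5669 / 1000)]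
noncomputable def cC : Fin 8 → ℝ := ![(1376307 / 4000000), (3136653 / 12500000), (953433 / 5000000), (36909 / 250000), (91057 / 781250), (187187 / 2000000), (37981 / 500000), (24222 / 390625)]

lemma pointwiseC {r : ℝ} (hr : 0 < r) :
    (∑ k, WC k * rexp (-(tC k * r ^ 2))) - (313046839 / 750000000)
      ≤ √π / 2 * (1 / r ^ 3 - (461041 / 500000) * (1 / r)) := by
  have hI := rep_integrableOn (461041 / 500000) hr
  have hy : 0 ≤ r ^ 2 := by positivity
  rw [← rep_integral (461041 / 500000) hr]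
  rw [split_step (a := 0) (b := (679 / 1000)) (by norm_num) (by norm_num) hI]
  rw [split_step (a := (679 / 1000)) (b := (49 / 50)) (by norm_num) (by norm_num) hI]
  rw [split_step (a := (49 / 50)) (b := (59 / 50)) (by norm_num) (by norm_num) hI]
  rw [split_step (a := (59 / 50)) (b := (69 / 50)) (by norm_num) (by norm_num) hI]
  rw [split_step (a := (69 / 50)) (b := (159 / 100)) (by norm_num) (by norm_num) hI]
  rw [split_step (a := (159 / 100)) (b := (9 / 5)) (by norm_num) (by norm_num) hI]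
  rw [split_step (a := (9 / 5)) (b := (101 / 50)) (by norm_num) (by norm_num) hI]
  rw [split_step (a := (101 / 50)) (b := (9 / 4)) (by norm_num) (by norm_num) hI]
  rw [split_step (a := (9 / 4)) (b := (5 / 2)) (by norm_num) (by norm_num) hI]
  have n0 := neg_interval (κ := (461041 / 500000)) (a := (679 / 1000)) (y := r ^ 2) (by norm_num) (by norm_num) hy
  have j0 := jensen_interval (κ := (461041 / 500000)) (α := (679 / 1000)) (β := (49 / 50)) (y := r ^ 2) (t := (157 / 200))
    (by norm_num) (by norm_num) (by norm_num) hy (by norm_num)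
  have j1 := jensen_interval (κ := (461041 / 500000)) (α := (49 / 50)) (β := (59 / 50)) (y := r ^ 2) (t := (149 / 125))
    (by norm_num) (by norm_num) (by norm_num) hy (by norm_num)
  have j2 := jensen_interval (κ := (461041 / 500000)) (α := (59 / 50)) (β := (69 / 50)) (y := r ^ 2) (t := (1661 / 1000))
    (by norm_num) (by norm_num) (by norm_num) hy (by norm_num)
  have j3 := jensen_interval (κ := (461041 / 500000)) (α := (69 / 50)) (β := (159 / 100)) (y := r ^ 2) (t := (557 / 250))
    (by norm_num) (by norm_num) (by norm_num) hy (by norm_num)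
  have j4 := jensen_interval (κ := (461041 / 500000)) (α := (159 / 100)) (β := (9 / 5)) (y := r ^ 2) (t := (579 / 200))
    (by norm_num) (by norm_num) (by norm_num) hy (by norm_num)
  have j5 := jensen_interval (κ := (461041 / 500000)) (α := (9 / 5)) (β := (101 / 50)) (y := r ^ 2) (t := (3671 / 1000))
    (by norm_num) (by norm_num) (by norm_num) hy (by norm_num)
  have j6 := jensen_interval (κ := (461041 / 500000)) (α := (101 / 50)) (β := (9 / 4)) (y := r ^ 2) (t := (4583 / 1000))
    (by norm_num) (by norm_num) (by norm_num) hy (by norm_num)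
  have j7 := jensen_interval (κ := (461041 / 500000)) (α := (9 / 4)) (β := (5 / 2)) (y := r ^ 2) (t := (5669 / 1000))
    (by norm_num) (by norm_num) (by norm_num) hy (by norm_num)
  have tl := tail_nonneg (κ := (461041 / 500000)) (b := (5 / 2)) (y := r ^ 2) (by norm_num) (by norm_num)
  simp only [Fin.sum_univ_eight, WC, tC, Matrix.cons_val]
  norm_num at *
  linarith

lemma exp_bdC0 : (4933 / 10000) ≤ rexp (-(1413 / 2000)) := by
  have h := Real.exp_bound (x := -(1413 / 4000)) (by norm_num [abs_le]) (n := 8) (by norm_num)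
  have h2 : rexp (-(1413 / 2000)) = rexp (-(1413 / 4000)) ^ 2 := by
    rw [← Real.exp_nat_mul]; congr 1; norm_num
  rw [h2]
  have h3 : (702401 / 1000000) ≤ rexp (-(1413 / 4000)) := by
    rw [abs_le] at h
    have := h.1
    norm_num [Finset.sum_range_succ, Nat.factorial] at this
    norm_num at *
    linarith
  nlinarith

lemma exp_bdC1 : (2223 / 5000) ≤ rexp (-(2533 / 3125)) := by
  have h := Real.exp_bound (x := -(2533 / 6250)) (by norm_num [abs_le]) (n := 8) (by norm_num)
  have h2 : rexp (-(2533 / 3125)) = rexp (-(2533 / 6250)) ^ 2 := by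
    rw [← Real.exp_nat_mul]; congr 1; norm_num
  rw [h2]
  have h3 : (666789 / 1000000) ≤ rexp (-(2533 / 6250)) := by
    rw [abs_le] at h
    have := h.1
    norm_num [Finset.sum_range_succ, Nat.factorial] at this
    norm_num at *
    linarith
  nlinarith

lemma exp_bdC2 : (843 / 2000) ≤ rexp (-(21593 / 25000)) := by
  have h := Real.exp_bound (x := -(21593 / 50000)) (by norm_num [abs_le]) (n := 8) (by norm_num)
  have h2 : rexp (-(21593 / 25000)) = rexp (-(21593 / 50000)) ^ 2 := by
    rw [← Real.exp_nat_mul]; congr 1; norm_num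
  rw [h2]
  have h3 : (649299 / 1000000) ≤ rexp (-(21593 / 50000)) := by
    rw [abs_le] at h
    have := h.1
    norm_num [Finset.sum_range_succ, Nat.factorial] at this
    norm_num at *
    linarith
  nlinarith

lemma exp_bdC3 : (4101 / 10000) ≤ rexp (-(557 / 625)) := by
  have h := Real.exp_bound (x := -(557 / 1250)) (by norm_num [abs_le]) (n := 8) (by norm_num)
  have h2 : rexp (-(557 / 625)) = rexp (-(557 / 1250)) ^ 2 := by
    rw [← Real.exp_nat_mul]; congr 1; norm_num
  rw [h2]
  have h3 : (640439 / 1000000) ≤ rexp (-(557 / 1250)) := by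
    rw [abs_le] at h
    have := h.1
    norm_num [Finset.sum_range_succ, Nat.factorial] at this
    norm_num at *
    linarith
  nlinarith

lemma exp_bdC4 : (3959 / 10000) ≤ rexp (-(579 / 625)) := by
  have h := Real.exp_bound (x := -(579 / 1250)) (by norm_num [abs_le]) (n := 8) (by norm_num)
  have h2 : rexp (-(579 / 625)) = rexp (-(579 / 1250)) ^ 2 := by
    rw [← Real.exp_nat_mul]; congr 1; norm_num
  rw [h2]
  have h3 : (314633 / 500000) ≤ rexp (-(579 / 1250)) := by
    rw [abs_le] at h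
    have := h.1
    norm_num [Finset.sum_range_succ, Nat.factorial] at this
    norm_num at *
    linarith
  nlinarith

lemma exp_bdC5 : (77 / 200) ≤ rexp (-(47723 / 50000)) := by
  have h := Real.exp_bound (x := -(47723 / 100000)) (by norm_num [abs_le]) (n := 8) (by norm_num)
  have h2 : rexp (-(47723 / 50000)) = rexp (-(47723 / 100000)) ^ 2 := by
    rw [← Real.exp_nat_mul]; congr 1; norm_num
  rw [h2]
  have h3 : (620499 / 1000000) ≤ rexp (-(47723 / 100000)) := by
    rw [abs_le] at h
    have := h.1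
    norm_num [Finset.sum_range_succ, Nat.factorial] at this
    norm_num at *
    linarith
  nlinarith

lemma exp_bdC6 : (1999 / 5000) ≤ rexp (-(4583 / 5000)) := by
  have h := Real.exp_bound (x := -(4583 / 10000)) (by norm_num [abs_le]) (n := 8) (by norm_num)
  have h2 : rexp (-(4583 / 5000)) = rexp (-(4583 / 10000)) ^ 2 := by
    rw [← Real.exp_nat_mul]; congr 1; norm_num
  rw [h2]
  have h3 : (632357 / 1000000) ≤ rexp (-(4583 / 10000)) := by
    rw [abs_le] at h
    have := h.1
    norm_num [Finset.sum_range_succ, Nat.factorial] at this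
    norm_num at *
    linarith
  nlinarith

lemma exp_bdC7 : (4037 / 10000) ≤ rexp (-(5669 / 6250)) := by
  have h := Real.exp_bound (x := -(5669 / 12500)) (by norm_num [abs_le]) (n := 8) (by norm_num)
  have h2 : rexp (-(5669 / 6250)) = rexp (-(5669 / 12500)) ^ 2 := by
    rw [← Real.exp_nat_mul]; congr 1; norm_num
  rw [h2]
  have h3 : (635387 / 1000000) ≤ rexp (-(5669 / 12500)) := by
    rw [abs_le] at h
    have := h.1
    norm_num [Finset.sum_range_succ, Nat.factorial] at this
    norm_num at *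
    linarith
  nlinarith

lemma thetaC {N : ℕ} (p : Fin N → ℂ) (hp : ∑ i, ‖p i‖ ^ 2 = N) (k : Fin 8) :
    cC k * (N : ℝ) ^ 2 ≤ ∑ i, ∑ j, rexp (-(tC k * ‖p i - p j‖ ^ 2)) := by
  have h0 : (0 : ℝ) ≤ (N : ℝ) ^ 2 := by positivity
  fin_cases k
  · refine le_trans ?_ (theta_bound p hp (t := (157 / 200)) (u := (11 / 20)) (by norm_num) (by norm_num) (by norm_num))
    have h := exp_bdC0
    have e : (2 * (157 / 200) * (1 - (11 / 20)) : ℝ) = (1413 / 2000) := by norm_num
    rw [e]
    apply mul_le_mul_of_nonneg_right _ h0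
    change (1376307 / 4000000) ≤ _
    nlinarith
  · refine le_trans ?_ (theta_bound p hp (t := (149 / 125)) (u := (33 / 50)) (by norm_num) (by norm_num) (by norm_num))
    have h := exp_bdC1
    have e : (2 * (149 / 125) * (1 - (33 / 50)) : ℝ) = (2533 / 3125) := by norm_num
    rw [e]
    apply mul_le_mul_of_nonneg_right _ h0
    change (3136653 / 12500000) ≤ _
    nlinarith
  · refine le_trans ?_ (theta_bound p hp (t := (1661 / 1000)) (u := (37 / 50)) (by norm_num) (by norm_num) (by norm_num))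
    have h := exp_bdC2
    have e : (2 * (1661 / 1000) * (1 - (37 / 50)) : ℝ) = (21593 / 25000) := by norm_num
    rw [e]
    apply mul_le_mul_of_nonneg_right _ h0
    change (953433 / 5000000) ≤ _
    nlinarith
  · refine le_trans ?_ (theta_bound p hp (t := (557 / 250)) (u := (4 / 5)) (by norm_num) (by norm_num) (by norm_num))
    have h := exp_bdC3
    have e : (2 * (557 / 250) * (1 - (4 / 5)) : ℝ) = (557 / 625) := by norm_num
    rw [e]
    apply mul_le_mul_of_nonneg_right _ h0
    change (36909 / 250000) ≤ _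
    nlinarith
  · refine le_trans ?_ (theta_bound p hp (t := (579 / 200)) (u := (21 / 25)) (by norm_num) (by norm_num) (by norm_num))
    have h := exp_bdC4
    have e : (2 * (579 / 200) * (1 - (21 / 25)) : ℝ) = (579 / 625) := by norm_num
    rw [e]
    apply mul_le_mul_of_nonneg_right _ h0
    change (91057 / 781250) ≤ _
    nlinarith
  · refine le_trans ?_ (theta_bound p hp (t := (3671 / 1000)) (u := (87 / 100)) (by norm_num) (by norm_num) (by norm_num))
    have h := exp_bdC5
    have e : (2 * (3671 / 1000) * (1 - (87 / 100)) : ℝ) = (47723 / 50000) := by norm_num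
    rw [e]
    apply mul_le_mul_of_nonneg_right _ h0
    change (187187 / 2000000) ≤ _
    nlinarith
  · refine le_trans ?_ (theta_bound p hp (t := (4583 / 1000)) (u := (9 / 10)) (by norm_num) (by norm_num) (by norm_num))
    have h := exp_bdC6
    have e : (2 * (4583 / 1000) * (1 - (9 / 10)) : ℝ) = (4583 / 5000) := by norm_num
    rw [e]
    apply mul_le_mul_of_nonneg_right _ h0
    change (37981 / 500000) ≤ _
    nlinarith
  · refine le_trans ?_ (theta_bound p hp (t := (5669 / 1000)) (u := (23 / 25)) (by norm_num) (by norm_num) (by norm_num))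
    have h := exp_bdC7
    have e : (2 * (5669 / 1000) * (1 - (23 / 25)) : ℝ) = (5669 / 6250) := by norm_num
    rw [e]
    apply mul_le_mul_of_nonneg_right _ h0
    change (24222 / 390625) ≤ _
    nlinarith

lemma scaledC {N : ℕ} (hN : 18 ≤ N) (p : Fin N → ℂ) (hinj : Function.Injective p)
    (hp : ∑ i, ‖p i‖ ^ 2 = N) :
    (461041 / 500000) * (∑ i, ∑ j ∈ Finset.univ.erase i, 1 / ‖p i - p j‖)
      ≤ ∑ i, ∑ j ∈ Finset.univ.erase i, 1 / ‖p i - p j‖ ^ 3 := by
  have h := sum_ineq WC tC cC (313046839 / 750000000) (461041 / 500000) (√π / 2) p hinj (fun r hr => pointwiseC hr)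
    (by intro k; fin_cases k <;> norm_num [WC]) (fun k => thetaC p hp k)
  have hN' : (18 : ℝ) ≤ N := by exact_mod_cast hN
  have hN0 : (0 : ℝ) < N := by linarith
  have hB : (∑ k, WC k * cC k) - (313046839 / 750000000) = (2272492777663569 / 5000000000000000) := by
    simp only [Fin.sum_univ_eight, WC, cC, Matrix.cons_val]; norm_num
  have hC : (∑ k, WC k) - (313046839 / 750000000) = (4866877 / 600000) := by
    simp only [Fin.sum_univ_eight, WC, Matrix.cons_val]; norm_num
  rw [hB, hC] at h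
  have h3 : 0 ≤ (2272492777663569 / 5000000000000000) * (N : ℝ) ^ 2 - (4866877 / 600000) * N := by nlinarith
  have h4 := nonneg_of_mul_nonneg_right (h3.trans h) (by positivity)
  linarith

end Pool.Agent.RelEq624
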