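import Mathlib

/-!
# Relative equilibria of the planar Newtonian `N`-body problem: definitions

The plane is `ℂ`, the masses are `m : Fin N → ℝ`, a configuration is `q : Fin N → ℂ`.
-/

set_option autoImplicit false

namespace Pool.Agent.RelEq624

open Complex

/-- Newtonian acceleration of body `j` in the configuration `q` of bodies with masses `m`
(gravitational constant 1): `∑_{k ≠ j} m_k (q_k - q_j) / |q_k - q_j|³`. -/
noncomputable def accel {N : ℕ} (m : Fin N → ℝ) (q : Fin N → ℂ) (j : Fin N) : ℂ :=
  ∑ k ∈ Finset.univ.erase j, ((m k / ‖q k - q j‖ ^ 3 : ℝ) : ℂ) * (q k - q j)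

/-- `x`, a curve of configurations defined for all times, solves Newton's equations
`x_j'' = accel m x j` (`v` is its velocity). -/
def IsMotion {N : ℕ} (m : Fin N → ℝ) (x : ℝ → Fin N → ℂ) : Prop :=
  ∃ v : ℝ → Fin N → ℂ, ∀ t j,
    HasDerivAt (fun s => x s j) (v t j) t ∧ HasDerivAt (fun s => v s j) (accel m (x t) j) t

/-- `t ↦ e^{iωt} q` is a relative equilibrium: `ω ≠ 0`, the configuration `q` is collision-free,
and the uniformly rotating curve solves Newton's equations. -/
def IsRelEq {N : ℕ} (m : Fin N → ℝ) (ω : ℝ) (q : Fin N → ℂ) : Prop :=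
  ω ≠ 0 ∧ Function.Injective q ∧ IsMotion m (fun t j => Complex.exp (Complex.I * ω * t) * q j)

/-- The first-order equations of motion in coordinates rotating with angular velocity `ω`.
With `x_j = e^{iωt} z_j` and `w = z'`, Newton's equations read
`z' = w`, `w_j' = accel m z j + ω² z_j - 2iω w_j` (see `isMotion_of_rotField` below). The phase
space `(Fin N → ℂ) × (Fin N → ℂ)` has real dimension `4N`; a relative equilibrium `q` is the
equilibrium point `(q, 0)`. -/
noncomputable def rotField {N : ℕ} (m : Fin N → ℝ) (ω : ℝ) (s : (Fin N → ℂ) × (Fin N → ℂ)) :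
    (Fin N → ℂ) × (Fin N → ℂ) :=
  (s.2, fun j => accel m s.1 j + (ω : ℂ) ^ 2 * s.1 j - 2 * Complex.I * ω * s.2 j)

/-- Spectral stability: every eigenvalue, that is every complex root of the characteristic
polynomial of the (real-linear) linearisation `fderiv ℝ (rotField m ω) (q, 0)` of the equations of
motion at the equilibrium `(q, 0)`, has zero real part. -/
def SpectrallyStable {N : ℕ} (m : Fin N → ℝ) (ω : ℝ) (q : Fin N → ℂ) : Prop :=
  ∀ s : ℂ, Polynomial.aeval s
    (LinearMap.charpoly (fderiv ℝ (rotField m ω) (q, 0)).toLinearMap) = 0 → s.re = 0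

/-! ### Sanity check: `rotField` is Newton's equation in the rotating frame -/

lemma accel_rot {N : ℕ} (m : Fin N → ℝ) (z : Fin N → ℂ) (c : ℂ) (hc : ‖c‖ = 1) (j : Fin N) :
    accel m (fun k => c * z k) j = c * accel m z j := by
  unfold accel
  rw [Finset.mul_sum]
  refine Finset.sum_congr rfl fun k _ => ?_
  rw [← mul_sub, norm_mul, hc, one_mul]
  ring

/-- If `(z, w)` solves the autonomous system `s' = rotField m ω s`, then `x(t) = e^{iωt} z(t)`
solves Newton's equations; so `rotField m ω` is the vector field of the `N`-body problem in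
coordinates rotating with angular velocity `ω`. -/
theorem isMotion_of_rotField {N : ℕ} {m : Fin N → ℝ} {ω : ℝ} {z w : ℝ → Fin N → ℂ}
    (h : ∀ t, HasDerivAt (fun s => (z s, w s)) (rotField m ω (z t, w t)) t) :
    IsMotion m (fun t j => Complex.exp (Complex.I * ω * t) * z t j) := by
  refine ⟨fun t j => Complex.exp (Complex.I * ω * t) * (w t j + Complex.I * ω * z t j), fun t j => ?_⟩
  have h0 := h t
  have hz : HasDerivAt (fun s => z s j) (w t j) t := by
    have h1 : HasDerivAt (fun s => z s) (w t) t := h0.fst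
    exact (hasDerivAt_pi.mp h1) j
  have hw : HasDerivAt (fun s => w s j)
      (accel m (z t) j + (ω : ℂ) ^ 2 * z t j - 2 * Complex.I * ω * w t j) t := by
    have h1 : HasDerivAt (fun s => w s) (fun j => accel m (z t) j + (ω : ℂ) ^ 2 * z t j
      - 2 * Complex.I * ω * w t j) t := h0.snd
    exact (hasDerivAt_pi.mp h1) j
  have he : HasDerivAt (fun s : ℝ => Complex.exp (Complex.I * ω * s))
      (Complex.exp (Complex.I * ω * t) * (Complex.I * ω)) t := by
    have h1 : HasDerivAt (fun s : ℝ => Complex.I * ω * (s : ℂ)) (Complex.I * ω) t := by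
      simpa using (Complex.ofRealCLM.hasDerivAt (x := t)).const_mul (Complex.I * ω)
    exact h1.cexp
  have hn : ‖Complex.exp (Complex.I * ω * t)‖ = 1 := by
    have : Complex.I * (ω : ℂ) * (t : ℂ) = ((ω * t : ℝ) : ℂ) * Complex.I := by push_cast; ring
    rw [this, Complex.norm_exp_ofReal_mul_I]
  constructor
  · refine (he.mul hz).congr_deriv ?_
    ring
  · refine (he.mul (hw.add (hz.const_mul (Complex.I * ω)))).congr_deriv ?_
    rw [accel_rot m (z t) _ hn j]
    simp only [Pi.add_apply]
    linear_combination (Complex.exp (Complex.I * ω * t) * (ω : ℂ) ^ 2 * z t j) * Complex.I_sq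

end Pool.Agent.RelEq624
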