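import Mathlib
import Pool.Agent.RelEq624.Defs
import Pool.Agent.RelEq624.Analysis

/-!
# Spectral stability forces `∑_j ∑_{k≠j} m_k / r³ ≤ (2N-3) ω²`; masses close to equal are excluded
-/

set_option autoImplicit false

namespace Pool.Agent.RelEq624


open Matrix Complex



lemma isRoot_charpoly_iff {n : Type*} [Fintype n] [DecidableEq n] (A : Matrix n n ℂ) (s : ℂ) :
    A.charpoly.IsRoot s ↔ (scalar n s - A).det = 0 := by
  rw [Polynomial.IsRoot.def, Matrix.eval_charpoly]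

lemma isRoot_charpoly_iff' {n : Type*} [Fintype n] [DecidableEq n] (A : Matrix n n ℂ) (s : ℂ) :
    A.charpoly.IsRoot s ↔ ∃ v : n → ℂ, v ≠ 0 ∧ A *ᵥ v = s • v := by
  rw [isRoot_charpoly_iff, ← Matrix.exists_mulVec_eq_zero_iff]
  refine exists_congr fun v => and_congr_right fun _ => ?_
  rw [Matrix.sub_mulVec, sub_eq_zero]
  have : (scalar n s) *ᵥ v = s • v := by
    ext i; simp [Matrix.scalar_apply, Matrix.mulVec_diagonal]
  constructor
  · intro h; rw [← h]; exact this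
  · intro h; rw [h]; exact this

/-- a complex matrix all of whose eigenvalues are purely imaginary has `Re tr(A²) ≤ 0`. -/
lemma matrix_trace_sq_le {n : Type*} [Fintype n] [DecidableEq n] (A : Matrix n n ℂ)
    (h : ∀ s : ℂ, A.charpoly.IsRoot s → s.re = 0) : (A * A).trace.re ≤ 0 := by
  rw [Matrix.trace_eq_sum_roots_charpoly]
  have key : ∀ μ ∈ (A * A).charpoly.roots, μ.re ≤ 0 := by
    intro μ hμ
    have hμ' : (A * A).charpoly.IsRoot μ := (Polynomial.mem_roots'.mp hμ).2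
    rw [isRoot_charpoly_iff] at hμ'
    obtain ⟨s, hs⟩ := IsAlgClosed.exists_pow_nat_eq μ (n := 2) (by norm_num)
    have e : scalar n μ - A * A = (scalar n s - A) * (scalar n s + A) := by
      have hc : Commute (scalar n s) A := Matrix.scalar_commute s (fun r => mul_comm s r) A
      have : scalar n μ = scalar n s * scalar n s := by
        rw [← map_mul, ← hs, sq]
      rw [this, sub_mul, mul_add, mul_add, hc.eq]
      abel
    rw [e, Matrix.det_mul, mul_eq_zero] at hμ'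
    have hre : s.re = 0 := by
      rcases hμ' with h1 | h1
      · exact h s ((isRoot_charpoly_iff A s).2 h1)
      · have h2 : (scalar n (-s) - A).det = 0 := by
          have : scalar n (-s) - A = -(scalar n s + A) := by
            rw [map_neg]; abel
          rw [this, Matrix.det_neg, h1, mul_zero]
        have := h (-s) ((isRoot_charpoly_iff A (-s)).2 h2)
        simpa using this
    rw [← hs, sq, Complex.mul_re, hre]
    nlinarith [mul_self_nonneg s.im]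
  have : ∀ S : Multiset ℂ, (∀ μ ∈ S, μ.re ≤ 0) → S.sum.re ≤ 0 := by
    intro S
    induction S using Multiset.induction_on with
    | empty => intro _; simp
    | cons a S ih =>
      intro hS
      rw [Multiset.sum_cons, Complex.add_re]
      have h1 := hS a (Multiset.mem_cons_self a S)
      have h2 := ih fun μ hμ => hS μ (Multiset.mem_cons_of_mem hμ)
      linarith
  exact this _ key


/-- **Deflation lemma.** `L : V → V`, `P : V → V'` with `P L = L' P` and `P σ = 1`.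
If all eigenvalues of `L` are purely imaginary then `tr (L²) ≤ tr (L'²)`. -/
lemma deflation {V V' : Type*} [AddCommGroup V] [Module ℝ V] [FiniteDimensional ℝ V]
    [AddCommGroup V'] [Module ℝ V'] [FiniteDimensional ℝ V']
    (L : V →ₗ[ℝ] V) (L' : V' →ₗ[ℝ] V') (P : V →ₗ[ℝ] V') (σ : V' →ₗ[ℝ] V)
    (hσ : P ∘ₗ σ = LinearMap.id) (hP : P ∘ₗ L = L' ∘ₗ P)
    (h : ∀ s : ℂ, Polynomial.aeval s L.charpoly = 0 → s.re = 0) :
    LinearMap.trace ℝ V (L ∘ₗ L) ≤ LinearMap.trace ℝ V' (L' ∘ₗ L') := by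
  classical
  set b := Module.finBasis ℝ V with hb
  set S : V →ₗ[ℝ] V := σ ∘ₗ P with hS
  set T : V →ₗ[ℝ] V := L ∘ₗ (LinearMap.id - S) with hT
  have hPS : ∀ v, P (σ v) = v := fun v => by
    have := congrArg (fun f => f v) hσ
    simpa using this
  have hPL : ∀ v, P (L v) = L' (P v) := fun v => by
    have := congrArg (fun f => f v) hP
    simpa using this
  have hST : S ∘ₗ T = 0 := by
    ext v
    simp [hS, hT, hPL, hPS]
  -- matrices
  let toC : Matrix (Fin (Module.finrank ℝ V)) (Fin (Module.finrank ℝ V)) ℝ →+*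
      Matrix (Fin (Module.finrank ℝ V)) (Fin (Module.finrank ℝ V)) ℂ :=
    (algebraMap ℝ ℂ).mapMatrix
  let mat : (V →ₗ[ℝ] V) → Matrix (Fin (Module.finrank ℝ V)) (Fin (Module.finrank ℝ V)) ℝ :=
    fun f => LinearMap.toMatrix b b f
  have mat_comp : ∀ f g : V →ₗ[ℝ] V, mat (f ∘ₗ g) = mat f * mat g := fun f g =>
    LinearMap.toMatrix_comp b b b f g
  have hroot : ∀ (f : V →ₗ[ℝ] V) (s : ℂ), (toC (mat f)).charpoly.IsRoot s ↔
      Polynomial.aeval s f.charpoly = 0 := by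
    intro f s
    have e1 : (toC (mat f)).charpoly = f.charpoly.map (algebraMap ℝ ℂ) := by
      rw [← LinearMap.charpoly_toMatrix f b]
      exact (Matrix.charpoly_map (mat f) (algebraMap ℝ ℂ))
    rw [e1, Polynomial.IsRoot.def, Polynomial.eval_map_algebraMap]
  have hTroot : ∀ s : ℂ, (toC (mat T)).charpoly.IsRoot s → s.re = 0 := by
    intro s hs
    by_cases hs0 : s = 0
    · simp [hs0]
    rw [isRoot_charpoly_iff'] at hs
    obtain ⟨v, hv0, hv⟩ := hs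
    have h1 : toC (mat S) *ᵥ v = 0 := by
      have h2 : toC (mat S) *ᵥ (toC (mat T) *ᵥ v) = 0 := by
        rw [Matrix.mulVec_mulVec, ← map_mul, ← mat_comp, hST]
        simp [mat]
      rw [hv, Matrix.mulVec_smul] at h2
      exact (smul_eq_zero.mp h2).resolve_left hs0
    have h3 : toC (mat L) *ᵥ v = s • v := by
      rw [← hv]
      have e : mat T = mat L * (1 - mat S) := by
        rw [hT, mat_comp]
        congr 1
        simp [mat]
      rw [e, map_mul, map_sub, map_one, ← Matrix.mulVec_mulVec, Matrix.sub_mulVec, Matrix.one_mulVec,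
        h1, sub_zero]
    exact h s ((hroot L s).1 ((isRoot_charpoly_iff' _ _).2 ⟨v, hv0, h3⟩))
  have h4 := matrix_trace_sq_le _ hTroot
  have h5 : (toC (mat T) * toC (mat T)).trace = ((LinearMap.trace ℝ V (T ∘ₗ T) : ℝ) : ℂ) := by
    rw [← map_mul, ← mat_comp, LinearMap.trace_eq_matrix_trace ℝ b]
    simp only [toC, RingHom.mapMatrix_apply, mat]
    simp [Matrix.trace]
  rw [h5, Complex.ofReal_re] at h4
  have h6 : T ∘ₗ T = L ∘ₗ L - (L ∘ₗ L ∘ₗ σ) ∘ₗ P := by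
    ext v
    have h7 : S (T v) = 0 := by
      have := congrArg (fun f => f v) hST
      simpa using this
    have hTa : ∀ w, T w = L (w - S w) := fun w => by simp [hT]
    have h8 : T (T v) = L (T v) := by
      rw [hTa (T v), h7, sub_zero]
    simp only [LinearMap.comp_apply, LinearMap.sub_apply]
    rw [h8, hTa, hS]
    simp
  have h9 : LinearMap.trace ℝ V ((L ∘ₗ L ∘ₗ σ) ∘ₗ P) = LinearMap.trace ℝ V' (L' ∘ₗ L') := by
    rw [LinearMap.trace_comp_comm']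
    congr 1
    ext v
    simp [hPL, hPS]
  rw [h6, map_sub, h9] at h4
  linarith

/-- trace on a product -/
lemma trace_prod {V : Type*} [AddCommGroup V] [Module ℝ V] [FiniteDimensional ℝ V]
    (T : V × V →ₗ[ℝ] V × V) :
    LinearMap.trace ℝ (V × V) T
      = LinearMap.trace ℝ V (LinearMap.fst ℝ V V ∘ₗ T ∘ₗ LinearMap.inl ℝ V V)
        + LinearMap.trace ℝ V (LinearMap.snd ℝ V V ∘ₗ T ∘ₗ LinearMap.inr ℝ V V) := by
  have e : T = (T ∘ₗ LinearMap.inl ℝ V V) ∘ₗ LinearMap.fst ℝ V V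
      + (T ∘ₗ LinearMap.inr ℝ V V) ∘ₗ LinearMap.snd ℝ V V := by
    apply LinearMap.ext
    rintro ⟨z, w⟩
    have : ((z, w) : V × V) = (z, 0) + (0, w) := by simp
    conv_lhs => rw [this, map_add]
    simp
  conv_lhs => rw [e]
  rw [map_add, LinearMap.trace_comp_comm', LinearMap.trace_comp_comm' (LinearMap.snd ℝ V V)]

/-- the second-order block operator `(z,w) ↦ (w, A z + B w)` -/
def blk {V : Type*} [AddCommGroup V] [Module ℝ V] (A B : V →ₗ[ℝ] V) : V × V →ₗ[ℝ] V × V :=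
  LinearMap.prod (LinearMap.snd ℝ V V) (A ∘ₗ LinearMap.fst ℝ V V + B ∘ₗ LinearMap.snd ℝ V V)

lemma trace_blk_sq {V : Type*} [AddCommGroup V] [Module ℝ V] [FiniteDimensional ℝ V]
    (A B : V →ₗ[ℝ] V) :
    LinearMap.trace ℝ (V × V) (blk A B ∘ₗ blk A B)
      = 2 * LinearMap.trace ℝ V A + LinearMap.trace ℝ V (B ∘ₗ B) := by
  rw [trace_prod]
  have e1 : LinearMap.fst ℝ V V ∘ₗ (blk A B ∘ₗ blk A B) ∘ₗ LinearMap.inl ℝ V V = A := by
    ext v; simp [blk]
  have e2 : LinearMap.snd ℝ V V ∘ₗ (blk A B ∘ₗ blk A B) ∘ₗ LinearMap.inr ℝ V V = A + B ∘ₗ B := by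
    ext v; simp [blk]
  rw [e1, e2, map_add]
  ring

lemma trace_complex (f : ℂ →ₗ[ℝ] ℂ) : LinearMap.trace ℝ ℂ f = (f 1).re + (f Complex.I).im := by
  rw [LinearMap.trace_eq_matrix_trace ℝ Complex.basisOneI, Matrix.trace, Fin.sum_univ_two]
  simp [LinearMap.toMatrix_apply]

lemma trace_pi {N : ℕ} (T : (Fin N → ℂ) →ₗ[ℝ] (Fin N → ℂ)) :
    LinearMap.trace ℝ (Fin N → ℂ) T
      = ∑ j, LinearMap.trace ℝ ℂ (LinearMap.proj j ∘ₗ T ∘ₗ LinearMap.single ℝ (fun _ => ℂ) j) := by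
  have e : T = ∑ j, (T ∘ₗ LinearMap.single ℝ (fun _ => ℂ) j) ∘ₗ LinearMap.proj j := by
    apply LinearMap.ext
    intro v
    simp only [LinearMap.sum_apply, LinearMap.comp_apply, LinearMap.proj_apply]
    rw [← map_sum]
    congr 1
    ext i
    simp [Finset.sum_apply, Pi.single_apply]
  conv_lhs => rw [e]
  rw [map_sum]
  refine Finset.sum_congr rfl fun j _ => ?_
  rw [LinearMap.trace_comp_comm']

/-- derivative of `u ↦ u/‖u‖³` -/
noncomputable def Dg (u : ℂ) : ℂ →L[ℝ] ℂ :=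
  (1 / ‖u‖ ^ 3) • ContinuousLinearMap.id ℝ ℂ
    - (3 / ‖u‖ ^ 5) • (innerSL ℝ u).smulRight u

lemma Dg_apply (u v : ℂ) : Dg u v = ((1 / ‖u‖ ^ 3 : ℝ) : ℂ) * v
    - ((3 * (starRingEnd ℂ u * v).re / ‖u‖ ^ 5 : ℝ) : ℂ) * u := by
  simp [Dg, Complex.inner]
  ring

lemma hasFDerivAt_g {u : ℂ} (hu : u ≠ 0) :
    HasFDerivAt (fun v : ℂ => ((1 / ‖v‖ ^ 3 : ℝ)) • v) (Dg u) u := by
  have hn : 0 < ‖u‖ := norm_pos_iff.mpr hu
  have h1 : HasFDerivAt (fun v : ℂ => ‖v‖ ^ 2) (2 • (innerSL ℝ u)) u :=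
    (hasStrictFDerivAt_norm_sq u).hasFDerivAt
  have h2 : HasDerivAt (fun s : ℝ => s ^ (-(3 / 2) : ℝ)) (-(3 / 2) * (‖u‖ ^ 2) ^ (-(3 / 2) - 1 : ℝ)) (‖u‖ ^ 2) :=
    Real.hasDerivAt_rpow_const (Or.inl (by positivity))
  have h3 := h2.comp_hasFDerivAt u h1
  have e1 : ∀ v : ℂ, (‖v‖ ^ 2 : ℝ) ^ (-(3 / 2) : ℝ) = 1 / ‖v‖ ^ 3 := by
    intro v
    rw [← Real.rpow_natCast ‖v‖ 2, ← Real.rpow_mul (norm_nonneg v)]
    have : ((2 : ℕ) : ℝ) * (-(3 / 2)) = -((3 : ℕ) : ℝ) := by norm_num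
    rw [this, Real.rpow_neg (norm_nonneg v), Real.rpow_natCast, one_div]
  have e2 : (‖u‖ ^ 2 : ℝ) ^ (-(3 / 2) - 1 : ℝ) = 1 / ‖u‖ ^ 5 := by
    rw [← Real.rpow_natCast ‖u‖ 2, ← Real.rpow_mul (norm_nonneg u)]
    have : ((2 : ℕ) : ℝ) * (-(3 / 2) - 1) = -((5 : ℕ) : ℝ) := by norm_num
    rw [this, Real.rpow_neg (norm_nonneg u), Real.rpow_natCast, one_div]
  have h4 : HasFDerivAt (fun v : ℂ => 1 / ‖v‖ ^ 3) ((-(3 / 2) * (1 / ‖u‖ ^ 5)) • (2 • (innerSL ℝ u))) u := by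
    rw [← e2]
    refine h3.congr_of_eventuallyEq ?_
    filter_upwards with v
    simp only [Function.comp]
    rw [e1]
  have h5 := h4.smul (hasFDerivAt_id u)
  refine h5.congr_fderiv ?_
  ext v <;> simp [Dg] <;> ring

/-- coordinate projection -/
noncomputable def prj {N : ℕ} (k : Fin N) : (Fin N → ℂ) →L[ℝ] ℂ := ContinuousLinearMap.proj k

@[simp] lemma prj_apply {N : ℕ} (k : Fin N) (z : Fin N → ℂ) : prj k z = z k := rfl

/-- derivative of the acceleration -/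
noncomputable def DA {N : ℕ} (m : Fin N → ℝ) (q : Fin N → ℂ) : (Fin N → ℂ) →L[ℝ] (Fin N → ℂ) :=
  ContinuousLinearMap.pi fun j => ∑ k ∈ Finset.univ.erase j,
    m k • (Dg (q k - q j)).comp (prj k - prj j)

lemma DA_apply {N : ℕ} (m : Fin N → ℝ) (q z : Fin N → ℂ) (j : Fin N) :
    DA m q z j = ∑ k ∈ Finset.univ.erase j, (m k : ℂ) * Dg (q k - q j) (z k - z j) := by
  simp only [DA, ContinuousLinearMap.coe_pi', ContinuousLinearMap.sum_apply,
    ContinuousLinearMap.smul_apply, ContinuousLinearMap.comp_apply, ContinuousLinearMap.sub_apply,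
    prj_apply, Complex.real_smul]

lemma hasFDerivAt_accel {N : ℕ} (m : Fin N → ℝ) {q : Fin N → ℂ} (hq : Function.Injective q) :
    HasFDerivAt (accel m) (DA m q) q := by
  rw [hasFDerivAt_pi']
  intro j
  have h1 : ∀ k ∈ Finset.univ.erase j, HasFDerivAt (fun z : Fin N → ℂ => m k • ((1 / ‖z k - z j‖ ^ 3 : ℝ) • (z k - z j)))
      (m k • (Dg (q k - q j)).comp (prj k - prj j)) q := by
    intro k hk
    have hne : q k - q j ≠ 0 := sub_ne_zero.mpr fun h => (Finset.ne_of_mem_erase hk) (hq h)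
    have hd : HasFDerivAt (fun z : Fin N → ℂ => z k - z j)
        (prj k - prj j) q := (prj k - prj j).hasFDerivAt
    exact ((hasFDerivAt_g hne).comp q hd).const_smul (m k)
  have h2 := HasFDerivAt.fun_sum h1
  have e1 : (fun z : Fin N → ℂ => accel m z j) = fun z => ∑ k ∈ Finset.univ.erase j, m k • ((1 / ‖z k - z j‖ ^ 3 : ℝ) • (z k - z j)) := by
    funext z
    unfold accel
    refine Finset.sum_congr rfl fun k _ => ?_
    rw [smul_smul, Complex.real_smul]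
    congr 2
    ring
  rw [e1]
  refine h2.congr_fderiv ?_
  apply ContinuousLinearMap.ext
  intro z
  simp only [DA, ContinuousLinearMap.comp_apply, ContinuousLinearMap.proj_apply,
    ContinuousLinearMap.coe_pi', ContinuousLinearMap.sum_apply]


/-- multiplication by a complex number, as a real-linear map on configurations -/
noncomputable def cmulC (c : ℂ) : ℂ →ₗ[ℝ] ℂ where
  toFun z := c * z
  map_add' := by intro x y; ring
  map_smul' := by intro r x; simp; ring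

noncomputable def cmulV {N : ℕ} (c : ℂ) : (Fin N → ℂ) →ₗ[ℝ] (Fin N → ℂ) where
  toFun z := fun j => c * z j
  map_add' := by intro x y; funext j; simp; ring
  map_smul' := by intro r x; funext j; simp; ring

/-- the linearisation of the rotating field -/
noncomputable def Lin {N : ℕ} (m : Fin N → ℝ) (ω : ℝ) (q : Fin N → ℂ) :
    (Fin N → ℂ) × (Fin N → ℂ) →ₗ[ℝ] (Fin N → ℂ) × (Fin N → ℂ) :=
  blk ((DA m q).toLinearMap + cmulV ((ω : ℂ) ^ 2)) (cmulV (-(2 * Complex.I * ω)))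

lemma fderiv_rotField {N : ℕ} (m : Fin N → ℝ) (ω : ℝ) {q : Fin N → ℂ} (hq : Function.Injective q) :
    (fderiv ℝ (rotField m ω) (q, 0)).toLinearMap = Lin m ω q := by
  have h1 : HasFDerivAt (fun s : (Fin N → ℂ) × (Fin N → ℂ) => s.1)
      (ContinuousLinearMap.fst ℝ (Fin N → ℂ) (Fin N → ℂ)) (q, 0) := hasFDerivAt_fst
  have h2 : HasFDerivAt (fun s : (Fin N → ℂ) × (Fin N → ℂ) => s.2)
      (ContinuousLinearMap.snd ℝ (Fin N → ℂ) (Fin N → ℂ)) (q, 0) := hasFDerivAt_snd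
  have h3 : HasFDerivAt (fun s : (Fin N → ℂ) × (Fin N → ℂ) => accel m s.1)
      ((DA m q).comp (ContinuousLinearMap.fst ℝ (Fin N → ℂ) (Fin N → ℂ))) (q, 0) :=
    HasFDerivAt.comp (f := fun s : (Fin N → ℂ) × (Fin N → ℂ) => s.1) (g := accel m) (q, (0 : Fin N → ℂ))
      (hasFDerivAt_accel m hq) h1
  have h4 : HasFDerivAt (fun s : (Fin N → ℂ) × (Fin N → ℂ) => cmulV ((ω : ℂ) ^ 2) s.1)
      ((LinearMap.toContinuousLinearMap (cmulV ((ω : ℂ) ^ 2) : (Fin N → ℂ) →ₗ[ℝ] (Fin N → ℂ))).comp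
        (ContinuousLinearMap.fst ℝ (Fin N → ℂ) (Fin N → ℂ))) (q, 0) :=
    (LinearMap.toContinuousLinearMap (cmulV ((ω : ℂ) ^ 2) : (Fin N → ℂ) →ₗ[ℝ] (Fin N → ℂ))).hasFDerivAt.comp
      (q, (0 : Fin N → ℂ)) h1
  have h5 : HasFDerivAt (fun s : (Fin N → ℂ) × (Fin N → ℂ) => cmulV (-(2 * Complex.I * ω)) s.2)
      ((LinearMap.toContinuousLinearMap (cmulV (-(2 * Complex.I * ω)) : (Fin N → ℂ) →ₗ[ℝ] (Fin N → ℂ))).comp
        (ContinuousLinearMap.snd ℝ (Fin N → ℂ) (Fin N → ℂ))) (q, 0) :=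
    (LinearMap.toContinuousLinearMap (cmulV (-(2 * Complex.I * ω)) : (Fin N → ℂ) →ₗ[ℝ] (Fin N → ℂ))).hasFDerivAt.comp
      (q, (0 : Fin N → ℂ)) h2
  have e : rotField m ω = fun s : (Fin N → ℂ) × (Fin N → ℂ) => (s.2, (accel m s.1 + cmulV ((ω : ℂ) ^ 2) s.1) + cmulV (-(2 * Complex.I * ω)) s.2) := by
    funext s
    unfold rotField
    refine Prod.ext rfl ?_
    funext j
    simp [cmulV]
    ring
  have h6 : HasFDerivAt (rotField m ω) (LinearMap.toContinuousLinearMap (Lin m ω q))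
      (q, (0 : Fin N → ℂ)) := by
    rw [e]
    refine (h2.prodMk ((h3.add h4).add h5)).congr_fderiv ?_
    apply ContinuousLinearMap.ext
    rintro ⟨z, w⟩
    refine Prod.ext ?_ ?_
    · simp [Lin, blk]
    · funext j
      simp [Lin, blk]
  rw [h6.fderiv]
  rfl

lemma trace_cmulC_real (r : ℝ) : LinearMap.trace ℝ ℂ (cmulC (r : ℂ)) = 2 * r := by
  rw [trace_complex]; simp [cmulC]; ring

lemma trace_Dg (u : ℂ) (hu : u ≠ 0) : LinearMap.trace ℝ ℂ (Dg u).toLinearMap = -(1 / ‖u‖ ^ 3) := by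
  have hn : ‖u‖ ≠ 0 := norm_ne_zero_iff.mpr hu
  rw [trace_complex]
  simp only [ContinuousLinearMap.coe_coe, Dg_apply, Complex.sub_re, Complex.sub_im,
    Complex.ofReal_re, Complex.ofReal_im, Complex.one_re, Complex.one_im, Complex.I_re,
    Complex.I_im, Complex.mul_re, Complex.mul_im, Complex.conj_re, Complex.conj_im]
  have h : ‖u‖ ^ 2 = u.re * u.re + u.im * u.im := by rw [Complex.sq_norm, Complex.normSq_apply]
  have h5 : ‖u‖ ^ 5 = ‖u‖ ^ 3 * ‖u‖ ^ 2 := by ring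
  have h6 : u.re ^ 2 + u.im ^ 2 ≠ 0 := by
    have : u.re ^ 2 + u.im ^ 2 = ‖u‖ ^ 2 := by rw [h]; ring
    rw [this]; positivity
  have h7 : u.re * u.re + u.im * u.im = u.re ^ 2 + u.im ^ 2 := by ring
  rw [h5, h, h7]
  field_simp
  ring

lemma trace_DA {N : ℕ} (m : Fin N → ℝ) {q : Fin N → ℂ} (hq : Function.Injective q) :
    LinearMap.trace ℝ (Fin N → ℂ) (DA m q).toLinearMap
      = ∑ j, ∑ k ∈ Finset.univ.erase j, m k / ‖q k - q j‖ ^ 3 := by
  rw [trace_pi]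
  refine Finset.sum_congr rfl fun j _ => ?_
  have e : (LinearMap.proj j ∘ₗ (DA m q).toLinearMap ∘ₗ LinearMap.single ℝ (fun _ => ℂ) j : ℂ →ₗ[ℝ] ℂ)
      = ∑ k ∈ Finset.univ.erase j, (-(m k)) • (Dg (q k - q j)).toLinearMap := by
    apply LinearMap.ext
    intro c
    simp only [LinearMap.comp_apply, LinearMap.proj_apply, LinearMap.sum_apply, ContinuousLinearMap.coe_coe,
      DA_apply, LinearMap.smul_apply]
    refine Finset.sum_congr rfl fun k hk => ?_
    have hkj : k ≠ j := Finset.ne_of_mem_erase hk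
    have e1 : (LinearMap.single ℝ (fun _ => ℂ) j c : Fin N → ℂ) k = 0 := by
      simp [hkj]
    have e2 : (LinearMap.single ℝ (fun _ => ℂ) j c : Fin N → ℂ) j = c := by
      simp
    rw [e1, e2, zero_sub, map_neg, Complex.real_smul]
    push_cast
    ring
  rw [e, map_sum]
  refine Finset.sum_congr rfl fun k hk => ?_
  have hkj : k ≠ j := Finset.ne_of_mem_erase hk
  rw [map_smul, trace_Dg _ (sub_ne_zero.mpr fun h => hkj (hq h))]
  simp
  ring

lemma trace_cmulV_real {N : ℕ} (r : ℝ) :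
    LinearMap.trace ℝ (Fin N → ℂ) (cmulV (r : ℂ)) = 2 * N * r := by
  rw [trace_pi]
  have : ∀ j : Fin N, (LinearMap.proj j ∘ₗ cmulV (r : ℂ) ∘ₗ LinearMap.single ℝ (fun _ => ℂ) j : ℂ →ₗ[ℝ] ℂ)
      = cmulC (r : ℂ) := by
    intro j
    apply LinearMap.ext
    intro c
    simp [cmulV, cmulC]
  simp_rw [this, trace_cmulC_real]
  simp
  ring

lemma trace_Lin_sq {N : ℕ} (m : Fin N → ℝ) (ω : ℝ) {q : Fin N → ℂ} (hq : Function.Injective q) :
    LinearMap.trace ℝ _ (Lin m ω q ∘ₗ Lin m ω q)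
      = 2 * (∑ j, ∑ k ∈ Finset.univ.erase j, m k / ‖q k - q j‖ ^ 3) - 4 * N * ω ^ 2 := by
  unfold Lin
  rw [trace_blk_sq, map_add, trace_DA m hq]
  have e1 : (cmulV ((ω : ℂ) ^ 2) : (Fin N → ℂ) →ₗ[ℝ] (Fin N → ℂ)) = cmulV (((ω ^ 2 : ℝ)) : ℂ) := by
    push_cast; rfl
  have e2 : (cmulV (-(2 * Complex.I * ω)) ∘ₗ cmulV (-(2 * Complex.I * ω)) : (Fin N → ℂ) →ₗ[ℝ] (Fin N → ℂ))
      = cmulV (((-(4 * ω ^ 2) : ℝ)) : ℂ) := by
    apply LinearMap.ext
    intro z
    funext j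
    simp only [cmulV, LinearMap.comp_apply, LinearMap.coe_mk, AddHom.coe_mk]
    push_cast
    linear_combination (4 * (ω : ℂ) ^ 2 * z j) * Complex.I_sq
  rw [e1, e2, trace_cmulV_real, trace_cmulV_real]
  ring



/-! ### Symmetrised double sums -/

lemma swap_sum {N : ℕ} {M : Type*} [AddCommMonoid M] (F : Fin N → Fin N → M) :
    ∑ j, ∑ k ∈ Finset.univ.erase j, F j k = ∑ j, ∑ k ∈ Finset.univ.erase j, F k j := by
  apply Finset.sum_comm'
  intro x y
  simp [ne_comm]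

lemma sym_sum {N : ℕ} (F : Fin N → Fin N → ℂ) :
    2 * ∑ j, ∑ k ∈ Finset.univ.erase j, F j k
      = ∑ j, ∑ k ∈ Finset.univ.erase j, (F j k + F k j) := by
  simp_rw [Finset.sum_add_distrib]
  rw [← swap_sum F]
  ring

/-- the relative equilibrium equation -/
lemma relEq_eq {N : ℕ} {m : Fin N → ℝ} {ω : ℝ} {q : Fin N → ℂ} (h : IsRelEq m ω q) (j : Fin N) :
    accel m q j = -(ω : ℂ) ^ 2 * q j := by
  obtain ⟨hω, hq, v, hv⟩ := h
  have hd : ∀ t : ℝ, HasDerivAt (fun s : ℝ => Complex.exp (Complex.I * ω * s) * q j)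
      (Complex.I * ω * (Complex.exp (Complex.I * ω * t) * q j)) t := by
    intro t
    have h1 : HasDerivAt (fun s : ℝ => Complex.I * ω * (s : ℂ)) (Complex.I * ω) t := by
      simpa using (Complex.ofRealCLM.hasDerivAt (x := t)).const_mul (Complex.I * ω)
    have h2 := (h1.cexp).mul_const (q j)
    convert! h2 using 1
    ring
  have hv1 : ∀ t : ℝ, v t j = Complex.I * ω * (Complex.exp (Complex.I * ω * t) * q j) :=
    fun t => (hv t j).1.unique (hd t)
  have hv2 : (fun s : ℝ => v s j) = fun s : ℝ => Complex.I * ω * (Complex.exp (Complex.I * ω * s) * q j) :=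
    funext hv1
  have h3 := (hv 0 j).2
  rw [hv2] at h3
  have h4 := (hd 0).const_mul (Complex.I * ω)
  have h5 := h3.unique h4
  have e : (fun j => Complex.exp (Complex.I * ω * ((0 : ℝ) : ℂ)) * q j) = q := by
    funext j; simp
  change accel m (fun j => Complex.exp (Complex.I * ω * ((0 : ℝ) : ℂ)) * q j) j = _ at h5
  rw [e] at h5
  rw [h5]
  simp
  linear_combination ((ω : ℂ) ^ 2 * q j) * Complex.I_sq

/-- internal forces: `∑ m_j accel_j = 0` -/
lemma sum_accel {N : ℕ} (m : Fin N → ℝ) (q : Fin N → ℂ) : ∑ j, (m j : ℂ) * accel m q j = 0 := by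
  have h := sym_sum (fun j k => (m j : ℂ) * (((m k / ‖q k - q j‖ ^ 3 : ℝ) : ℂ) * (q k - q j)))
  have h0 : ∑ j, ∑ k ∈ Finset.univ.erase j,
      ((m j : ℂ) * (((m k / ‖q k - q j‖ ^ 3 : ℝ) : ℂ) * (q k - q j))
        + (m k : ℂ) * (((m j / ‖q j - q k‖ ^ 3 : ℝ) : ℂ) * (q j - q k))) = 0 := by
    refine Finset.sum_eq_zero fun j _ => Finset.sum_eq_zero fun k _ => ?_
    rw [norm_sub_rev (q j) (q k)]
    push_cast
    ring
  rw [h0] at h
  have h1 : ∑ j, (m j : ℂ) * accel m q j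
      = ∑ j, ∑ k ∈ Finset.univ.erase j, (m j : ℂ) * (((m k / ‖q k - q j‖ ^ 3 : ℝ) : ℂ) * (q k - q j)) := by
    refine Finset.sum_congr rfl fun j _ => ?_
    rw [accel, Finset.mul_sum]
  rw [h1]
  linear_combination h / 2

lemma center_of_mass {N : ℕ} {m : Fin N → ℝ} {ω : ℝ} {q : Fin N → ℂ} (h : IsRelEq m ω q) :
    ∑ j, (m j : ℂ) * q j = 0 := by
  have h1 := sum_accel m q
  have h2 : ∑ j, (m j : ℂ) * accel m q j = -(ω : ℂ) ^ 2 * ∑ j, (m j : ℂ) * q j := by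
    rw [Finset.mul_sum]
    refine Finset.sum_congr rfl fun j _ => ?_
    rw [relEq_eq h j]; ring
  rw [h2] at h1
  have hω : (ω : ℂ) ≠ 0 := by exact_mod_cast h.1
  have h3 : -(ω : ℂ) ^ 2 ≠ 0 := neg_ne_zero.mpr (pow_ne_zero 2 hω)
  exact (mul_eq_zero.mp h1).resolve_left h3

/-- `∑_j m_j conj(q_j) z_j` times `ω²` as a symmetric double sum -/
lemma omega_sum {N : ℕ} {m : Fin N → ℝ} {ω : ℝ} {q : Fin N → ℂ} (h : IsRelEq m ω q) (z : Fin N → ℂ) :
    2 * (ω : ℂ) ^ 2 * ∑ j, (m j : ℂ) * (starRingEnd ℂ (q j) * z j)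
      = ∑ j, ∑ k ∈ Finset.univ.erase j, ((m j * m k / ‖q k - q j‖ ^ 3 : ℝ) : ℂ)
          * (starRingEnd ℂ (q k - q j) * (z k - z j)) := by
  have h1 := sym_sum (fun j k => ((m j * m k / ‖q k - q j‖ ^ 3 : ℝ) : ℂ) * (starRingEnd ℂ (q k - q j) * z j))
  have h2 : ∑ j, ∑ k ∈ Finset.univ.erase j, ((m j * m k / ‖q k - q j‖ ^ 3 : ℝ) : ℂ) * (starRingEnd ℂ (q k - q j) * z j)
      = -(ω : ℂ) ^ 2 * ∑ j, (m j : ℂ) * (starRingEnd ℂ (q j) * z j) := by
    rw [Finset.mul_sum]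
    refine Finset.sum_congr rfl fun j _ => ?_
    have h3 : starRingEnd ℂ (accel m q j) = -(ω : ℂ) ^ 2 * starRingEnd ℂ (q j) := by
      rw [relEq_eq h j]; simp
    have h4 : ∑ k ∈ Finset.univ.erase j, ((m j * m k / ‖q k - q j‖ ^ 3 : ℝ) : ℂ) * (starRingEnd ℂ (q k - q j) * z j)
        = (m j : ℂ) * starRingEnd ℂ (accel m q j) * z j := by
      rw [accel, map_sum, Finset.mul_sum, Finset.sum_mul]
      refine Finset.sum_congr rfl fun k _ => ?_
      rw [map_mul, Complex.conj_ofReal]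
      push_cast
      ring
    rw [h4, h3]
    ring
  rw [h2] at h1
  have h5 : ∑ j, ∑ k ∈ Finset.univ.erase j,
      (((m j * m k / ‖q k - q j‖ ^ 3 : ℝ) : ℂ) * (starRingEnd ℂ (q k - q j) * z j)
        + ((m k * m j / ‖q j - q k‖ ^ 3 : ℝ) : ℂ) * (starRingEnd ℂ (q j - q k) * z k))
      = -∑ j, ∑ k ∈ Finset.univ.erase j, ((m j * m k / ‖q k - q j‖ ^ 3 : ℝ) : ℂ)
          * (starRingEnd ℂ (q k - q j) * (z k - z j)) := by
    rw [← Finset.sum_neg_distrib]
    refine Finset.sum_congr rfl fun j _ => ?_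
    rw [← Finset.sum_neg_distrib]
    refine Finset.sum_congr rfl fun k _ => ?_
    rw [norm_sub_rev (q j) (q k), mul_comm (m k) (m j), ← neg_sub (q k) (q j), map_neg]
    ring
  rw [h5] at h1
  linear_combination (-1 : ℂ) * h1

lemma conj_mul_Dg {u : ℂ} (hu : u ≠ 0) (v : ℂ) :
    starRingEnd ℂ u * Dg u v = ((1 / ‖u‖ ^ 3 : ℝ) : ℂ)
      * (starRingEnd ℂ u * v - ((3 * (starRingEnd ℂ u * v).re : ℝ) : ℂ)) := by
  have hn : ‖u‖ ≠ 0 := norm_ne_zero_iff.mpr hu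
  have h1 : starRingEnd ℂ u * u = ((‖u‖ ^ 2 : ℝ) : ℂ) := by
    rw [mul_comm, Complex.mul_conj, Complex.normSq_eq_norm_sq]
  rw [Dg_apply]
  have h2 : starRingEnd ℂ u * (((1 / ‖u‖ ^ 3 : ℝ) : ℂ) * v
      - ((3 * (starRingEnd ℂ u * v).re / ‖u‖ ^ 5 : ℝ) : ℂ) * u)
      = ((1 / ‖u‖ ^ 3 : ℝ) : ℂ) * (starRingEnd ℂ u * v)
        - ((3 * (starRingEnd ℂ u * v).re / ‖u‖ ^ 5 : ℝ) : ℂ) * (starRingEnd ℂ u * u) := by ring
  rw [h2, h1, ← Complex.ofReal_mul]
  have h3 : 3 * (starRingEnd ℂ u * v).re / ‖u‖ ^ 5 * ‖u‖ ^ 2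
      = 1 / ‖u‖ ^ 3 * (3 * (starRingEnd ℂ u * v).re) := by
    field_simp
  rw [h3]
  push_cast
  ring

lemma Dg_neg (u v : ℂ) : Dg (-u) v = Dg u v := by
  simp [Dg_apply]
  ring

/-- `∑ m_j (DA z)_j = 0` -/
lemma sum_DA {N : ℕ} (m : Fin N → ℝ) (q z : Fin N → ℂ) : ∑ j, (m j : ℂ) * DA m q z j = 0 := by
  have h := sym_sum (fun j k => (m j : ℂ) * ((m k : ℂ) * Dg (q k - q j) (z k - z j)))
  have h0 : ∑ j, ∑ k ∈ Finset.univ.erase j,
      ((m j : ℂ) * ((m k : ℂ) * Dg (q k - q j) (z k - z j))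
        + (m k : ℂ) * ((m j : ℂ) * Dg (q j - q k) (z j - z k))) = 0 := by
    refine Finset.sum_eq_zero fun j _ => Finset.sum_eq_zero fun k _ => ?_
    rw [← neg_sub (q k) (q j), Dg_neg, ← neg_sub (z k) (z j), map_neg]
    ring
  rw [h0] at h
  have h1 : ∑ j, (m j : ℂ) * DA m q z j
      = ∑ j, ∑ k ∈ Finset.univ.erase j, (m j : ℂ) * ((m k : ℂ) * Dg (q k - q j) (z k - z j)) := by
    refine Finset.sum_congr rfl fun j _ => ?_
    rw [DA_apply, Finset.mul_sum]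
  rw [h1]
  linear_combination h / 2

lemma sum_conj_DA {N : ℕ} {m : Fin N → ℝ} {ω : ℝ} {q : Fin N → ℂ} (h : IsRelEq m ω q)
    (z : Fin N → ℂ) :
    ∑ j, (m j : ℂ) * (starRingEnd ℂ (q j) * DA m q z j)
      = ((3 * ω ^ 2 * (∑ j, (m j : ℂ) * (starRingEnd ℂ (q j) * z j)).re : ℝ) : ℂ)
        - (ω : ℂ) ^ 2 * ∑ j, (m j : ℂ) * (starRingEnd ℂ (q j) * z j) := by
  set Z := ∑ j, (m j : ℂ) * (starRingEnd ℂ (q j) * z j) with hZ
  have hω := omega_sum h z
  rw [← hZ] at hω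
  have h1 := sym_sum (fun j k => (m j : ℂ) * (starRingEnd ℂ (q j) * ((m k : ℂ) * Dg (q k - q j) (z k - z j))))
  have h2 : ∑ j, (m j : ℂ) * (starRingEnd ℂ (q j) * DA m q z j)
      = ∑ j, ∑ k ∈ Finset.univ.erase j, (m j : ℂ) * (starRingEnd ℂ (q j) * ((m k : ℂ) * Dg (q k - q j) (z k - z j))) := by
    refine Finset.sum_congr rfl fun j _ => ?_
    rw [DA_apply, Finset.mul_sum, Finset.mul_sum]
  rw [← h2] at h1
  have h3 : ∑ j, ∑ k ∈ Finset.univ.erase j,
      ((m j : ℂ) * (starRingEnd ℂ (q j) * ((m k : ℂ) * Dg (q k - q j) (z k - z j)))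
        + (m k : ℂ) * (starRingEnd ℂ (q k) * ((m j : ℂ) * Dg (q j - q k) (z j - z k))))
      = ∑ j, ∑ k ∈ Finset.univ.erase j,
        (((3 * (((m j * m k / ‖q k - q j‖ ^ 3 : ℝ) : ℂ) * (starRingEnd ℂ (q k - q j) * (z k - z j))).re : ℝ) : ℂ)
          - ((m j * m k / ‖q k - q j‖ ^ 3 : ℝ) : ℂ) * (starRingEnd ℂ (q k - q j) * (z k - z j))) := by
    refine Finset.sum_congr rfl fun j _ => Finset.sum_congr rfl fun k hk => ?_
    have hne : q k - q j ≠ 0 := sub_ne_zero.mpr fun hh => (Finset.ne_of_mem_erase hk) (h.2.1 hh)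
    have e1 := conj_mul_Dg hne (z k - z j)
    rw [← neg_sub (q k) (q j), Dg_neg, ← neg_sub (z k) (z j), map_neg]
    rw [Complex.re_ofReal_mul]
    have e2 : (m j : ℂ) * (starRingEnd ℂ (q j) * ((m k : ℂ) * Dg (q k - q j) (z k - z j)))
        + (m k : ℂ) * (starRingEnd ℂ (q k) * ((m j : ℂ) * -Dg (q k - q j) (z k - z j)))
        = -((m j : ℂ) * (m k : ℂ)) * (starRingEnd ℂ (q k - q j) * Dg (q k - q j) (z k - z j)) := by
      have ec : starRingEnd ℂ (q k - q j) = starRingEnd ℂ (q k) - starRingEnd ℂ (q j) := map_sub _ _ _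
      rw [ec]; ring
    rw [e2, e1]
    push_cast
    ring
  rw [h3] at h1
  have h4 : ∑ j, ∑ k ∈ Finset.univ.erase j,
        (((3 * (((m j * m k / ‖q k - q j‖ ^ 3 : ℝ) : ℂ) * (starRingEnd ℂ (q k - q j) * (z k - z j))).re : ℝ) : ℂ)
          - ((m j * m k / ‖q k - q j‖ ^ 3 : ℝ) : ℂ) * (starRingEnd ℂ (q k - q j) * (z k - z j)))
      = ((3 * (2 * (ω : ℂ) ^ 2 * Z).re : ℝ) : ℂ) - 2 * (ω : ℂ) ^ 2 * Z := by
    simp_rw [Finset.sum_sub_distrib]
    rw [← hω]
    congr 1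
    rw [hω]
    simp only [Complex.re_sum, Finset.mul_sum, Complex.ofReal_sum]
  rw [h4] at h1
  have h5 : (2 * (ω : ℂ) ^ 2 * Z).re = 2 * ω ^ 2 * Z.re := by
    have : (2 * (ω : ℂ) ^ 2 * Z) = ((2 * ω ^ 2 : ℝ) : ℂ) * Z := by push_cast; ring
    rw [this, Complex.re_ofReal_mul]
  rw [h5] at h1
  push_cast at h1 ⊢
  linear_combination h1 / 2



/-! ### The trace inequality `∑_j ∑_{k≠j} m_k/r³ ≤ (2N-3) ω²` for spectrally stable relative equilibria -/

noncomputable def pmap {N : ℕ} (m : Fin N → ℝ) (q : Fin N → ℂ) : (Fin N → ℂ) →ₗ[ℝ] ℂ × ℂ where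
  toFun z := (∑ j, (m j : ℂ) * z j, ∑ j, (m j : ℂ) * (starRingEnd ℂ (q j) * z j))
  map_add' := by
    intro x y
    simp only [Pi.add_apply, mul_add, Finset.sum_add_distrib, Prod.mk_add_mk]
  map_smul' := by
    intro r x
    simp only [Pi.smul_apply, Complex.real_smul, RingHom.id_apply, Prod.smul_mk, Finset.mul_sum]
    have e1 : ∑ j, (m j : ℂ) * ((r : ℂ) * x j) = ∑ j, (r : ℂ) * ((m j : ℂ) * x j) :=
      Finset.sum_congr rfl fun j _ => by ring
    have e2 : ∑ j, (m j : ℂ) * (starRingEnd ℂ (q j) * ((r : ℂ) * x j))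
        = ∑ j, (r : ℂ) * ((m j : ℂ) * (starRingEnd ℂ (q j) * x j)) :=
      Finset.sum_congr rfl fun j _ => by ring
    rw [e1, e2]

noncomputable def smap {N : ℕ} (q : Fin N → ℂ) (M I : ℝ) : ℂ × ℂ →ₗ[ℝ] (Fin N → ℂ) where
  toFun Z := fun j => Z.1 / M + Z.2 * q j / I
  map_add' := by
    intro x y; funext j; simp; ring
  map_smul' := by
    intro r x; funext j; simp; ring

noncomputable def reMap (r : ℝ) : ℂ →ₗ[ℝ] ℂ where
  toFun z := ((r * z.re : ℝ) : ℂ)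
  map_add' := by intro x y; simp; ring
  map_smul' := by intro c x; simp; ring

lemma trace_reMap (r : ℝ) : LinearMap.trace ℝ ℂ (reMap r) = r := by
  rw [trace_complex]; simp [reMap]

lemma deflation_blk {V V' : Type*} [AddCommGroup V] [Module ℝ V] [FiniteDimensional ℝ V]
    [AddCommGroup V'] [Module ℝ V'] [FiniteDimensional ℝ V']
    (A B : V →ₗ[ℝ] V) (A' B' : V' →ₗ[ℝ] V') (p : V →ₗ[ℝ] V') (s : V' →ₗ[ℝ] V)
    (hs : ∀ x, p (s x) = x) (hA : ∀ x, p (A x) = A' (p x)) (hB : ∀ x, p (B x) = B' (p x))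
    (h : ∀ s : ℂ, Polynomial.aeval s (blk A B).charpoly = 0 → s.re = 0) :
    LinearMap.trace ℝ (V × V) (blk A B ∘ₗ blk A B)
      ≤ 2 * LinearMap.trace ℝ V' A' + LinearMap.trace ℝ V' (B' ∘ₗ B') := by
  rw [← trace_blk_sq]
  refine deflation (blk A B) (blk A' B') (LinearMap.prodMap p p) (LinearMap.prodMap s s) ?_ ?_ h
  · apply LinearMap.ext
    rintro ⟨x, y⟩
    simp [hs]
  · apply LinearMap.ext
    rintro ⟨x, y⟩
    simp [blk, hA, hB]

lemma sum_mass_pos {N : ℕ} {m : Fin N → ℝ} (hN : 2 ≤ N) (hm : ∀ j, 0 < m j) : 0 < ∑ j, m j := by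
  have : Nonempty (Fin N) := ⟨⟨0, by omega⟩⟩
  exact Finset.sum_pos (fun j _ => hm j) Finset.univ_nonempty

lemma inertia_pos {N : ℕ} {m : Fin N → ℝ} {q : Fin N → ℂ} (hN : 2 ≤ N) (hm : ∀ j, 0 < m j)
    (hq : Function.Injective q) : 0 < ∑ j, m j * ‖q j‖ ^ 2 := by
  have h0 : ∀ j ∈ Finset.univ, 0 ≤ m j * ‖q j‖ ^ 2 := fun j _ => mul_nonneg (hm j).le (by positivity)
  apply lt_of_le_of_ne (Finset.sum_nonneg h0)
  intro h
  have h1 := (Finset.sum_eq_zero_iff_of_nonneg h0).mp h.symm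
  have h2 : ∀ j, q j = 0 := by
    intro j
    have h3 := h1 j (Finset.mem_univ j)
    have h4 := (mul_eq_zero.mp h3).resolve_left (hm j).ne'
    have h5 : ‖q j‖ = 0 := by simpa using h4
    exact norm_eq_zero.mp h5
  have h6 : (⟨0, by omega⟩ : Fin N) = ⟨1, by omega⟩ := hq (by rw [h2, h2])
  simp at h6

theorem trace_ineq {N : ℕ} {m : Fin N → ℝ} {ω : ℝ} {q : Fin N → ℂ} (hN : 2 ≤ N)
    (hm : ∀ j, 0 < m j) (h : IsRelEq m ω q) (hst : SpectrallyStable m ω q) :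
    ∑ j, ∑ k ∈ Finset.univ.erase j, m k / ‖q k - q j‖ ^ 3 ≤ (2 * N - 3) * ω ^ 2 := by
  have hq := h.2.1
  have hcm := center_of_mass h
  set M := ∑ j, m j with hM
  set I := ∑ j, m j * ‖q j‖ ^ 2 with hI
  have hM0 : 0 < M := sum_mass_pos hN hm
  have hI0 : 0 < I := inertia_pos hN hm hq
  have hMc : (M : ℂ) ≠ 0 := by exact_mod_cast hM0.ne'
  have hIc : (I : ℂ) ≠ 0 := by exact_mod_cast hI0.ne'
  have hcm' : ∑ j, (m j : ℂ) * starRingEnd ℂ (q j) = 0 := by
    have := congrArg (starRingEnd ℂ) hcm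
    simpa [map_sum] using this
  have hIsum : ∑ j, (m j : ℂ) * (starRingEnd ℂ (q j) * q j) = I := by
    rw [hI]; push_cast
    refine Finset.sum_congr rfl fun j _ => ?_
    rw [mul_comm (starRingEnd ℂ (q j)), Complex.mul_conj, Complex.normSq_eq_norm_sq]
    push_cast; ring
  have hst' : ∀ s : ℂ, Polynomial.aeval s (Lin m ω q).charpoly = 0 → s.re = 0 := by
    intro s hs
    apply hst s
    rw [fderiv_rotField m ω hq]
    exact hs
  have key := deflation_blk ((DA m q).toLinearMap + cmulV ((ω : ℂ) ^ 2)) (cmulV (-(2 * Complex.I * ω)))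
    (LinearMap.prodMap (cmulC ((ω ^ 2 : ℝ) : ℂ)) (reMap (3 * ω ^ 2)))
    (LinearMap.prodMap (cmulC (-(2 * Complex.I * ω))) (cmulC (-(2 * Complex.I * ω))))
    (pmap m q) (smap q M I) ?_ ?_ ?_ hst'
  · have e1 : LinearMap.trace ℝ (ℂ × ℂ) (LinearMap.prodMap (cmulC ((ω ^ 2 : ℝ) : ℂ)) (reMap (3 * ω ^ 2)))
        = 5 * ω ^ 2 := by
      rw [LinearMap.trace_prodMap', trace_cmulC_real, trace_reMap]; ring
    have e2 : LinearMap.trace ℝ (ℂ × ℂ)
        (LinearMap.prodMap (cmulC (-(2 * Complex.I * ω))) (cmulC (-(2 * Complex.I * ω)))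
          ∘ₗ LinearMap.prodMap (cmulC (-(2 * Complex.I * ω))) (cmulC (-(2 * Complex.I * ω))))
        = -16 * ω ^ 2 := by
      have e3 : (LinearMap.prodMap (cmulC (-(2 * Complex.I * ω))) (cmulC (-(2 * Complex.I * ω)))
          ∘ₗ LinearMap.prodMap (cmulC (-(2 * Complex.I * ω))) (cmulC (-(2 * Complex.I * ω))))
          = LinearMap.prodMap (cmulC ((-(4 * ω ^ 2) : ℝ) : ℂ)) (cmulC ((-(4 * ω ^ 2) : ℝ) : ℂ)) := by
        apply LinearMap.ext
        rintro ⟨x, y⟩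
        refine Prod.ext ?_ ?_
        · simp only [LinearMap.comp_apply, LinearMap.prodMap_apply, cmulC, LinearMap.coe_mk, AddHom.coe_mk]
          push_cast
          linear_combination (4 * (ω : ℂ) ^ 2 * x) * Complex.I_sq
        · simp only [LinearMap.comp_apply, LinearMap.prodMap_apply, cmulC, LinearMap.coe_mk, AddHom.coe_mk]
          push_cast
          linear_combination (4 * (ω : ℂ) ^ 2 * y) * Complex.I_sq
      rw [e3, LinearMap.trace_prodMap', trace_cmulC_real]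
      ring
    rw [e1, e2] at key
    have h9 := trace_Lin_sq m ω hq
    unfold Lin at h9
    rw [h9] at key
    nlinarith
  · -- p ∘ s = id
    rintro ⟨x, y⟩
    refine Prod.ext ?_ ?_
    · change ∑ j, (m j : ℂ) * (x / M + y * q j / I) = x
      have : ∑ j, (m j : ℂ) * (x / M + y * q j / I)
          = (∑ j, (m j : ℂ)) * (x / M) + (∑ j, (m j : ℂ) * q j) * (y / I) := by
        rw [Finset.sum_mul, Finset.sum_mul, ← Finset.sum_add_distrib]
        refine Finset.sum_congr rfl fun j _ => ?_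
        ring
      rw [this, hcm]
      have hMs : ∑ j, (m j : ℂ) = M := by rw [hM]; push_cast; rfl
      rw [hMs]
      field_simp
      ring
    · change ∑ j, (m j : ℂ) * (starRingEnd ℂ (q j) * (x / M + y * q j / I)) = y
      have : ∑ j, (m j : ℂ) * (starRingEnd ℂ (q j) * (x / M + y * q j / I))
          = (∑ j, (m j : ℂ) * starRingEnd ℂ (q j)) * (x / M)
            + (∑ j, (m j : ℂ) * (starRingEnd ℂ (q j) * q j)) * (y / I) := by
        rw [Finset.sum_mul, Finset.sum_mul, ← Finset.sum_add_distrib]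
        refine Finset.sum_congr rfl fun j _ => ?_
        ring
      rw [this, hcm', hIsum]
      field_simp
      ring
  · -- p A = A' p
    intro z
    refine Prod.ext ?_ ?_
    · change ∑ j, (m j : ℂ) * (DA m q z j + (ω : ℂ) ^ 2 * z j) = ((ω ^ 2 : ℝ) : ℂ) * ∑ j, (m j : ℂ) * z j
      have : ∑ j, (m j : ℂ) * (DA m q z j + (ω : ℂ) ^ 2 * z j)
          = (∑ j, (m j : ℂ) * DA m q z j) + (ω : ℂ) ^ 2 * ∑ j, (m j : ℂ) * z j := by
        rw [Finset.mul_sum, ← Finset.sum_add_distrib]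
        refine Finset.sum_congr rfl fun j _ => ?_
        ring
      rw [this, sum_DA]
      push_cast
      ring
    · change ∑ j, (m j : ℂ) * (starRingEnd ℂ (q j) * (DA m q z j + (ω : ℂ) ^ 2 * z j))
        = ((3 * ω ^ 2 * (∑ j, (m j : ℂ) * (starRingEnd ℂ (q j) * z j)).re : ℝ) : ℂ)
      have : ∑ j, (m j : ℂ) * (starRingEnd ℂ (q j) * (DA m q z j + (ω : ℂ) ^ 2 * z j))
          = (∑ j, (m j : ℂ) * (starRingEnd ℂ (q j) * DA m q z j))
            + (ω : ℂ) ^ 2 * ∑ j, (m j : ℂ) * (starRingEnd ℂ (q j) * z j) := by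
        rw [Finset.mul_sum, ← Finset.sum_add_distrib]
        refine Finset.sum_congr rfl fun j _ => ?_
        ring
      rw [this, sum_conj_DA h]
      ring
  · -- p B = B' p
    intro z
    refine Prod.ext ?_ ?_
    · change ∑ j, (m j : ℂ) * (-(2 * Complex.I * ω) * z j) = -(2 * Complex.I * ω) * ∑ j, (m j : ℂ) * z j
      rw [Finset.mul_sum]
      refine Finset.sum_congr rfl fun j _ => ?_
      ring
    · change ∑ j, (m j : ℂ) * (starRingEnd ℂ (q j) * (-(2 * Complex.I * ω) * z j))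
        = -(2 * Complex.I * ω) * ∑ j, (m j : ℂ) * (starRingEnd ℂ (q j) * z j)
      rw [Finset.mul_sum]
      refine Finset.sum_congr rfl fun j _ => ?_
      ring

/-- `2 ω² I = ∑ m_j m_k / r` -/
lemma omega_formula {N : ℕ} {m : Fin N → ℝ} {ω : ℝ} {q : Fin N → ℂ} (h : IsRelEq m ω q) :
    2 * ω ^ 2 * ∑ j, m j * ‖q j‖ ^ 2 = ∑ j, ∑ k ∈ Finset.univ.erase j, m j * m k / ‖q k - q j‖ := by
  have h1 := omega_sum h q
  have e1 : ∑ j, (m j : ℂ) * (starRingEnd ℂ (q j) * q j) = ((∑ j, m j * ‖q j‖ ^ 2 : ℝ) : ℂ) := by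
    push_cast
    refine Finset.sum_congr rfl fun j _ => ?_
    rw [mul_comm (starRingEnd ℂ (q j)), Complex.mul_conj, Complex.normSq_eq_norm_sq]
    push_cast; ring
  have e2 : ∑ j, ∑ k ∈ Finset.univ.erase j, ((m j * m k / ‖q k - q j‖ ^ 3 : ℝ) : ℂ)
          * (starRingEnd ℂ (q k - q j) * (q k - q j))
      = ((∑ j, ∑ k ∈ Finset.univ.erase j, m j * m k / ‖q k - q j‖ : ℝ) : ℂ) := by
    rw [Complex.ofReal_sum]
    refine Finset.sum_congr rfl fun j _ => ?_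
    rw [Complex.ofReal_sum]
    refine Finset.sum_congr rfl fun k hk => ?_
    have hne : q k - q j ≠ 0 := sub_ne_zero.mpr fun hh => (Finset.ne_of_mem_erase hk) (h.2.1 hh)
    have hn : ‖q k - q j‖ ≠ 0 := norm_ne_zero_iff.mpr hne
    rw [mul_comm (starRingEnd ℂ (q k - q j)), Complex.mul_conj, Complex.normSq_eq_norm_sq,
      ← Complex.ofReal_mul]
    congr 1
    field_simp
  rw [e1, e2] at h1
  exact_mod_cast h1

/-- Lagrange identity (weighted) -/
lemma lagrange {N : ℕ} (m : Fin N → ℝ) (q : Fin N → ℂ) (hcm : ∑ j, (m j : ℂ) * q j = 0) :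
    ∑ j, ∑ k ∈ Finset.univ.erase j, m j * m k * ‖q k - q j‖ ^ 2
      = 2 * (∑ j, m j) * ∑ j, m j * ‖q j‖ ^ 2 := by
  have h1 : ∀ j, ∑ k ∈ Finset.univ.erase j, m j * m k * ‖q k - q j‖ ^ 2
      = ∑ k, m j * m k * ‖q k - q j‖ ^ 2 := by
    intro j
    rw [← Finset.add_sum_erase Finset.univ _ (Finset.mem_univ j)]
    simp
  simp_rw [h1]
  have hre : ∑ j, m j * (q j).re = 0 := by
    have := congrArg Complex.re hcm
    simpa [Complex.re_sum] using this
  have him : ∑ j, m j * (q j).im = 0 := by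
    have := congrArg Complex.im hcm
    simpa [Complex.im_sum] using this
  have h2 : ∀ j k, m j * m k * ‖q k - q j‖ ^ 2
      = m j * (m k * ‖q k‖ ^ 2) + m j * ‖q j‖ ^ 2 * m k - 2 * (m j * (q j).re) * (m k * (q k).re)
        - 2 * (m j * (q j).im) * (m k * (q k).im) := by
    intro j k
    simp only [Complex.sq_norm, Complex.normSq_apply, Complex.sub_re, Complex.sub_im]
    ring
  simp_rw [h2, Finset.sum_sub_distrib, Finset.sum_add_distrib, ← Finset.mul_sum]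
  simp_rw [hre, him, ← Finset.sum_mul]
  simp
  ring



/-! ### Removing the normalisation -/

lemma unscale {N : ℕ} (hN : 2 ≤ N) (κ : ℝ)
    (hsc : ∀ p : Fin N → ℂ, Function.Injective p → ∑ i, ‖p i‖ ^ 2 = (N : ℝ) →
      κ * (∑ i, ∑ j ∈ Finset.univ.erase i, 1 / ‖p i - p j‖)
        ≤ ∑ i, ∑ j ∈ Finset.univ.erase i, 1 / ‖p i - p j‖ ^ 3)
    (p : Fin N → ℂ) (hinj : Function.Injective p) :
    2 * κ * (N : ℝ) ^ 2 * (∑ i, ∑ j ∈ Finset.univ.erase i, 1 / ‖p i - p j‖)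
      ≤ (∑ i, ∑ j ∈ Finset.univ.erase i, ‖p i - p j‖ ^ 2)
        * ∑ i, ∑ j ∈ Finset.univ.erase i, 1 / ‖p i - p j‖ ^ 3 := by
  have hN0 : (0 : ℝ) < N := by exact_mod_cast (by omega : 0 < N)
  have hNc : (N : ℂ) ≠ 0 := by exact_mod_cast (by omega : N ≠ 0)
  set c : ℂ := (∑ i, p i) / N with hc
  have hinj' : Function.Injective (fun i => p i - c) := fun i j h => hinj (by simpa using h)
  have hcm : ∑ i, ((1 : ℝ) : ℂ) * (p i - c) = 0 := by
    simp only [Complex.ofReal_one, one_mul, Finset.sum_sub_distrib, Finset.sum_const, Finset.card_univ,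
      Fintype.card_fin, nsmul_eq_mul, hc]
    field_simp
    ring
  set V : ℝ := ∑ i, ‖p i - c‖ ^ 2 with hV
  have hV0 : 0 < V := by
    have := inertia_pos (m := fun _ : Fin N => (1 : ℝ)) hN (fun _ => one_pos) hinj'
    simpa using this
  have hlag : ∑ i, ∑ j ∈ Finset.univ.erase i, ‖p i - p j‖ ^ 2 = 2 * N * V := by
    have := lagrange (fun _ : Fin N => (1 : ℝ)) (fun i => p i - c) hcm
    simp only [one_mul, sub_sub_sub_cancel_right, Finset.sum_const, Finset.card_univ, Fintype.card_fin,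
      nsmul_eq_mul, mul_one] at this
    rw [← hV] at this
    rw [← this]
    refine Finset.sum_congr rfl fun i _ => Finset.sum_congr rfl fun j _ => ?_
    rw [norm_sub_rev]
  set lam : ℝ := √(N / V) with hlam
  have hlam0 : 0 < lam := Real.sqrt_pos.mpr (by positivity)
  have hlam2 : lam ^ 2 = N / V := Real.sq_sqrt (by positivity)
  have hs := hsc (fun i => (lam : ℂ) * (p i - c))
    (fun i j h => hinj' (mul_left_cancel₀ (by exact_mod_cast hlam0.ne') h)) (by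
      simp only [norm_mul, mul_pow, ← Finset.mul_sum, Complex.norm_real, Real.norm_eq_abs, sq_abs]
      rw [← hV, hlam2]
      field_simp)
  have hd : ∀ i j, ‖(lam : ℂ) * (p i - c) - (lam : ℂ) * (p j - c)‖ = lam * ‖p i - p j‖ := by
    intro i j
    rw [← mul_sub, norm_mul, sub_sub_sub_cancel_right, Complex.norm_real, Real.norm_eq_abs,
      abs_of_pos hlam0]
  simp only [hd] at hs
  set S1 := ∑ i, ∑ j ∈ Finset.univ.erase i, 1 / ‖p i - p j‖ with hS1
  set S3 := ∑ i, ∑ j ∈ Finset.univ.erase i, 1 / ‖p i - p j‖ ^ 3 with hS3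
  have e1 : ∑ i, ∑ j ∈ Finset.univ.erase i, 1 / (lam * ‖p i - p j‖) = 1 / lam * S1 := by
    rw [hS1]
    simp only [Finset.mul_sum]
    refine Finset.sum_congr rfl fun i _ => Finset.sum_congr rfl fun j _ => ?_
    rw [one_div_mul_one_div]
  have e3 : ∑ i, ∑ j ∈ Finset.univ.erase i, 1 / (lam * ‖p i - p j‖) ^ 3 = 1 / lam ^ 3 * S3 := by
    rw [hS3]
    simp only [Finset.mul_sum]
    refine Finset.sum_congr rfl fun i _ => Finset.sum_congr rfl fun j _ => ?_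
    rw [one_div_mul_one_div, mul_pow]
  rw [e1, e3] at hs
  have h1 : κ * lam ^ 2 * S1 ≤ S3 := by
    have h2 : lam ^ 3 * (κ * (1 / lam * S1)) ≤ lam ^ 3 * (1 / lam ^ 3 * S3) :=
      mul_le_mul_of_nonneg_left hs (by positivity)
    have h3 : lam ^ 3 * (κ * (1 / lam * S1)) = κ * lam ^ 2 * S1 := by field_simp
    have h4 : lam ^ 3 * (1 / lam ^ 3 * S3) = S3 := by field_simp
    rw [h3, h4] at h2
    exact h2
  rw [hlam2] at h1
  rw [hlag]
  have h5 : 2 * N * V * (κ * (N / V) * S1) ≤ 2 * N * V * S3 :=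
    mul_le_mul_of_nonneg_left h1 (by positivity)
  have h6 : 2 * N * V * (κ * (N / V) * S1) = 2 * κ * (N : ℝ) ^ 2 * S1 := by field_simp
  rw [h6] at h5
  exact h5

/-- The key inequality between power sums of the mutual distances, `N ≥ 18`. -/
theorem distance_ineq {N : ℕ} (hN : 18 ≤ N) (p : Fin N → ℂ) (hinj : Function.Injective p) :
    201 / 200 * ((2 * N - 3) * N) * (∑ i, ∑ j ∈ Finset.univ.erase i, 1 / ‖p i - p j‖)
      ≤ (∑ i, ∑ j ∈ Finset.univ.erase i, ‖p i - p j‖ ^ 2)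
        * ∑ i, ∑ j ∈ Finset.univ.erase i, 1 / ‖p i - p j‖ ^ 3 := by
  have hS : 0 ≤ ∑ i, ∑ j ∈ Finset.univ.erase i, 1 / ‖p i - p j‖ :=
    Finset.sum_nonneg fun i _ => Finset.sum_nonneg fun j _ => by positivity
  have hNr : (18 : ℝ) ≤ N := by exact_mod_cast hN
  by_cases h21 : 21 ≤ N
  · refine le_trans (mul_le_mul_of_nonneg_right ?_ hS)
      (unscale (by omega) _ (fun p hp hs => scaledA h21 p hp hs) p hinj)
    nlinarith
  · by_cases h19 : 19 ≤ N
    · refine le_trans (mul_le_mul_of_nonneg_right ?_ hS)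
        (unscale (by omega) _ (fun p hp hs => scaledB h19 p hp hs) p hinj)
      have h20 : (N : ℝ) ≤ 20 := by exact_mod_cast (by omega : N ≤ 20)
      nlinarith
    · refine le_trans (mul_le_mul_of_nonneg_right ?_ hS)
        (unscale (by omega) _ (fun p hp hs => scaledC hN p hp hs) p hinj)
      have h18 : (N : ℝ) ≤ 18 := by exact_mod_cast (by omega : N ≤ 18)
      nlinarith

/-- main theorem, explicit form -/
theorem main {N : ℕ} (hN : 18 ≤ N) {m : Fin N → ℝ} (hm : ∀ j, 0 < m j)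
    (hr : ∀ j k, m j ^ 3 < 201 / 200 * m k ^ 3) {ω : ℝ} {q : Fin N → ℂ} (h : IsRelEq m ω q) :
    ¬ SpectrallyStable m ω q := by
  intro hst
  have hne : Nonempty (Fin N) := ⟨⟨0, by omega⟩⟩
  obtain ⟨ja, -, hja⟩ := Finset.exists_min_image Finset.univ m Finset.univ_nonempty
  obtain ⟨jb, -, hjb⟩ := Finset.exists_max_image Finset.univ m Finset.univ_nonempty
  set a := m ja with ha
  set b := m jb with hb
  have ha0 : 0 < a := hm ja
  have hb0 : 0 < b := hm jb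
  have hab : b ^ 3 < 201 / 200 * a ^ 3 := hr jb ja
  have hT := trace_ineq (by omega) hm h hst
  have hω := omega_formula h
  have hL := lagrange m q (center_of_mass h)
  have hD := distance_ineq hN q h.2.1
  have hω2 : 0 < ω ^ 2 := by have := h.1; positivity
  set M := ∑ j, m j with hM
  set I := ∑ j, m j * ‖q j‖ ^ 2 with hI
  have hM0 : 0 < M := sum_mass_pos (by omega) hm
  have hI0 : 0 < I := inertia_pos (by omega) hm h.2.1
  have hNr : (18 : ℝ) ≤ N := by exact_mod_cast hN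
  -- reorder `q i - q j`
  have hsw : ∀ f : ℝ → ℝ, ∑ j, ∑ k ∈ Finset.univ.erase j, f ‖q k - q j‖
      = ∑ j, ∑ k ∈ Finset.univ.erase j, f ‖q j - q k‖ := by
    intro f
    refine Finset.sum_congr rfl fun j _ => Finset.sum_congr rfl fun k _ => ?_
    rw [norm_sub_rev]
  set S1 := ∑ i, ∑ j ∈ Finset.univ.erase i, 1 / ‖q i - q j‖ with hS1
  set S2 := ∑ i, ∑ j ∈ Finset.univ.erase i, ‖q i - q j‖ ^ 2 with hS2
  set S3 := ∑ i, ∑ j ∈ Finset.univ.erase i, 1 / ‖q i - q j‖ ^ 3 with hS3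
  have hS1' : ∑ j, ∑ k ∈ Finset.univ.erase j, 1 / ‖q k - q j‖ = S1 := hsw (fun x => 1 / x)
  have hS2' : ∑ j, ∑ k ∈ Finset.univ.erase j, ‖q k - q j‖ ^ 2 = S2 := hsw (fun x => x ^ 2)
  have hS3' : ∑ j, ∑ k ∈ Finset.univ.erase j, 1 / ‖q k - q j‖ ^ 3 = S3 := hsw (fun x => 1 / x ^ 3)
  -- bounds
  have b1 : M ≤ N * b := by
    have : ∑ j, m j ≤ ∑ _j : Fin N, b := Finset.sum_le_sum fun j hj => hjb j hj
    simpa using this
  have b2 : ∑ j, ∑ k ∈ Finset.univ.erase j, m j * m k / ‖q k - q j‖ ≤ b ^ 2 * S1 := by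
    rw [← hS1', Finset.mul_sum]
    refine Finset.sum_le_sum fun j hj => ?_
    rw [Finset.mul_sum]
    refine Finset.sum_le_sum fun k hk => ?_
    rw [div_eq_mul_one_div]
    apply mul_le_mul_of_nonneg_right _ (by positivity)
    nlinarith [hjb j hj, hjb k (Finset.mem_univ k), hm j, hm k]
  have b3 : a ^ 2 * S2 ≤ ∑ j, ∑ k ∈ Finset.univ.erase j, m j * m k * ‖q k - q j‖ ^ 2 := by
    rw [← hS2', Finset.mul_sum]
    refine Finset.sum_le_sum fun j hj => ?_
    rw [Finset.mul_sum]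
    refine Finset.sum_le_sum fun k hk => ?_
    apply mul_le_mul_of_nonneg_right _ (by positivity)
    nlinarith [hja j hj, hja k (Finset.mem_univ k), hm j, hm k]
  have b4 : a * S3 ≤ ∑ j, ∑ k ∈ Finset.univ.erase j, m k / ‖q k - q j‖ ^ 3 := by
    rw [← hS3', Finset.mul_sum]
    refine Finset.sum_le_sum fun j hj => ?_
    rw [Finset.mul_sum]
    refine Finset.sum_le_sum fun k hk => ?_
    rw [div_eq_mul_one_div (m k)]
    apply mul_le_mul_of_nonneg_right (hja k (Finset.mem_univ k)) (by positivity)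
  rw [← hω] at b2
  rw [hL] at b3
  -- positivity
  have hS1p : 0 < S1 := by
    by_contra hcon
    push Not at hcon
    nlinarith [mul_pos hω2 hI0, sq_nonneg b]
  have c1 : a * S3 ≤ (2 * N - 3) * ω ^ 2 := b4.trans hT
  have hn3 : (0 : ℝ) < 2 * N - 3 := by linarith
  have hS2nn : 0 ≤ S2 := Finset.sum_nonneg fun i _ => Finset.sum_nonneg fun j _ => by positivity
  -- a^3 S2 S3 ≤ (2N-3) ω² a² S2 ≤ (2N-3) ω² 2 M I ≤ (2N-3) M b² S1 ≤ (2N-3) N b³ S1
  have c2 : a ^ 3 * (S2 * S3) ≤ (2 * N - 3) * ω ^ 2 * (a ^ 2 * S2) := by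
    have := mul_le_mul_of_nonneg_right c1 (by positivity : 0 ≤ a ^ 2 * S2)
    calc a ^ 3 * (S2 * S3) = a * S3 * (a ^ 2 * S2) := by ring
      _ ≤ _ := this
  have c3 : (2 * N - 3) * ω ^ 2 * (a ^ 2 * S2) ≤ (2 * N - 3) * ω ^ 2 * (2 * M * I) :=
    mul_le_mul_of_nonneg_left b3 (by positivity)
  have c4 : (2 * N - 3) * ω ^ 2 * (2 * M * I) ≤ (2 * N - 3) * M * (b ^ 2 * S1) := by
    have := mul_le_mul_of_nonneg_left b2 (by positivity : 0 ≤ (2 * N - 3) * M)
    calc (2 * N - 3) * ω ^ 2 * (2 * M * I) = (2 * N - 3) * M * (2 * ω ^ 2 * I) := by ring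
      _ ≤ _ := this
  have c5 : (2 * N - 3) * M * (b ^ 2 * S1) ≤ (2 * N - 3) * (N * b) * (b ^ 2 * S1) := by
    apply mul_le_mul_of_nonneg_right _ (by positivity)
    exact mul_le_mul_of_nonneg_left b1 hn3.le
  have c6 : (2 * N - 3) * (N * b) * (b ^ 2 * S1) = ((2 * N - 3) * N * S1) * b ^ 3 := by ring
  have c7 : ((2 * N - 3) * N * S1) * b ^ 3 < ((2 * N - 3) * N * S1) * (201 / 200 * a ^ 3) :=
    mul_lt_mul_of_pos_left hab (by positivity)
  have c8 : a ^ 3 * (201 / 200 * ((2 * N - 3) * N) * S1) ≤ a ^ 3 * (S2 * S3) :=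
    mul_le_mul_of_nonneg_left hD (by positivity)
  have c9 : ((2 * N - 3) * N * S1) * (201 / 200 * a ^ 3) = a ^ 3 * (201 / 200 * ((2 * N - 3) * N) * S1) := by ring
  linarith

end Pool.Agent.RelEq624
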