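import Mathlib
import Pool.Agent.RelEq624.Defs
import Pool.Agent.RelEq624.Analysis
import Pool.Agent.RelEq624.Dynamics

/-!
# Mass concentration in spectrally stable relative equilibria
-/

set_option autoImplicit false

open MeasureTheory Real Set

namespace Pool.Agent.RelEq624

/-- Cauchy–Schwarz against a Gaussian, weighted version. -/
lemma theta_ge_w {N : ℕ} (p : Fin N → ℂ) (w : Fin N → ℝ) {t β : ℝ} (ht : 0 < t) (hβ : 0 < β) :
    8 * t * β / (2 * t + β) ^ 2 * (∑ i, w i * rexp (-(2 * t * β / (2 * t + β) * ‖p i‖ ^ 2))) ^ 2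
      ≤ ∑ i, ∑ j, w i * w j * rexp (-(t * ‖p i - p j‖ ^ 2)) := by
  have h2 : (2 * t + β) ≠ 0 := by positivity
  set A := ∑ i, w i * rexp (-(2 * t * β / (2 * t + β) * ‖p i‖ ^ 2)) with hA
  set lam := 2 * β * A / (2 * t + β) with hlam
  set θ := ∑ i, ∑ j, w i * w j * rexp (-(t * ‖p i - p j‖ ^ 2)) with hθ
  -- expansion of the square
  have hexp : ∀ z : ℂ, ((∑ i, w i * rexp (-(2 * t) * ‖z - p i‖ ^ 2)) - lam * rexp (-β * ‖z‖ ^ 2)) ^ 2
      = (∑ i, ∑ j, w i * w j * rexp (-(4 * t) * ‖z - (p i + p j) / 2‖ ^ 2 + (-(t * ‖p i - p j‖ ^ 2))))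
        - 2 * lam * (∑ i, w i * rexp (-(2 * t + β) * ‖z - ((2 * t / (2 * t + β) : ℝ) : ℂ) * p i‖ ^ 2
          + (-(2 * t * β / (2 * t + β) * ‖p i‖ ^ 2))))
        + lam ^ 2 * rexp (-(2 * β) * ‖z - 0‖ ^ 2 + 0) := by
    intro z
    have e1 : (∑ i, w i * rexp (-(2 * t) * ‖z - p i‖ ^ 2)) ^ 2
        = ∑ i, ∑ j, w i * w j * rexp (-(4 * t) * ‖z - (p i + p j) / 2‖ ^ 2 + (-(t * ‖p i - p j‖ ^ 2))) := by
      rw [sq, Finset.sum_mul_sum]
      refine Finset.sum_congr rfl fun i _ => Finset.sum_congr rfl fun j _ => ?_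
      rw [← gauss_pair]; ring
    have e2 : (∑ i, w i * rexp (-(2 * t) * ‖z - p i‖ ^ 2)) * rexp (-β * ‖z‖ ^ 2)
        = ∑ i, w i * rexp (-(2 * t + β) * ‖z - ((2 * t / (2 * t + β) : ℝ) : ℂ) * p i‖ ^ 2
          + (-(2 * t * β / (2 * t + β) * ‖p i‖ ^ 2))) := by
      rw [Finset.sum_mul]
      refine Finset.sum_congr rfl fun i _ => ?_
      rw [← gauss_cross t β h2]; ring
    have e3 : rexp (-β * ‖z‖ ^ 2) ^ 2 = rexp (-(2 * β) * ‖z - 0‖ ^ 2 + 0) := by
      rw [← Real.exp_nat_mul]; congr 1; simp; ring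
    rw [← e1, ← e2, ← e3]
    ring
  have hint : ∫ z : ℂ, ((∑ i, w i * rexp (-(2 * t) * ‖z - p i‖ ^ 2)) - lam * rexp (-β * ‖z‖ ^ 2)) ^ 2
      = π / (4 * t) * θ - 2 * lam * (π / (2 * t + β) * A) + lam ^ 2 * (π / (2 * β)) := by
    simp_rw [hexp]
    have i0 : ∀ i j : Fin N, Integrable (fun z : ℂ => w i * w j * rexp (-(4 * t) * ‖z - (p i + p j) / 2‖ ^ 2 + (-(t * ‖p i - p j‖ ^ 2)))) :=
      fun i j => (gauss_integrable (by positivity) _ _).const_mul _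
    have i0' : ∀ i : Fin N, Integrable (fun z : ℂ => w i * rexp (-(2 * t + β) * ‖z - ((2 * t / (2 * t + β) : ℝ) : ℂ) * p i‖ ^ 2
          + (-(2 * t * β / (2 * t + β) * ‖p i‖ ^ 2)))) :=
      fun i => (gauss_integrable (by positivity) _ _).const_mul _
    have i1 : Integrable (fun z : ℂ => ∑ i, ∑ j, w i * w j * rexp (-(4 * t) * ‖z - (p i + p j) / 2‖ ^ 2 + (-(t * ‖p i - p j‖ ^ 2)))) :=
      integrable_finsetSum _ fun i _ => integrable_finsetSum _ fun j _ => i0 i j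
    have i2 : Integrable (fun z : ℂ => ∑ i, w i * rexp (-(2 * t + β) * ‖z - ((2 * t / (2 * t + β) : ℝ) : ℂ) * p i‖ ^ 2
          + (-(2 * t * β / (2 * t + β) * ‖p i‖ ^ 2)))) :=
      integrable_finsetSum _ fun i _ => i0' i
    have i3 : Integrable (fun z : ℂ => rexp (-(2 * β) * ‖z - 0‖ ^ 2 + 0)) :=
      gauss_integrable (by positivity) _ _
    have i12 : Integrable (fun z : ℂ => (∑ i, ∑ j, w i * w j * rexp (-(4 * t) * ‖z - (p i + p j) / 2‖ ^ 2 + (-(t * ‖p i - p j‖ ^ 2))))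
        - 2 * lam * (∑ i, w i * rexp (-(2 * t + β) * ‖z - ((2 * t / (2 * t + β) : ℝ) : ℂ) * p i‖ ^ 2
          + (-(2 * t * β / (2 * t + β) * ‖p i‖ ^ 2))))) := i1.sub (i2.const_mul _)
    rw [integral_add i12 (i3.const_mul _), integral_sub i1 (i2.const_mul _),
      integral_const_mul, integral_const_mul, gauss_integral (by positivity)]
    rw [integral_finsetSum _ (fun i _ => integrable_finsetSum _ fun j _ => i0 i j),
      integral_finsetSum _ (fun i _ => i0' i)]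
    congr 1
    · congr 1
      · rw [hθ, Finset.mul_sum]
        refine Finset.sum_congr rfl fun i _ => ?_
        rw [integral_finsetSum _ (fun j _ => i0 i j), Finset.mul_sum]
        refine Finset.sum_congr rfl fun j _ => ?_
        rw [integral_const_mul, gauss_integral (by positivity)]
        ring
      · congr 1
        rw [hA, Finset.mul_sum]
        refine Finset.sum_congr rfl fun i _ => ?_
        rw [integral_const_mul, gauss_integral (by positivity)]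
        ring
    · simp
  have hnn : 0 ≤ ∫ z : ℂ, ((∑ i, w i * rexp (-(2 * t) * ‖z - p i‖ ^ 2)) - lam * rexp (-β * ‖z‖ ^ 2)) ^ 2 :=
    integral_nonneg fun z => sq_nonneg _
  rw [hint] at hnn
  have hpi := Real.pi_pos
  have key : π / (4 * t) * θ - 2 * lam * (π / (2 * t + β) * A) + lam ^ 2 * (π / (2 * β))
      = π / (4 * t) * (θ - 8 * t * β / (2 * t + β) ^ 2 * A ^ 2) := by
    rw [hlam]; field_simp; ring
  rw [key] at hnn
  have := nonneg_of_mul_nonneg_right hnn (by positivity)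
  linarith

/-- `e^{-y²} ≥ 1 - (3/4) y` -/
lemma gauss_lin {y : ℝ} (hy : 0 ≤ y) : 1 - 3 / 4 * y ≤ rexp (-y ^ 2) := by
  by_cases h1 : y ≤ 3 / 4
  · have := Real.add_one_le_exp (-y ^ 2)
    nlinarith
  · push Not at h1
    by_cases h2 : y ≤ 4 / 3
    · have e1 : rexp (-y ^ 2) = rexp (-1) * rexp (1 - y ^ 2) := by
        rw [← Real.exp_add]; congr 1; ring
      have e2 := Real.add_one_le_exp (1 - y ^ 2)
      have e3 : (9 / 25 : ℝ) ≤ rexp (-1) := by
        rw [Real.exp_neg, le_inv_comm₀ (by norm_num) (Real.exp_pos _)]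
        have := Real.exp_one_lt_d9
        norm_num
        linarith
      have e4 : 0 ≤ 2 - y ^ 2 := by nlinarith
      rw [e1]
      calc 1 - 3 / 4 * y ≤ 9 / 25 * (2 - y ^ 2) := by nlinarith
        _ ≤ rexp (-1) * (2 - y ^ 2) := mul_le_mul_of_nonneg_right e3 e4
        _ ≤ rexp (-1) * rexp (1 - y ^ 2) :=
          mul_le_mul_of_nonneg_left (by linarith) (Real.exp_pos _).le
    · push Not at h2
      have := Real.exp_pos (-y ^ 2)
      linarith

/-- `x³ ≤ (25/144) e^{2x}` -/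
lemma cube_le_exp {x : ℝ} (hx : 0 ≤ x) : x ^ 3 ≤ 25 / 144 * rexp (2 * x) := by
  have h1 : rexp 1 * (2 * x / 3) ≤ rexp (2 * x / 3) := by
    have h := Real.add_one_le_exp (2 * x / 3 - 1)
    have e : rexp (2 * x / 3) = rexp 1 * rexp (2 * x / 3 - 1) := by
      rw [← Real.exp_add]; congr 1; ring
    rw [e]
    exact mul_le_mul_of_nonneg_left (by linarith) (Real.exp_pos _).le
  have h2 : (rexp 1 * (2 * x / 3)) ^ 3 ≤ (rexp (2 * x / 3)) ^ 3 :=
    pow_le_pow_left₀ (by positivity) h1 3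
  have h3 : (rexp (2 * x / 3)) ^ 3 = rexp (2 * x) := by
    rw [← Real.exp_nat_mul]; congr 1; push_cast; ring
  rw [h3] at h2
  have h4 : (2.7182818283 : ℝ) ^ 3 ≤ rexp 1 ^ 3 :=
    pow_le_pow_left₀ (by norm_num) Real.exp_one_gt_d9.le 3
  have h5 : (144 / 25 : ℝ) ≤ 8 / 27 * rexp 1 ^ 3 := by
    have : (144 / 25 : ℝ) ≤ 8 / 27 * (2.7182818283 : ℝ) ^ 3 := by norm_num
    linarith
  have h6 : (144 / 25 : ℝ) * x ^ 3 ≤ rexp (2 * x) := by
    calc (144 / 25 : ℝ) * x ^ 3 ≤ 8 / 27 * rexp 1 ^ 3 * x ^ 3 :=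
          mul_le_mul_of_nonneg_right h5 (by positivity)
      _ = (rexp 1 * (2 * x / 3)) ^ 3 := by ring
      _ ≤ _ := h2
  linarith

/-- `12/5 · v³ e^{-v² r²} ≤ 1/r³` -/
lemma inv_cube_ge {v r : ℝ} (hr : 0 < r) :
    12 / 5 * v ^ 3 * rexp (-(v ^ 2 * r ^ 2)) ≤ 1 / r ^ 3 := by
  rw [le_div_iff₀ (by positivity)]
  have h1 := cube_le_exp (x := v ^ 2 * r ^ 2) (by positivity)
  have h2 : (12 / 5 * v ^ 3 * rexp (-(v ^ 2 * r ^ 2)) * r ^ 3) ^ 2 ≤ 1 ^ 2 := by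
    have e : (12 / 5 * v ^ 3 * rexp (-(v ^ 2 * r ^ 2)) * r ^ 3) ^ 2
        = 144 / 25 * (v ^ 2 * r ^ 2) ^ 3 * rexp (-(2 * (v ^ 2 * r ^ 2))) := by
      have : rexp (-(2 * (v ^ 2 * r ^ 2))) = rexp (-(v ^ 2 * r ^ 2)) ^ 2 := by
        rw [← Real.exp_nat_mul]; congr 1; push_cast; ring
      rw [this]; ring
    rw [e]
    have h3 : rexp (2 * (v ^ 2 * r ^ 2)) * rexp (-(2 * (v ^ 2 * r ^ 2))) = 1 := by
      rw [← Real.exp_add]; simp
    calc 144 / 25 * (v ^ 2 * r ^ 2) ^ 3 * rexp (-(2 * (v ^ 2 * r ^ 2)))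
        ≤ 144 / 25 * (25 / 144 * rexp (2 * (v ^ 2 * r ^ 2))) * rexp (-(2 * (v ^ 2 * r ^ 2))) := by
          gcongr
      _ = rexp (2 * (v ^ 2 * r ^ 2)) * rexp (-(2 * (v ^ 2 * r ^ 2))) := by ring
      _ = 1 ^ 2 := by rw [h3]; norm_num
  exact abs_le_of_sq_le_sq' h2 (by norm_num) |>.2

/-- AM-GM: `1/r² ≤ (2/3) s/r³ + 1/(3 s²)` -/
lemma amgm {s r : ℝ} (hs : 0 < s) (hr : 0 < r) : 1 / r ^ 2 ≤ 2 / 3 * s * (1 / r ^ 3) + 1 / (3 * s ^ 2) := by
  have : 2 / 3 * s * (1 / r ^ 3) + 1 / (3 * s ^ 2) - 1 / r ^ 2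
      = (s - r) ^ 2 * (2 * s + r) / (3 * s ^ 2 * r ^ 3) := by
    field_simp; ring
  have h2 : 0 ≤ (s - r) ^ 2 * (2 * s + r) / (3 * s ^ 2 * r ^ 3) := by positivity
  linarith

/-- weighted sum over pairs: lower bound of `∑ w_i w_j / r³` -/
lemma pair_lower {N : ℕ} (p : Fin N → ℂ) (hinj : Function.Injective p) (w : Fin N → ℝ)
    (hw : ∀ i, 0 ≤ w i) {A : ℝ} (hA0 : 0 < A) (hA : ∑ i, w i * ‖p i‖ ≤ A)
    (hD0 : 0 < ∑ i, w i ^ 2) (hW0 : 0 < ∑ i, w i) (hneff : 36 * ∑ i, w i ^ 2 ≤ (∑ i, w i) ^ 2) :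
    (21 / 5) ^ 2 * (2 * (∑ i, w i) ^ 4 / (27 * A ^ 2 * ∑ i, w i ^ 2)) ^ 3 * (∑ i, w i ^ 2) ^ 2
      ≤ (∑ i, ∑ j ∈ Finset.univ.erase i, w i * w j / ‖p i - p j‖ ^ 3) ^ 2 := by
  set W := ∑ i, w i with hW
  set D := ∑ i, w i ^ 2 with hD
  set t := 2 * W ^ 4 / (27 * A ^ 2 * D) with ht
  have ht0 : 0 < t := by positivity
  set v := √t with hv
  have hv0 : 0 < v := Real.sqrt_pos.2 ht0
  have hv2 : v ^ 2 = t := Real.sq_sqrt ht0.le
  set u := 1 - 6 * D / W ^ 2 with hu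
  have hDW : 6 * D / W ^ 2 ≤ 1 / 6 := by
    rw [div_le_iff₀ (by positivity)]; linarith
  have hDW0 : 0 < 6 * D / W ^ 2 := by positivity
  have hu1 : u < 1 := by linarith
  have hu0 : 5 / 6 ≤ u := by linarith
  set β := 2 * t * (1 - u) / (1 + u) with hβ
  have h1u : 0 < 1 - u := by linarith
  have h1u' : 0 < 1 + u := by linarith
  have hβ0 : 0 < β := by positivity
  have h := theta_ge_w p w ht0 hβ0
  have e0 : 2 * t + β = 4 * t / (1 + u) := by rw [hβ]; field_simp; ring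
  have e1 : 2 * t * β / (2 * t + β) = t * (1 - u) := by rw [e0, hβ]; field_simp; ring
  have e2 : 8 * t * β / (2 * t + β) ^ 2 = 1 - u ^ 2 := by rw [e0, hβ]; field_simp; ring
  set b := 2 * W / (3 * A) with hb
  have hb0 : 0 < b := by positivity
  have e3 : t * (1 - u) = b ^ 2 := by
    rw [ht, hu, hb]; field_simp; ring
  rw [e1, e2, e3] at h
  -- lower bound of the Gaussian sum
  have hG : W / 2 ≤ ∑ i, w i * rexp (-(b ^ 2 * ‖p i‖ ^ 2)) := by
    have h1 : ∀ i, w i * (1 - 3 / 4 * (b * ‖p i‖)) ≤ w i * rexp (-(b ^ 2 * ‖p i‖ ^ 2)) := by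
      intro i
      apply mul_le_mul_of_nonneg_left _ (hw i)
      have := gauss_lin (y := b * ‖p i‖) (by positivity)
      rw [show -(b * ‖p i‖) ^ 2 = -(b ^ 2 * ‖p i‖ ^ 2) by ring] at this
      exact this
    have h2 : ∑ i, w i * (1 - 3 / 4 * (b * ‖p i‖)) = W - 3 / 4 * b * ∑ i, w i * ‖p i‖ := by
      rw [hW, Finset.mul_sum, ← Finset.sum_sub_distrib]
      exact Finset.sum_congr rfl fun i _ => by ring
    have h3 : 3 / 4 * b * ∑ i, w i * ‖p i‖ ≤ W / 2 := by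
      calc 3 / 4 * b * ∑ i, w i * ‖p i‖ ≤ 3 / 4 * b * A :=
            mul_le_mul_of_nonneg_left hA (by positivity)
        _ = W / 2 := by rw [hb]; field_simp; ring
    calc W / 2 ≤ W - 3 / 4 * b * ∑ i, w i * ‖p i‖ := by linarith
      _ = ∑ i, w i * (1 - 3 / 4 * (b * ‖p i‖)) := h2.symm
      _ ≤ _ := Finset.sum_le_sum fun i _ => h1 i
  have hΘ : 11 / 4 * D ≤ ∑ i, ∑ j, w i * w j * rexp (-(t * ‖p i - p j‖ ^ 2)) := by
    refine le_trans ?_ h
    have h5 : 0 ≤ 1 - u ^ 2 := by nlinarith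
    have h6 : (W / 2) ^ 2 ≤ (∑ i, w i * rexp (-(b ^ 2 * ‖p i‖ ^ 2))) ^ 2 :=
      pow_le_pow_left₀ (by positivity) hG 2
    calc 11 / 4 * D ≤ (1 - u ^ 2) * (W / 2) ^ 2 := by
          have e4 : (1 - u ^ 2) * (W / 2) ^ 2 = 3 * D - 3 / 2 * D * (6 * D / W ^ 2) := by
            rw [hu]; field_simp; ring
          rw [e4]
          nlinarith
      _ ≤ _ := mul_le_mul_of_nonneg_left h6 h5
  -- remove the diagonal
  have hdiag : ∑ i, ∑ j, w i * w j * rexp (-(t * ‖p i - p j‖ ^ 2))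
      = D + ∑ i, ∑ j ∈ Finset.univ.erase i, w i * w j * rexp (-(t * ‖p i - p j‖ ^ 2)) := by
    rw [hD, ← Finset.sum_add_distrib]
    refine Finset.sum_congr rfl fun i _ => ?_
    rw [← Finset.add_sum_erase Finset.univ _ (Finset.mem_univ i)]
    simp; ring
  have hoff : 7 / 4 * D ≤ ∑ i, ∑ j ∈ Finset.univ.erase i, w i * w j * rexp (-(t * ‖p i - p j‖ ^ 2)) := by
    linarith
  have hfin : 21 / 5 * v ^ 3 * D ≤ ∑ i, ∑ j ∈ Finset.univ.erase i, w i * w j / ‖p i - p j‖ ^ 3 := by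
    calc 21 / 5 * v ^ 3 * D = 12 / 5 * v ^ 3 * (7 / 4 * D) := by ring
      _ ≤ 12 / 5 * v ^ 3 * ∑ i, ∑ j ∈ Finset.univ.erase i, w i * w j * rexp (-(t * ‖p i - p j‖ ^ 2)) :=
          mul_le_mul_of_nonneg_left hoff (by positivity)
      _ = ∑ i, ∑ j ∈ Finset.univ.erase i, w i * w j * (12 / 5 * v ^ 3 * rexp (-(v ^ 2 * ‖p i - p j‖ ^ 2))) := by
          rw [hv2, Finset.mul_sum]
          refine Finset.sum_congr rfl fun i _ => ?_
          rw [Finset.mul_sum]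
          exact Finset.sum_congr rfl fun j _ => by ring
      _ ≤ _ := by
          refine Finset.sum_le_sum fun i _ => Finset.sum_le_sum fun j hj => ?_
          have hr : 0 < ‖p i - p j‖ := by
            rw [norm_pos_iff, sub_ne_zero]
            exact fun h => (Finset.ne_of_mem_erase hj) (hinj h).symm
          have h7 := inv_cube_ge (v := v) hr
          rw [div_eq_mul_one_div (w i * w j)]
          exact mul_le_mul_of_nonneg_left h7 (mul_nonneg (hw i) (hw j))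
  have h8 := pow_le_pow_left₀ (by positivity) hfin 2
  calc (21 / 5) ^ 2 * t ^ 3 * D ^ 2 = (21 / 5 * v ^ 3 * D) ^ 2 := by rw [← hv2]; ring
    _ ≤ _ := h8

/-- `ω² |q_j| ≤ (2/3) s ∑ m_k/r³ + M/(3s²)` -/
lemma radius_bound {N : ℕ} {m : Fin N → ℝ} {ω : ℝ} {q : Fin N → ℂ} (hm : ∀ j, 0 < m j)
    (h : IsRelEq m ω q) {s : ℝ} (hs : 0 < s) (j : Fin N) :
    ω ^ 2 * ‖q j‖ ≤ 2 / 3 * s * ∑ k ∈ Finset.univ.erase j, m k / ‖q k - q j‖ ^ 3
      + (∑ k, m k) / (3 * s ^ 2) := by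
  have h1 : ω ^ 2 * ‖q j‖ = ‖accel m q j‖ := by
    rw [relEq_eq h j, norm_mul, norm_neg, norm_pow, Complex.norm_real, Real.norm_eq_abs, sq_abs]
  rw [h1]
  have h2 : ‖accel m q j‖ ≤ ∑ k ∈ Finset.univ.erase j,
      (2 / 3 * s * (m k / ‖q k - q j‖ ^ 3) + m k / (3 * s ^ 2)) := by
    refine (norm_sum_le _ _).trans (Finset.sum_le_sum fun k hk => ?_)
    have hr : 0 < ‖q k - q j‖ := by
      rw [norm_pos_iff, sub_ne_zero]
      exact fun hh => (Finset.ne_of_mem_erase hk) (h.2.1 hh)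
    rw [norm_mul, Complex.norm_real, Real.norm_of_nonneg (by have := hm k; positivity)]
    have h3 := amgm hs hr
    calc m k / ‖q k - q j‖ ^ 3 * ‖q k - q j‖ = m k * (1 / ‖q k - q j‖ ^ 2) := by field_simp
      _ ≤ m k * (2 / 3 * s * (1 / ‖q k - q j‖ ^ 3) + 1 / (3 * s ^ 2)) :=
          mul_le_mul_of_nonneg_left h3 (hm k).le
      _ = _ := by ring
  refine h2.trans ?_
  rw [Finset.sum_add_distrib, ← Finset.mul_sum]
  have h4 : ∑ k ∈ Finset.univ.erase j, m k / (3 * s ^ 2) ≤ (∑ k, m k) / (3 * s ^ 2) := by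
    rw [← Finset.sum_div]
    apply div_le_div_of_nonneg_right _ (by positivity)
    exact Finset.sum_le_sum_of_subset_of_nonneg (Finset.erase_subset _ _) fun k _ _ => (hm k).le
  linarith

/-- **Weighted mass inequality.** -/
theorem mass_ineq {N : ℕ} (hN : 2 ≤ N) {m : Fin N → ℝ} {ω : ℝ} {q : Fin N → ℂ}
    (hm : ∀ j, 0 < m j) (h : IsRelEq m ω q) (hst : SpectrallyStable m ω q)
    (w : Fin N → ℝ) (hw0 : ∀ i, 0 ≤ w i) {c : ℝ} (hc : 0 < c) (hwc : ∀ i, w i ≤ c)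
    (hwm : ∀ i, w i ^ 2 ≤ m i) :
    (∑ i, w i) ^ 10 ≤ 9000 * (N : ℝ) ^ 6 * c ^ 4 * (∑ i, w i ^ 2) * (∑ i, m i) ^ 2 := by
  set W := ∑ i, w i with hW
  set D := ∑ i, w i ^ 2 with hD
  set M := ∑ i, m i with hM
  have hM0 : 0 < M := sum_mass_pos hN hm
  have hNr : (2 : ℝ) ≤ N := by exact_mod_cast hN
  have hN0 : (0 : ℝ) < N := by linarith
  have hD0' : 0 ≤ D := Finset.sum_nonneg fun i _ => sq_nonneg _
  have hW0' : 0 ≤ W := Finset.sum_nonneg fun i _ => hw0 i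
  rcases eq_or_lt_of_le hW0' with hWz | hW0
  · have h0 : W ^ 10 = 0 := by rw [← hWz]; norm_num
    rw [h0]; positivity
  have hD0 : 0 < D := by
    rcases eq_or_lt_of_le hD0' with hDz | hDp
    · exfalso
      have h1 := (Finset.sum_eq_zero_iff_of_nonneg fun i _ => sq_nonneg (w i)).1 hDz.symm
      have h2 : W = 0 := Finset.sum_eq_zero fun i hi => pow_eq_zero_iff (two_ne_zero) |>.1 (h1 i hi)
      linarith
    · exact hDp
  have hDM : D ≤ M := Finset.sum_le_sum fun i _ => hwm i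
  have hDc : D ≤ N * c ^ 2 := by
    calc D ≤ ∑ _i : Fin N, c ^ 2 := Finset.sum_le_sum fun i _ => pow_le_pow_left₀ (hw0 i) (hwc i) 2
      _ = N * c ^ 2 := by simp
  have hCS : W ^ 2 ≤ N * D := by
    have := sq_sum_le_card_mul_sum_sq (s := (Finset.univ : Finset (Fin N))) (f := w)
    simpa using this
  by_cases hneff : 36 * D ≤ W ^ 2
  · have hω0 : ω ≠ 0 := h.1
    have hω2 : 0 < ω ^ 2 := by positivity
    have hT := trace_ineq hN hm h hst
    set T := ∑ j, ∑ k ∈ Finset.univ.erase j, m k / ‖q k - q j‖ ^ 3 with hTd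
    have hT2 : T ≤ 2 * N * ω ^ 2 := by nlinarith
    have hT0 : 0 ≤ T := Finset.sum_nonneg fun j _ => Finset.sum_nonneg fun k _ => by
      have := hm k; positivity
    -- choose s
    set s := (W * M / (2 * N * c * ω ^ 2)) ^ (1 / 3 : ℝ) with hsdef
    have hbase : 0 < W * M / (2 * N * c * ω ^ 2) := by positivity
    have hs0 : 0 < s := Real.rpow_pos_of_pos hbase _
    have hs3 : s ^ 3 = W * M / (2 * N * c * ω ^ 2) := by
      rw [hsdef, ← Real.rpow_natCast, ← Real.rpow_mul hbase.le]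
      norm_num
    have hWM : W * M = 2 * N * c * ω ^ 2 * s ^ 3 := by rw [hs3]; field_simp
    set A := 2 * N * c * s with hAdef
    have hA0 : 0 < A := by positivity
    have hA : ∑ i, w i * ‖q i‖ ≤ A := by
      have h1 : ω ^ 2 * ∑ i, w i * ‖q i‖ ≤ ω ^ 2 * A := by
        calc ω ^ 2 * ∑ i, w i * ‖q i‖ = ∑ i, w i * (ω ^ 2 * ‖q i‖) := by
              rw [Finset.mul_sum]; exact Finset.sum_congr rfl fun i _ => by ring
          _ ≤ ∑ i, w i * (2 / 3 * s * ∑ k ∈ Finset.univ.erase i, m k / ‖q k - q i‖ ^ 3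
                + M / (3 * s ^ 2)) :=
              Finset.sum_le_sum fun i _ => mul_le_mul_of_nonneg_left (radius_bound hm h hs0 i) (hw0 i)
          _ = 2 / 3 * s * (∑ i, w i * ∑ k ∈ Finset.univ.erase i, m k / ‖q k - q i‖ ^ 3)
                + W * M / (3 * s ^ 2) := by
              have h9 : ∀ i, w i * (2 / 3 * s * ∑ k ∈ Finset.univ.erase i, m k / ‖q k - q i‖ ^ 3
                + M / (3 * s ^ 2)) = 2 / 3 * s * (w i * ∑ k ∈ Finset.univ.erase i, m k / ‖q k - q i‖ ^ 3)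
                + w i * (M / (3 * s ^ 2)) := fun i => by ring
              rw [Finset.sum_congr rfl fun i _ => h9 i, Finset.sum_add_distrib, ← Finset.mul_sum,
                ← Finset.sum_mul, ← hW]
              ring
          _ ≤ 2 / 3 * s * (c * T) + W * M / (3 * s ^ 2) := by
              have : ∑ i, w i * ∑ k ∈ Finset.univ.erase i, m k / ‖q k - q i‖ ^ 3 ≤ c * T := by
                rw [hTd, Finset.mul_sum]
                refine Finset.sum_le_sum fun i _ => mul_le_mul_of_nonneg_right (hwc i) ?_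
                exact Finset.sum_nonneg fun k _ => by have := hm k; positivity
              have h3 : 0 ≤ 2 / 3 * s := by positivity
              have := mul_le_mul_of_nonneg_left this h3
              linarith
          _ ≤ 2 / 3 * s * (c * (2 * N * ω ^ 2)) + W * M / (3 * s ^ 2) := by
              gcongr
          _ = ω ^ 2 * A := by
              rw [hWM, hAdef]; field_simp; ring
      exact le_of_mul_le_mul_left h1 hω2
    have hP := pair_lower q h.2.1 w hw0 hA0 hA hD0 hW0 hneff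
    rw [← hW, ← hD] at hP
    -- the pair sum is at most T
    have hPT : ∑ i, ∑ j ∈ Finset.univ.erase i, w i * w j / ‖q i - q j‖ ^ 3 ≤ T := by
      have h1 : ∑ i, ∑ j ∈ Finset.univ.erase i, w i * w j / ‖q i - q j‖ ^ 3
          ≤ ∑ i, ∑ j ∈ Finset.univ.erase i, (m j / ‖q j - q i‖ ^ 3 / 2 + m i / ‖q i - q j‖ ^ 3 / 2) := by
        refine Finset.sum_le_sum fun i _ => Finset.sum_le_sum fun j hj => ?_
        have hr : 0 < ‖q i - q j‖ := by
          rw [norm_pos_iff, sub_ne_zero]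
          exact fun hh => (Finset.ne_of_mem_erase hj) (h.2.1 hh).symm
        rw [norm_sub_rev (q j) (q i), ← add_div, ← add_div, div_div, mul_comm (‖q i - q j‖ ^ 3) 2,
          ← div_div]
        apply div_le_div_of_nonneg_right _ (by positivity)
        nlinarith [sq_nonneg (w i - w j), hwm i, hwm j]
      have h2 : ∑ i, ∑ j ∈ Finset.univ.erase i, m i / ‖q i - q j‖ ^ 3 = T := by
        rw [hTd, swap_sum (fun j k => m k / ‖q k - q j‖ ^ 3)]
      have h3 : ∑ i, ∑ j ∈ Finset.univ.erase i, (m j / ‖q j - q i‖ ^ 3 / 2 + m i / ‖q i - q j‖ ^ 3 / 2)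
          = T / 2 + T / 2 := by
        simp only [Finset.sum_add_distrib, ← Finset.sum_div]
        rw [h2]
      linarith
    have hP0 : 0 ≤ ∑ i, ∑ j ∈ Finset.univ.erase i, w i * w j / ‖q i - q j‖ ^ 3 :=
      Finset.sum_nonneg fun i _ => Finset.sum_nonneg fun j _ =>
        div_nonneg (mul_nonneg (hw0 i) (hw0 j)) (by positivity)
    have hsq := pow_le_pow_left₀ hP0 (hPT.trans hT2) 2
    have hfinal := hP.trans hsq
    -- algebra
    have hA6 : A ^ 6 = 16 * (N : ℝ) ^ 4 * c ^ 4 * (W * M) ^ 2 / ω ^ 4 := by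
      rw [hWM, hAdef]; field_simp; ring
    have e1 : (21 / 5 : ℝ) ^ 2 * (2 * W ^ 4 / (27 * A ^ 2 * D)) ^ 3 * D ^ 2
        = 3528 / 492075 * W ^ 12 / (A ^ 6 * D) := by
      field_simp; norm_num
    rw [e1, hA6] at hfinal
    have e2 : 3528 / 492075 * W ^ 12 / (16 * (N : ℝ) ^ 4 * c ^ 4 * (W * M) ^ 2 / ω ^ 4 * D)
        = 3528 / 7873200 * W ^ 10 * ω ^ 4 / ((N : ℝ) ^ 4 * c ^ 4 * M ^ 2 * D) := by
      field_simp; ring
    rw [e2, div_le_iff₀ (by positivity)] at hfinal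
    have hω4 : 0 < ω ^ 4 := by
      have : ω ^ 4 = (ω ^ 2) ^ 2 := by ring
      rw [this]; positivity
    have h5 : ω ^ 4 * (3528 / 7873200 * W ^ 10) ≤ ω ^ 4 * (4 * (N : ℝ) ^ 6 * c ^ 4 * M ^ 2 * D) := by
      calc ω ^ 4 * (3528 / 7873200 * W ^ 10) = 3528 / 7873200 * W ^ 10 * ω ^ 4 := by ring
        _ ≤ _ := hfinal
        _ = _ := by ring
    have h6 := le_of_mul_le_mul_left h5 hω4
    have h7 : 0 ≤ (N : ℝ) ^ 6 * c ^ 4 * M ^ 2 * D := by positivity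
    nlinarith
  · push Not at hneff
    have h1 : W ^ 10 ≤ (36 * D) * (N * D) ^ 4 := by
      calc W ^ 10 = W ^ 2 * (W ^ 2) ^ 4 := by ring
        _ ≤ (36 * D) * (N * D) ^ 4 := by
            apply mul_le_mul hneff.le (pow_le_pow_left₀ (by positivity) hCS 4) (by positivity)
              (by positivity)
    have h2 : D ^ 4 ≤ M ^ 2 * (N * c ^ 2) ^ 2 := by
      calc D ^ 4 = D ^ 2 * D ^ 2 := by ring
        _ ≤ M ^ 2 * (N * c ^ 2) ^ 2 :=
            mul_le_mul (pow_le_pow_left₀ hD0.le hDM 2) (pow_le_pow_left₀ hD0.le hDc 2)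
              (by positivity) (by positivity)
    calc W ^ 10 ≤ (36 * D) * (N * D) ^ 4 := h1
      _ = 36 * D * (N : ℝ) ^ 4 * D ^ 4 := by ring
      _ ≤ 36 * D * (N : ℝ) ^ 4 * (M ^ 2 * (N * c ^ 2) ^ 2) :=
          mul_le_mul_of_nonneg_left h2 (by positivity)
      _ = 36 * (N : ℝ) ^ 6 * c ^ 4 * D * M ^ 2 := by ring
      _ ≤ 9000 * (N : ℝ) ^ 6 * c ^ 4 * D * M ^ 2 := by gcongr; norm_num

/-- number of bodies of mass at least `μ` -/
theorem card_ineq {N : ℕ} (hN : 2 ≤ N) {m : Fin N → ℝ} {ω : ℝ} {q : Fin N → ℂ}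
    (hm : ∀ j, 0 < m j) (h : IsRelEq m ω q) (hst : SpectrallyStable m ω q) {μ : ℝ} (hμ : 0 < μ) :
    μ ^ 2 * ((Finset.univ.filter fun j => μ ≤ m j).card : ℝ) ^ 9
      ≤ 9000 * (N : ℝ) ^ 6 * (∑ j, m j) ^ 2 := by
  set S := Finset.univ.filter fun j => μ ≤ m j with hS
  set k : ℝ := (S.card : ℝ) with hk
  have hM0 : 0 < ∑ j, m j := sum_mass_pos hN hm
  rcases Nat.eq_zero_or_pos S.card with h0 | hpos
  · have hkz : k = 0 := by rw [hk, h0]; simp
    have hz : μ ^ 2 * k ^ 9 = 0 := by rw [hkz]; norm_num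
    rw [hz]; positivity
  have hk0 : 0 < k := by rw [hk]; exact_mod_cast hpos
  have hsq : √μ ^ 2 = μ := Real.sq_sqrt hμ.le
  have h1 := mass_ineq hN hm h hst (fun j => if μ ≤ m j then √μ else 0)
    (fun i => by split_ifs <;> positivity) (c := √μ) (Real.sqrt_pos.2 hμ)
    (fun i => by split_ifs; exacts [le_refl _, (Real.sqrt_pos.2 hμ).le])
    (fun i => by
      split_ifs with hi
      · rw [hsq]; exact hi
      · have := (hm i).le; simpa using this)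
  have e1 : ∑ i, (if μ ≤ m i then √μ else 0) = k * √μ := by
    rw [← Finset.sum_filter, Finset.sum_const, nsmul_eq_mul]
  have e2 : ∑ i, (if μ ≤ m i then √μ else 0) ^ 2 = k * μ := by
    have : ∀ i, (if μ ≤ m i then √μ else 0) ^ 2 = if μ ≤ m i then μ else 0 := by
      intro i; split_ifs
      · exact hsq
      · simp
    simp only [this]
    rw [← Finset.sum_filter, Finset.sum_const, nsmul_eq_mul]
  rw [e1, e2] at h1
  have e3 : (k * √μ) ^ 10 = k * μ ^ 3 * (μ ^ 2 * k ^ 9) := by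
    calc (k * √μ) ^ 10 = k ^ 10 * (√μ ^ 2) ^ 5 := by ring
      _ = _ := by rw [hsq]; ring
  have e4 : 9000 * (N : ℝ) ^ 6 * √μ ^ 4 * (k * μ) * (∑ i, m i) ^ 2
      = k * μ ^ 3 * (9000 * (N : ℝ) ^ 6 * (∑ j, m j) ^ 2) := by
    calc 9000 * (N : ℝ) ^ 6 * √μ ^ 4 * (k * μ) * (∑ i, m i) ^ 2
        = 9000 * (N : ℝ) ^ 6 * (√μ ^ 2) ^ 2 * (k * μ) * (∑ i, m i) ^ 2 := by ring
      _ = _ := by rw [hsq]; ring
  rw [e3, e4] at h1
  exact le_of_mul_le_mul_left h1 (by positivity)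

/-- the largest mass -/
theorem max_ineq {N : ℕ} (hN : 2 ≤ N) {m : Fin N → ℝ} {ω : ℝ} {q : Fin N → ℂ}
    (hm : ∀ j, 0 < m j) (h : IsRelEq m ω q) (hst : SpectrallyStable m ω q) {b : ℝ}
    (hb : ∀ j, m j ≤ b) :
    (∑ j, m j) ^ 7 ≤ 9000 * (N : ℝ) ^ 6 * b ^ 7 := by
  have hM0 : 0 < ∑ j, m j := sum_mass_pos hN hm
  set M := ∑ j, m j with hM
  have hb0 : 0 < b := (hm ⟨0, by omega⟩).trans_le (hb _)
  have hsb : √b ^ 2 = b := Real.sq_sqrt hb0.le
  have h1 := mass_ineq hN hm h hst (fun j => √(m j)) (fun i => Real.sqrt_nonneg _) (c := √b)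
    (Real.sqrt_pos.2 hb0) (fun i => Real.sqrt_le_sqrt (hb i)) (fun i => by rw [Real.sq_sqrt (hm i).le])
  have e2 : ∑ i, √(m i) ^ 2 = M := by
    rw [hM]; exact Finset.sum_congr rfl fun i _ => Real.sq_sqrt (hm i).le
  rw [e2, ← hM] at h1
  set W := ∑ i, √(m i) with hW
  have hMW : M ≤ W * √b := by
    rw [hM, hW, Finset.sum_mul]
    refine Finset.sum_le_sum fun i _ => ?_
    calc m i = √(m i) * √(m i) := (Real.mul_self_sqrt (hm i).le).symm
      _ ≤ √(m i) * √b := mul_le_mul_of_nonneg_left (Real.sqrt_le_sqrt (hb i)) (Real.sqrt_nonneg _)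
  have h2 : M ^ 10 ≤ (W * √b) ^ 10 := pow_le_pow_left₀ hM0.le hMW 10
  have h3 : (W * √b) ^ 10 = W ^ 10 * b ^ 5 := by
    calc (W * √b) ^ 10 = W ^ 10 * (√b ^ 2) ^ 5 := by ring
      _ = _ := by rw [hsb]
  have h4 : M ^ 3 * M ^ 7 ≤ M ^ 3 * (9000 * (N : ℝ) ^ 6 * b ^ 7) := by
    calc M ^ 3 * M ^ 7 = M ^ 10 := by ring
      _ ≤ W ^ 10 * b ^ 5 := by rw [← h3]; exact h2
      _ ≤ (9000 * (N : ℝ) ^ 6 * √b ^ 4 * M * M ^ 2) * b ^ 5 :=
          mul_le_mul_of_nonneg_right h1 (by positivity)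
      _ = 9000 * (N : ℝ) ^ 6 * (√b ^ 2) ^ 2 * M ^ 3 * b ^ 5 := by ring
      _ = _ := by rw [hsb]; ring
  exact le_of_mul_le_mul_left h4 (by positivity)

end Pool.Agent.RelEq624
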