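import Mathlib
import Pool.Agent.RelEq624.Defs
import Pool.Agent.RelEq624.Dynamics

/-!
# Linear stability in the reduced system

Linear stability of a relative equilibrium, in the reduced system (centre of mass and linear
momentum zero, angular momentum fixed, quotient by rotations), implies spectral stability in the
rotating frame.
-/

set_option autoImplicit false

namespace Pool.Agent.RelEq624

open Complex

/-- Angular momentum `∑ m_j Im (conj x_j · x_j')` expressed in the rotating coordinates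
`x_j = e^{iωt} z_j`, `w = z'` (so that `x_j' = e^{iωt} (w_j + iω z_j)`). -/
noncomputable def angMom {N : ℕ} (m : Fin N → ℝ) (ω : ℝ) (s : (Fin N → ℂ) × (Fin N → ℂ)) : ℝ :=
  ∑ j, m j * (starRingEnd ℂ (s.1 j) * (s.2 j + Complex.I * ω * s.1 j)).im

/-- Linear momentum `∑ m_j x_j'` in the rotating coordinates (up to the factor `e^{iωt}`). -/
noncomputable def linMom {N : ℕ} (m : Fin N → ℝ) (ω : ℝ) (s : (Fin N → ℂ) × (Fin N → ℂ)) : ℂ :=
  ∑ j, (m j : ℂ) * (s.2 j + Complex.I * ω * s.1 j)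

/-- `v` is tangent, at the relative equilibrium `(q, 0)`, to the reduced level set: centre of mass
and linear momentum are zero and the angular momentum is fixed (its derivative in the direction
`v` vanishes). -/
def ReducedTangent {N : ℕ} (m : Fin N → ℝ) (ω : ℝ) (q : Fin N → ℂ)
    (v : (Fin N → ℂ) × (Fin N → ℂ)) : Prop :=
  ∑ j, (m j : ℂ) * v.1 j = 0 ∧ linMom m ω v = 0 ∧
    deriv (fun s : ℝ => angMom m ω ((q, 0) + s • v)) 0 = 0

/-- The direction of the rotation group orbit through `(q, 0)`. -/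
noncomputable def rotDir {N : ℕ} (q : Fin N → ℂ) : (Fin N → ℂ) × (Fin N → ℂ) :=
  (fun j => Complex.I * q j, 0)

/-- Linear stability of the relative equilibrium in the reduced system: every solution of the
linearised equations which is tangent to the reduced level set stays, for all times, at bounded
distance from the line spanned by the rotation direction (that is, it is bounded in the quotient by
the rotations). -/
def LinearlyStable {N : ℕ} (m : Fin N → ℝ) (ω : ℝ) (q : Fin N → ℂ) : Prop :=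
  ∀ y : ℝ → (Fin N → ℂ) × (Fin N → ℂ),
    (∀ t, HasDerivAt y (fderiv ℝ (rotField m ω) (q, 0) (y t)) t) → ReducedTangent m ω q (y 0) →
    ∃ C : ℝ, ∀ t, ∃ c : ℝ, ‖y t - c • rotDir q‖ ≤ C

/-- the derivative of the angular momentum -/
noncomputable def gfun {N : ℕ} (m : Fin N → ℝ) (ω : ℝ) (q : Fin N → ℂ)
    (v : (Fin N → ℂ) × (Fin N → ℂ)) : ℝ :=
  ∑ j, m j * ((starRingEnd ℂ (q j) * v.2 j).im + 2 * ω * (starRingEnd ℂ (q j) * v.1 j).re)

lemma deriv_angMom {N : ℕ} (m : Fin N → ℝ) (ω : ℝ) (q : Fin N → ℂ)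
    (v : (Fin N → ℂ) × (Fin N → ℂ)) :
    deriv (fun s : ℝ => angMom m ω ((q, 0) + s • v)) 0 = gfun m ω q v := by
  have e : (fun s : ℝ => angMom m ω ((q, 0) + s • v)) = fun s : ℝ =>
      (∑ j, m j * (ω * ((q j).re ^ 2 + (q j).im ^ 2))) + s * gfun m ω q v
        + s ^ 2 * (∑ j, m j * (starRingEnd ℂ (v.1 j) * (v.2 j + Complex.I * ω * v.1 j)).im) := by
    funext s
    simp only [angMom, gfun, Finset.mul_sum]
    rw [← Finset.sum_add_distrib, ← Finset.sum_add_distrib]
    refine Finset.sum_congr rfl fun j _ => ?_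
    simp only [Prod.fst_add, Prod.snd_add, Prod.smul_fst, Prod.smul_snd, Pi.add_apply,
      Pi.smul_apply, Complex.real_smul, Pi.zero_apply, zero_add, map_add, map_mul,
      Complex.conj_ofReal, Complex.mul_im, Complex.add_im, Complex.add_re, Complex.mul_re,
      Complex.conj_re, Complex.conj_im, Complex.I_re, Complex.I_im, Complex.ofReal_re,
      Complex.ofReal_im]
    ring
  rw [e]
  have h1 : HasDerivAt (fun s : ℝ =>
      (∑ j, m j * (ω * ((q j).re ^ 2 + (q j).im ^ 2))) + s * gfun m ω q v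
        + s ^ 2 * (∑ j, m j * (starRingEnd ℂ (v.1 j) * (v.2 j + Complex.I * ω * v.1 j)).im))
      (0 + 1 * gfun m ω q v + ((2 : ℕ) * (0 : ℝ) ^ (2 - 1) * 1) * (∑ j, m j * (starRingEnd ℂ (v.1 j) * (v.2 j + Complex.I * ω * v.1 j)).im)) 0 := by
    refine ((hasDerivAt_const _ _).add ((hasDerivAt_id (0 : ℝ)).mul_const _)).add ?_
    exact ((hasDerivAt_id (0 : ℝ)).pow 2).mul_const _
  rw [h1.deriv]
  simp

lemma gfun_add {N : ℕ} (m : Fin N → ℝ) (ω : ℝ) (q : Fin N → ℂ) (u v : (Fin N → ℂ) × (Fin N → ℂ)) :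
    gfun m ω q (u + v) = gfun m ω q u + gfun m ω q v := by
  simp only [gfun, Prod.fst_add, Prod.snd_add, Pi.add_apply, mul_add, Complex.add_im, Complex.add_re]
  rw [← Finset.sum_add_distrib]
  exact Finset.sum_congr rfl fun j _ => by ring

lemma gfun_smul {N : ℕ} (m : Fin N → ℝ) (ω : ℝ) (q : Fin N → ℂ) (c : ℝ)
    (u : (Fin N → ℂ) × (Fin N → ℂ)) : gfun m ω q (c • u) = c * gfun m ω q u := by
  simp only [gfun, Prod.smul_fst, Prod.smul_snd, Pi.smul_apply, Complex.real_smul, Finset.mul_sum]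
  refine Finset.sum_congr rfl fun j _ => ?_
  simp only [Complex.mul_im, Complex.mul_re, Complex.ofReal_re, Complex.ofReal_im]
  ring

/-- explicit form of the linearisation -/
lemma fderiv_apply {N : ℕ} (m : Fin N → ℝ) (ω : ℝ) {q : Fin N → ℂ} (hq : Function.Injective q)
    (v : (Fin N → ℂ) × (Fin N → ℂ)) :
    fderiv ℝ (rotField m ω) (q, 0) v =
      (v.2, fun j => DA m q v.1 j + (ω : ℂ) ^ 2 * v.1 j - 2 * Complex.I * ω * v.2 j) := by
  have h := congrArg (fun f => f v) (fderiv_rotField m ω hq)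
  simp only [ContinuousLinearMap.coe_coe] at h
  rw [h]
  refine Prod.ext ?_ ?_
  · simp [Lin, blk]
  · funext j
    simp [Lin, blk, cmulV]
    ring

/-- the angular momentum is a first integral of the linearised equations -/
lemma gfun_lin {N : ℕ} {m : Fin N → ℝ} {ω : ℝ} {q : Fin N → ℂ} (h : IsRelEq m ω q)
    (v : (Fin N → ℂ) × (Fin N → ℂ)) :
    gfun m ω q (fderiv ℝ (rotField m ω) (q, 0) v) = 0 := by
  rw [fderiv_apply m ω h.2.1]
  have h1 := sum_conj_DA h v.1
  have h2 := congrArg Complex.im h1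
  have h3 : ∀ (ζ : ℂ), ((ω : ℂ) ^ 2 * ζ).im = ω ^ 2 * ζ.im := by
    intro ζ
    have : ((ω : ℂ) ^ 2 * ζ) = ((ω ^ 2 : ℝ) : ℂ) * ζ := by push_cast; ring
    rw [this, Complex.im_ofReal_mul]
  rw [Complex.sub_im, Complex.ofReal_im, h3, Complex.im_sum, Complex.im_sum] at h2
  simp only [Complex.im_ofReal_mul] at h2
  simp only [gfun]
  have h4 : ∀ j, m j * ((starRingEnd ℂ (q j) * (DA m q v.1 j + (ω : ℂ) ^ 2 * v.1 j
      - 2 * Complex.I * ω * v.2 j)).im + 2 * ω * (starRingEnd ℂ (q j) * v.2 j).re)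
      = m j * (starRingEnd ℂ (q j) * DA m q v.1 j).im
        + ω ^ 2 * (m j * (starRingEnd ℂ (q j) * v.1 j).im) := by
    intro j
    have e1 : starRingEnd ℂ (q j) * (DA m q v.1 j + (ω : ℂ) ^ 2 * v.1 j - 2 * Complex.I * ω * v.2 j)
        = starRingEnd ℂ (q j) * DA m q v.1 j + (ω : ℂ) ^ 2 * (starRingEnd ℂ (q j) * v.1 j)
          - ((2 * ω : ℝ) : ℂ) * (Complex.I * (starRingEnd ℂ (q j) * v.2 j)) := by
      push_cast; ring
    rw [e1, Complex.sub_im, Complex.add_im, h3, Complex.im_ofReal_mul, Complex.I_mul_im]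
    ring
  rw [Finset.sum_congr rfl fun j _ => h4 j, Finset.sum_add_distrib, ← Finset.mul_sum, h2]
  ring

lemma eigen_pair {V : Type*} [AddCommGroup V] [Module ℝ V] [FiniteDimensional ℝ V]
    (L : V →ₗ[ℝ] V) {s : ℂ} (hs : Polynomial.aeval s L.charpoly = 0) :
    ∃ u w : V, ¬ (u = 0 ∧ w = 0) ∧ L u = s.re • u - s.im • w ∧ L w = s.im • u + s.re • w := by
  classical
  set b := Module.finBasis ℝ V with hb
  let toC : Matrix (Fin (Module.finrank ℝ V)) (Fin (Module.finrank ℝ V)) ℝ →+*
      Matrix (Fin (Module.finrank ℝ V)) (Fin (Module.finrank ℝ V)) ℂ :=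
    (algebraMap ℝ ℂ).mapMatrix
  set A := LinearMap.toMatrix b b L with hA
  have e1 : (toC A).charpoly = L.charpoly.map (algebraMap ℝ ℂ) := by
    rw [← LinearMap.charpoly_toMatrix L b]
    exact (Matrix.charpoly_map A (algebraMap ℝ ℂ))
  have hroot : (toC A).charpoly.IsRoot s := by
    rw [e1, Polynomial.IsRoot.def, Polynomial.eval_map_algebraMap]; exact hs
  rw [isRoot_charpoly_iff'] at hroot
  obtain ⟨v, hv0, hv⟩ := hroot
  set x : Fin (Module.finrank ℝ V) → ℝ := fun i => (v i).re with hx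
  set y : Fin (Module.finrank ℝ V) → ℝ := fun i => (v i).im with hy
  have hAx : A.mulVec x = s.re • x - s.im • y := by
    funext i
    have h1 := congrArg Complex.re (congrFun hv i)
    simp only [Matrix.mulVec, dotProduct, Complex.re_sum, toC, RingHom.mapMatrix_apply,
      Matrix.map_apply, Pi.smul_apply, smul_eq_mul, Complex.mul_re, Complex.coe_algebraMap,
      Complex.ofReal_re, Complex.ofReal_im, zero_mul, sub_zero] at h1
    simp only [Matrix.mulVec, dotProduct, Pi.sub_apply, Pi.smul_apply, smul_eq_mul, hx, hy]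
    exact h1
  have hAy : A.mulVec y = s.im • x + s.re • y := by
    funext i
    have h1 := congrArg Complex.im (congrFun hv i)
    simp only [Matrix.mulVec, dotProduct, Complex.im_sum, toC, RingHom.mapMatrix_apply,
      Matrix.map_apply, Pi.smul_apply, smul_eq_mul, Complex.mul_im, Complex.coe_algebraMap,
      Complex.ofReal_re, Complex.ofReal_im, zero_mul, add_zero] at h1
    simp only [Matrix.mulVec, dotProduct, Pi.add_apply, Pi.smul_apply, smul_eq_mul, hx, hy]
    linarith
  refine ⟨b.equivFun.symm x, b.equivFun.symm y, ?_, ?_, ?_⟩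
  · rintro ⟨h1, h2⟩
    have h3 : x = 0 := (LinearEquiv.map_eq_zero_iff _).1 h1
    have h4 : y = 0 := (LinearEquiv.map_eq_zero_iff _).1 h2
    apply hv0
    funext i
    have h5 := congrFun h3 i
    have h6 := congrFun h4 i
    exact Complex.ext h5 h6
  · have h1 := LinearMap.toMatrix_mulVec_repr b b L (b.equivFun.symm x)
    have h2 : (b.repr (b.equivFun.symm x) : Fin (Module.finrank ℝ V) → ℝ) = x := by
      rw [← Module.Basis.equivFun_apply, LinearEquiv.apply_symm_apply]
    rw [h2, ← hA, hAx] at h1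
    apply b.equivFun.injective
    rw [map_sub, map_smul, map_smul, LinearEquiv.apply_symm_apply, LinearEquiv.apply_symm_apply,
      Module.Basis.equivFun_apply]
    exact h1.symm
  · have h1 := LinearMap.toMatrix_mulVec_repr b b L (b.equivFun.symm y)
    have h2 : (b.repr (b.equivFun.symm y) : Fin (Module.finrank ℝ V) → ℝ) = y := by
      rw [← Module.Basis.equivFun_apply, LinearEquiv.apply_symm_apply]
    rw [h2, ← hA, hAy] at h1
    apply b.equivFun.injective
    rw [map_add, map_smul, map_smul, LinearEquiv.apply_symm_apply, LinearEquiv.apply_symm_apply,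
      Module.Basis.equivFun_apply]
    exact h1.symm

/-- the explicit solution attached to a complex eigenvector -/
lemma solution_deriv {V : Type*} [NormedAddCommGroup V] [NormedSpace ℝ V]
    (L : V →L[ℝ] V) {s : ℂ} {u w : V} (hu : L u = s.re • u - s.im • w)
    (hw : L w = s.im • u + s.re • w) (t : ℝ) :
    HasDerivAt (fun t : ℝ => (Real.exp (s.re * t) * Real.cos (s.im * t)) • u
        - (Real.exp (s.re * t) * Real.sin (s.im * t)) • w)
      (L ((Real.exp (s.re * t) * Real.cos (s.im * t)) • u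
        - (Real.exp (s.re * t) * Real.sin (s.im * t)) • w)) t := by
  have h1 : HasDerivAt (fun t : ℝ => Real.exp (s.re * t)) (Real.exp (s.re * t) * s.re) t := by
    have : HasDerivAt (fun t : ℝ => s.re * t) s.re t := by
      simpa using (hasDerivAt_id t).const_mul s.re
    exact this.exp
  have h0 : HasDerivAt (fun t : ℝ => s.im * t) s.im t := by
    simpa using (hasDerivAt_id t).const_mul s.im
  have h2 := h0.cos
  have h3 := h0.sin
  have h4 := ((h1.mul h2).smul_const u).sub ((h1.mul h3).smul_const w)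
  refine h4.congr_deriv ?_
  rw [map_sub, map_smul, map_smul, hu, hw]
  module

lemma cm_alg (σ τ ω : ℝ) (a b a' b' : ℂ) (h1 : a' = σ * a - τ * b) (h2 : b' = τ * a + σ * b)
    (h3 : (ω : ℂ) ^ 2 * a - 2 * Complex.I * ω * a' = σ * a' - τ * b')
    (h4 : (ω : ℂ) ^ 2 * b - 2 * Complex.I * ω * b' = τ * a' + σ * b') (hσ : σ ≠ 0) :
    a + Complex.I * b = 0 := by
  have k1 : ((σ : ℂ) + τ * Complex.I + Complex.I * ω) ^ 2 * (a + Complex.I * b) = 0 := by
    rw [h1, h2] at h3 h4
    linear_combination (-1 : ℂ) * h3 - Complex.I * h4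
      + (2 * σ * τ * b + 2 * τ * Complex.I * ω * b + τ ^ 2 * Complex.I * b + τ ^ 2 * a
        + Complex.I * ω ^ 2 * b + ω ^ 2 * a) * Complex.I_sq
  rcases mul_eq_zero.1 k1 with h | h
  · exfalso
    have h5 := pow_eq_zero_iff (two_ne_zero) |>.1 h
    have h6 := congrArg Complex.re h5
    simp at h6
    exact hσ h6
  · exact h

/-- **Linear stability in the reduced system implies spectral stability.** -/
theorem spectrallyStable_of_linearlyStable {N : ℕ} (hN : 2 ≤ N) {m : Fin N → ℝ} {ω : ℝ}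
    {q : Fin N → ℂ} (h : IsRelEq m ω q) (hl : LinearlyStable m ω q) : SpectrallyStable m ω q := by
  intro s hs
  by_contra hre
  obtain ⟨u, w, huw, hu, hw⟩ := eigen_pair _ hs
  simp only [ContinuousLinearMap.coe_coe] at hu hw
  set σ := s.re with hσ
  set τ := s.im with hτ
  -- centre of mass and its velocity
  have hu' := hu
  have hw' := hw
  rw [fderiv_apply m ω h.2.1] at hu' hw'
  have hF : ∀ (a b : Fin N → ℂ) (α β : ℝ), ∑ j, (m j : ℂ) * (α • a j + β • b j)
      = α * ∑ j, (m j : ℂ) * a j + β * ∑ j, (m j : ℂ) * b j := by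
    intro a b α β
    rw [Finset.mul_sum, Finset.mul_sum, ← Finset.sum_add_distrib]
    refine Finset.sum_congr rfl fun j _ => ?_
    simp only [Complex.real_smul]; ring
  have hG : ∀ v : (Fin N → ℂ) × (Fin N → ℂ), ∑ j, (m j : ℂ) *
      (DA m q v.1 j + (ω : ℂ) ^ 2 * v.1 j - 2 * Complex.I * ω * v.2 j)
      = (ω : ℂ) ^ 2 * ∑ j, (m j : ℂ) * v.1 j - 2 * Complex.I * ω * ∑ j, (m j : ℂ) * v.2 j := by
    intro v
    have h1 := sum_DA m q v.1
    rw [Finset.mul_sum, Finset.mul_sum]
    have h2 : ∑ j, (m j : ℂ) * (DA m q v.1 j + (ω : ℂ) ^ 2 * v.1 j - 2 * Complex.I * ω * v.2 j)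
        = ∑ j, (m j : ℂ) * DA m q v.1 j + (∑ j, (ω : ℂ) ^ 2 * ((m j : ℂ) * v.1 j)
          - ∑ j, 2 * Complex.I * ω * ((m j : ℂ) * v.2 j)) := by
      rw [← Finset.sum_sub_distrib, ← Finset.sum_add_distrib]
      exact Finset.sum_congr rfl fun j _ => by ring
    rw [h2, h1]; ring
  have a1 : ∑ j, (m j : ℂ) * u.2 j = σ * ∑ j, (m j : ℂ) * u.1 j - τ * ∑ j, (m j : ℂ) * w.1 j := by
    have h1 := congrArg Prod.fst hu'
    simp only at h1
    have h2 := hF u.1 w.1 σ (-τ)
    rw [h1]
    simp only [Prod.fst_sub, Prod.smul_fst, Pi.sub_apply, Pi.smul_apply]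
    simp only [neg_smul, ← sub_eq_add_neg] at h2
    rw [h2]; push_cast; ring
  have a2 : ∑ j, (m j : ℂ) * w.2 j = τ * ∑ j, (m j : ℂ) * u.1 j + σ * ∑ j, (m j : ℂ) * w.1 j := by
    have h1 := congrArg Prod.fst hw'
    simp only at h1
    rw [h1]
    simp only [Prod.fst_add, Prod.smul_fst, Pi.add_apply, Pi.smul_apply]
    rw [hF u.1 w.1 τ σ]
  have a3 : (ω : ℂ) ^ 2 * ∑ j, (m j : ℂ) * u.1 j - 2 * Complex.I * ω * ∑ j, (m j : ℂ) * u.2 j
      = σ * ∑ j, (m j : ℂ) * u.2 j - τ * ∑ j, (m j : ℂ) * w.2 j := by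
    have h1 := congrArg Prod.snd hu'
    simp only at h1
    rw [← hG u]
    have h2 := hF u.2 w.2 σ (-τ)
    simp only [neg_smul, ← sub_eq_add_neg] at h2
    have h3 : ∀ j, DA m q u.1 j + (ω : ℂ) ^ 2 * u.1 j - 2 * Complex.I * ω * u.2 j
        = σ • u.2 j - τ • w.2 j := fun j => by
      have := congrFun h1 j
      simpa using this
    simp only [h3]
    rw [h2]; push_cast; ring
  have a4 : (ω : ℂ) ^ 2 * ∑ j, (m j : ℂ) * w.1 j - 2 * Complex.I * ω * ∑ j, (m j : ℂ) * w.2 j
      = τ * ∑ j, (m j : ℂ) * u.2 j + σ * ∑ j, (m j : ℂ) * w.2 j := by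
    have h1 := congrArg Prod.snd hw'
    simp only at h1
    rw [← hG w]
    have h3 : ∀ j, DA m q w.1 j + (ω : ℂ) ^ 2 * w.1 j - 2 * Complex.I * ω * w.2 j
        = τ • u.2 j + σ • w.2 j := fun j => by
      have := congrFun h1 j
      simpa using this
    simp only [h3]
    rw [hF u.2 w.2 τ σ]
  set A := ∑ j, (m j : ℂ) * u.1 j with hA
  set B := ∑ j, (m j : ℂ) * w.1 j with hB
  set A' := ∑ j, (m j : ℂ) * u.2 j with hA'
  set B' := ∑ j, (m j : ℂ) * w.2 j with hB'
  have k1 := cm_alg σ τ ω A B A' B' a1 a2 a3 a4 hre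
  have k2 := cm_alg σ (-τ) ω A (-B) A' (-B') (by rw [a1]; push_cast; ring)
    (by rw [a2]; push_cast; ring) (by rw [a3]; push_cast; ring)
    (by push_cast; linear_combination (-1 : ℂ) * a4) hre
  have hA0 : A = 0 := by linear_combination (k1 + k2) / 2
  have hB0 : B = 0 := by
    have : Complex.I * B = 0 := by linear_combination (k1 - k2) / 2
    exact (mul_eq_zero.1 this).resolve_left Complex.I_ne_zero
  have hA'0 : A' = 0 := by rw [a1, hA0, hB0]; ring
  have hB'0 : B' = 0 := by rw [a2, hA0, hB0]; ring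
  -- angular momentum
  have g1 : σ * gfun m ω q u - τ * gfun m ω q w = 0 := by
    have := gfun_lin h u
    rw [hu, sub_eq_add_neg, gfun_add, ← neg_smul, gfun_smul, gfun_smul] at this
    linarith
  have g2 : τ * gfun m ω q u + σ * gfun m ω q w = 0 := by
    have := gfun_lin h w
    rw [hw, gfun_add, gfun_smul, gfun_smul] at this
    linarith
  have hst : 0 < σ ^ 2 + τ ^ 2 := by
    have : 0 < σ ^ 2 := by positivity
    nlinarith [sq_nonneg τ]
  have gu : gfun m ω q u = 0 := by
    have : (σ ^ 2 + τ ^ 2) * gfun m ω q u = 0 := by linear_combination σ * g1 + τ * g2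
    exact (mul_eq_zero.1 this).resolve_left hst.ne'
  have gw : gfun m ω q w = 0 := by
    have : (σ ^ 2 + τ ^ 2) * gfun m ω q w = 0 := by linear_combination (-τ) * g1 + σ * g2
    exact (mul_eq_zero.1 this).resolve_left hst.ne'
  have tan : ∀ v : (Fin N → ℂ) × (Fin N → ℂ), ∑ j, (m j : ℂ) * v.1 j = 0 →
      ∑ j, (m j : ℂ) * v.2 j = 0 → gfun m ω q v = 0 → ReducedTangent m ω q v := by
    intro v h1 h2 h3
    refine ⟨h1, ?_, by rw [deriv_angMom, h3]⟩
    unfold linMom
    have : ∑ j, (m j : ℂ) * (v.2 j + Complex.I * ω * v.1 j)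
        = ∑ j, (m j : ℂ) * v.2 j + Complex.I * ω * ∑ j, (m j : ℂ) * v.1 j := by
      rw [Finset.mul_sum, ← Finset.sum_add_distrib]
      exact Finset.sum_congr rfl fun j _ => by ring
    rw [this, h1, h2]; ring
  have tu : ReducedTangent m ω q u := tan u hA0 hA'0 gu
  have tw : ReducedTangent m ω q w := tan w hB0 hB'0 gw
  -- the two solutions
  obtain ⟨C1, hC1⟩ := hl _ (solution_deriv (fderiv ℝ (rotField m ω) (q, 0)) hu hw) (by
    simpa using tu)
  obtain ⟨C2, hC2⟩ := hl _ (solution_deriv (s := s) (u := w) (w := -u)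
    (fderiv ℝ (rotField m ω) (q, 0)) (by rw [hw]; module) (by rw [map_neg, hu]; module)) (by
    simpa using tw)
  have hC1' : 0 ≤ C1 := by
    obtain ⟨c, hc⟩ := hC1 0
    exact (norm_nonneg _).trans hc
  have hC2' : 0 ≤ C2 := by
    obtain ⟨c, hc⟩ := hC2 0
    exact (norm_nonneg _).trans hc
  set e := rotDir q with he
  set K : Submodule ℝ ((Fin N → ℂ) × (Fin N → ℂ)) := Submodule.span ℝ {e} with hK
  have hKc : IsClosed (K : Set ((Fin N → ℂ) × (Fin N → ℂ))) := K.closed_of_finiteDimensional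
  have approx : ∀ T : ℝ, ∃ c d : ℝ, ‖u - c • e‖ ≤ Real.exp (-T) * (C1 + C2) ∧
      ‖w - d • e‖ ≤ Real.exp (-T) * (C1 + C2) := by
    intro T
    obtain ⟨c1, h1⟩ := hC1 (T / σ)
    obtain ⟨c2, h2⟩ := hC2 (T / σ)
    have e0 : σ * (T / σ) = T := by field_simp
    rw [e0] at h1 h2
    set φ := τ * (T / σ) with hφ
    have e1 : Real.exp (-T) * Real.exp T = 1 := by rw [← Real.exp_add]; simp
    have e2 := Real.sin_sq_add_cos_sq φ
    set y1 := (Real.exp T * Real.cos φ) • u - (Real.exp T * Real.sin φ) • w with hy1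
    set y2 := (Real.exp T * Real.cos φ) • w - (Real.exp T * Real.sin φ) • -u with hy2
    have hcos := Real.abs_cos_le_one φ
    have hsin := Real.abs_sin_le_one φ
    have hT := (Real.exp_pos (-T)).le
    refine ⟨Real.exp (-T) * (Real.cos φ * c1 + Real.sin φ * c2),
      Real.exp (-T) * (-Real.sin φ * c1 + Real.cos φ * c2), ?_, ?_⟩
    · have e3 : u - (Real.exp (-T) * (Real.cos φ * c1 + Real.sin φ * c2)) • e
          = Real.exp (-T) • (Real.cos φ • (y1 - c1 • e) + Real.sin φ • (y2 - c2 • e)) := by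
        have e4 : u = ((Real.exp (-T) * Real.exp T) * (Real.sin φ ^ 2 + Real.cos φ ^ 2)) • u := by
          rw [e1, e2]; simp
        conv_lhs => rw [e4]
        rw [hy1, hy2]
        module
      rw [e3, norm_smul, Real.norm_of_nonneg hT]
      apply mul_le_mul_of_nonneg_left _ hT
      refine (norm_add_le _ _).trans (add_le_add ?_ ?_)
      · rw [norm_smul, Real.norm_eq_abs]
        calc |Real.cos φ| * ‖y1 - c1 • e‖ ≤ 1 * C1 := mul_le_mul hcos h1 (norm_nonneg _) zero_le_one
          _ = C1 := one_mul _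
      · rw [norm_smul, Real.norm_eq_abs]
        calc |Real.sin φ| * ‖y2 - c2 • e‖ ≤ 1 * C2 := mul_le_mul hsin h2 (norm_nonneg _) zero_le_one
          _ = C2 := one_mul _
    · have e3 : w - (Real.exp (-T) * (-Real.sin φ * c1 + Real.cos φ * c2)) • e
          = Real.exp (-T) • (-Real.sin φ • (y1 - c1 • e) + Real.cos φ • (y2 - c2 • e)) := by
        have e4 : w = ((Real.exp (-T) * Real.exp T) * (Real.sin φ ^ 2 + Real.cos φ ^ 2)) • w := by
          rw [e1, e2]; simp
        conv_lhs => rw [e4]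
        rw [hy1, hy2]
        module
      rw [e3, norm_smul, Real.norm_of_nonneg hT]
      apply mul_le_mul_of_nonneg_left _ hT
      refine (norm_add_le _ _).trans (add_le_add ?_ ?_)
      · rw [norm_smul, Real.norm_eq_abs, abs_neg]
        calc |Real.sin φ| * ‖y1 - c1 • e‖ ≤ 1 * C1 := mul_le_mul hsin h1 (norm_nonneg _) zero_le_one
          _ = C1 := one_mul _
      · rw [norm_smul, Real.norm_eq_abs]
        calc |Real.cos φ| * ‖y2 - c2 • e‖ ≤ 1 * C2 := mul_le_mul hcos h2 (norm_nonneg _) zero_le_one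
          _ = C2 := one_mul _
  have hsmall : ∀ ε : ℝ, 0 < ε → ∃ T : ℝ, Real.exp (-T) * (C1 + C2) < ε := by
    intro ε hε
    refine ⟨Real.log ((C1 + C2 + 1) / ε), ?_⟩
    have hp : 0 < (C1 + C2 + 1) / ε := by positivity
    rw [Real.exp_neg, Real.exp_log hp, inv_div, div_mul_eq_mul_div, div_lt_iff₀ (by positivity)]
    nlinarith
  have huK : u ∈ K := by
    have : u ∈ closure (K : Set ((Fin N → ℂ) × (Fin N → ℂ))) := by
      rw [Metric.mem_closure_iff]
      intro ε hε
      obtain ⟨T, hT⟩ := hsmall ε hε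
      obtain ⟨c, d, h1, h2⟩ := approx T
      exact ⟨c • e, Submodule.smul_mem _ _ (Submodule.mem_span_singleton_self e), by
        rw [dist_eq_norm]; exact h1.trans_lt hT⟩
    rwa [hKc.closure_eq] at this
  have hwK : w ∈ K := by
    have : w ∈ closure (K : Set ((Fin N → ℂ) × (Fin N → ℂ))) := by
      rw [Metric.mem_closure_iff]
      intro ε hε
      obtain ⟨T, hT⟩ := hsmall ε hε
      obtain ⟨c, d, h1, h2⟩ := approx T
      exact ⟨d • e, Submodule.smul_mem _ _ (Submodule.mem_span_singleton_self e), by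
        rw [dist_eq_norm]; exact h2.trans_lt hT⟩
    rwa [hKc.closure_eq] at this
  obtain ⟨c, hc⟩ := Submodule.mem_span_singleton.1 huK
  obtain ⟨d, hd⟩ := Submodule.mem_span_singleton.1 hwK
  -- some `q j` is nonzero
  obtain ⟨j, hj⟩ : ∃ j, q j ≠ 0 := by
    by_contra hcon
    push Not at hcon
    have h6 : (⟨0, by omega⟩ : Fin N) = ⟨1, by omega⟩ := h.2.1 (by rw [hcon, hcon])
    simp at h6
  have hfst : ∀ x y : ℝ, (x • u - y • w).1 j = ((x * c - y * d : ℝ) : ℂ) * (Complex.I * q j) := by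
    intro x y
    rw [← hc, ← hd, he]
    simp only [rotDir, Prod.fst_sub, Prod.smul_fst, Pi.sub_apply, Pi.smul_apply, Complex.real_smul]
    push_cast; ring
  have hLu : u.2 j = 0 := by rw [← hc, he]; simp [rotDir]
  have hLw : w.2 j = 0 := by rw [← hd, he]; simp [rotDir]
  have q1 : σ * c - τ * d = 0 := by
    have h1 := congrFun (congrArg Prod.fst hu') j
    simp only at h1
    rw [hfst σ τ, hLu] at h1
    have h2 := (mul_eq_zero.1 h1.symm).resolve_right (mul_ne_zero Complex.I_ne_zero hj)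
    exact_mod_cast h2
  have q2 : τ * c + σ * d = 0 := by
    have h1 := congrFun (congrArg Prod.fst hw') j
    simp only at h1
    rw [show τ • u + σ • w = τ • u - (-σ) • w by module, hfst τ (-σ), hLw] at h1
    have h2 := (mul_eq_zero.1 h1.symm).resolve_right (mul_ne_zero Complex.I_ne_zero hj)
    have h3 : τ * c - -σ * d = 0 := by exact_mod_cast h2
    linarith
  have hc0 : c = 0 := by
    have : (σ ^ 2 + τ ^ 2) * c = 0 := by linear_combination σ * q1 + τ * q2
    exact (mul_eq_zero.1 this).resolve_left hst.ne'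
  have hd0 : d = 0 := by
    have : (σ ^ 2 + τ ^ 2) * d = 0 := by linear_combination (-τ) * q1 + σ * q2
    exact (mul_eq_zero.1 this).resolve_left hst.ne'
  exact huw ⟨by rw [← hc, hc0, zero_smul], by rw [← hd, hd0, zero_smul]⟩

end Pool.Agent.RelEq624
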